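import Pool.Agent.H95.KT.Defs

/-!
# Strongly generic conditions in `G` (job KT-11)

`exists_Y`: let `o` be the limit ordinal of `CTM.exists_closed` (H17/Omega/CtmV; with `Φ z w := w = z`) for `x0 = A`, and `Y = V_o` of
`M` (`exists_Lv`, `finZ_mem_Lv` in Tk8). `A ⊆ Y` since elements of `A` have smaller rank.

`hull`: let `Fi ∈ W` be the set of the finite subsets of `Y` (`exists_fin`, H52/GC). Let `D s` be the predicate of `s ∈ W`: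
`s ∈ S`, `s₀ ⊆ s` and there is `Z : W` with `Z ⊆ Y`, `Ctb W Z`, `∀ a ∈ Fi, a ⊆ Z → a ∈ Z`, closed under the five relations
(`∀ y z : W, y ∈ Z → z ∈ Y → Φᵢ y z → ∃ z' ∈ Z, Φᵢ y z'`), and `SG Z S s₀ s`. It is definable over `W` (`SG` unfolded is made of bounded
quantifiers; `UD.d1 ud_Ctb` of Tk4). It is dense below `s₀`: for `r ∈ S`, `s₀ ⊆ r`, apply `SPR` to `r`, `Y` and the relation
`Φ p z := ∃ i y, p = (i, y) ∧ (i = 0 ∧ Φ₀ y z ∨ ... ∨ i = 4 ∧ Φ₄ y z)` (`i = natZ 0, ..., natZ 4`); this gives `Z` and `s ∈ S`, `r ⊆ s`,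
`SG Z S r s`, which implies `SG Z S s₀ s`. Natural numbers `natZ n` are in `Z` (finite subsets of `Z`, induction), so are pairs of
elements of `Z`. `Ctb W Z` by `ctb_up`. Then `Gen.meet` (Gx1) gives `s ∈ G`.
-/

set_option autoImplicit false
set_option linter.unusedVariables false
set_option linter.unusedSectionVars false
set_option linter.unusedSimpArgs false
set_option linter.unusedTactic false
set_option linter.unreachableTactic false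

namespace Pool.Agent.H95.KT

open Pool.Agent.H17.Omega Pool.Agent.H17.Omega.CTM Pool.Agent.H52.GX Pool.Agent.H52.GC Pool.Agent.H7.IG

variable {M W : Set ZFSet.{0}} {S G : ZFSet.{0}}

theorem exists_Y (hM : CTM M) {A : ZFSet.{0}} (hA : A ∈ M) :
    ∃ Y ∈ M, A ⊆ Y ∧ ∀ a, FinZ a → a ⊆ Y → a ∈ Y := by
  obtain ⟨o, ho, hrank, hsucc, _⟩ := hM.exists_closed (Φ := fun z w => w = z) (by
    exact Dfn.eq (DT.var _) (DT.var _)) (fun z => ⟨z, rfl⟩) ⟨A, hA⟩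
  obtain ⟨K, hK, hK'⟩ := exists_Lv hM ho
  refine ⟨K, hK, ?_, ?_⟩
  · intro z hz
    exact (hK' z).2 ⟨hM.mem_of_mem hA hz, (ZFSet.rank_lt_of_mem hz).trans hrank⟩
  · intro a ha haK
    have h0 : 0 < o := lt_of_le_of_lt zero_le hrank
    exact (hK' a).2 (finZ_mem_Lv hM hsucc h0 ha fun x hx => (hK' x).1 (haK hx))

/-- `Z` is closed under `Φ`. -/
def Clo (W : Set ZFSet.{0}) (Z Y : ZFSet.{0}) (Φ : W → W → Prop) : Prop :=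
  ∀ y z : W, y.1 ∈ Z → z.1 ∈ Y → Φ y z → ∃ z' : W, z'.1 ∈ Z ∧ Φ y z'

/-- natural numbers are in `Z` -/
theorem h1_nat {Z : ZFSet.{0}} (hZ : ∀ a, FinZ a → a ⊆ Z → a ∈ Z) (k : ℕ) : natZ.{0} k ∈ Z := by
  classical
  induction k using Nat.strong_induction_on with
  | _ k ih =>
    refine hZ _ ⟨(Finset.range k).image natZ.{0}, fun z => ?_⟩ ?_
    · rw [mem_natZ, Finset.mem_image]
      constructor
      · rintro ⟨m, hm, rfl⟩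
        exact ⟨m, Finset.mem_range.2 hm, rfl⟩
      · rintro ⟨m, hm, rfl⟩
        exact ⟨m, Finset.mem_range.1 hm, rfl⟩
    · intro z hz
      obtain ⟨m, hm, rfl⟩ := mem_natZ.1 hz
      exact ih m hm

/-- pairs are in `Z` -/
theorem h1_pair {Z : ZFSet.{0}} (hZ : ∀ a, FinZ a → a ⊆ Z → a ∈ Z) {x y : ZFSet.{0}} (hx : x ∈ Z)
    (hy : y ∈ Z) : ZFSet.pair x y ∈ Z := by
  classical
  have h : ∀ x y : ZFSet.{0}, x ∈ Z → y ∈ Z → ({x, y} : ZFSet.{0}) ∈ Z := by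
    intro x y hx hy
    refine hZ _ ⟨{x, y}, fun z => ?_⟩ ?_
    · rw [ZFSet.mem_pair, Finset.mem_insert, Finset.mem_singleton]
    · intro z hz
      rcases ZFSet.mem_pair.1 hz with rfl | rfl
      · exact hx
      · exact hy
  rw [pair_eq_upair]
  exact h _ _ (h _ _ hx hx) (h _ _ hx hy)

theorem hull (hM : CTM M) (hW : CTM W) (hMW : M ⊆ W) (hS : S ∈ W) (hSPR : SPR M W S) (hG : Gen W S G)
    {Y : ZFSet.{0}} (hY : Y ∈ M) (hSY : S ⊆ Y) (hYf : ∀ a, FinZ a → a ⊆ Y → a ∈ Y) {s₀ : ZFSet.{0}}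
    (hs₀ : s₀ ∈ G) (Φ₀ Φ₁ Φ₂ Φ₃ Φ₄ : W → W → Prop)
    (h0 : hW.Dfn (fun v : Fin 2 → W => Φ₀ (v 0) (v 1))) (h1 : hW.Dfn (fun v : Fin 2 → W => Φ₁ (v 0) (v 1)))
    (h2 : hW.Dfn (fun v : Fin 2 → W => Φ₂ (v 0) (v 1))) (h3 : hW.Dfn (fun v : Fin 2 → W => Φ₃ (v 0) (v 1)))
    (h4 : hW.Dfn (fun v : Fin 2 → W => Φ₄ (v 0) (v 1))) :
    ∃ Z ∈ W, Z ⊆ Y ∧ Ctb W Z ∧ (∀ a, FinZ a → a ⊆ Z → a ∈ Z) ∧ Clo W Z Y Φ₀ ∧ Clo W Z Y Φ₁ ∧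
      Clo W Z Y Φ₂ ∧ Clo W Z Y Φ₃ ∧ Clo W Z Y Φ₄ ∧ ∃ s ∈ G, s₀ ⊆ s ∧ SG Z S s₀ s := by
  have hYW : Y ∈ W := hMW hY
  have hs₀S : s₀ ∈ S := hG.sub _ hs₀
  have hs₀W : s₀ ∈ W := hW.mem_of_mem hS hs₀S
  obtain ⟨Fi, hFi, hFi'⟩ := exists_fin hW hYW
  -- closure is definable
  have hclo : ∀ Φ : W → W → Prop, hW.Dfn (fun v : Fin 2 → W => Φ (v 0) (v 1)) →
      hW.Dfn (fun v : Fin 1 → W => ∀ y z : W, y.1 ∈ (v 0).1 → z.1 ∈ (⟨Y, hYW⟩ : W).1 → Φ y z →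
        ∃ z' : W, z'.1 ∈ (v 0).1 ∧ Φ y z') := by
    intro Φ hΦ
    (repeat' first
      | exact DT.var _ | exact DT.last | exact DT.const _ | assumption
      | refine Dfn.pairMem ?_ ?_ ?_ | refine Dfn.isPair ?_ ?_ ?_ | refine Dfn.mem ?_ ?_
      | refine Dfn.eqv ?_ ?_ | refine Dfn.eq ?_ ?_ | refine Dfn.subset ?_ ?_
      | refine Dfn.isEmpty ?_ | refine Dfn.isTrans ?_ | refine Dfn.isOrd ?_ | refine Dfn.isNat ?_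
      | refine Dfn.isUpair ?_ ?_ ?_ | refine Dfn.isInsert ?_ ?_ ?_
      | refine Dfn.and ?_ ?_ | refine Dfn.or ?_ ?_ | refine Dfn.iff ?_ ?_ | refine Dfn.not ?_
      | refine Dfn.imp ?_ ?_ | refine Dfn.all ?_ | refine Dfn.ex ?_ | exact Dfn.false'
      | refine Dfn.ballZ ?_ ?_ | refine Dfn.bexZ ?_ ?_ | exact Dfn.const _)
    all_goals exact Dfn.subst2 hΦ (DT.var _) (DT.var _)
  have hSG : hW.Dfn (fun v : Fin 2 → W => ∀ s' ∈ (⟨S, hS⟩ : W).1, (v 0).1 ⊆ s' → ∃ r ∈ (v 1).1,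
      r ∈ (⟨S, hS⟩ : W).1 ∧ (⟨s₀, hs₀W⟩ : W).1 ⊆ r ∧ r ⊆ s' ∧ ∀ t ∈ (v 1).1, t ∈ (⟨S, hS⟩ : W).1 → r ⊆ t →
        ∃ u ∈ (⟨S, hS⟩ : W).1, s' ⊆ u ∧ t ⊆ u) := by
    (repeat' first
      | exact DT.var _ | exact DT.last | exact DT.const _ | assumption
      | refine Dfn.pairMem ?_ ?_ ?_ | refine Dfn.isPair ?_ ?_ ?_ | refine Dfn.mem ?_ ?_
      | refine Dfn.eqv ?_ ?_ | refine Dfn.eq ?_ ?_ | refine Dfn.subset ?_ ?_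
      | refine Dfn.isEmpty ?_ | refine Dfn.isTrans ?_ | refine Dfn.isOrd ?_ | refine Dfn.isNat ?_
      | refine Dfn.isUpair ?_ ?_ ?_ | refine Dfn.isInsert ?_ ?_ ?_
      | refine Dfn.and ?_ ?_ | refine Dfn.or ?_ ?_ | refine Dfn.iff ?_ ?_ | refine Dfn.not ?_
      | refine Dfn.imp ?_ ?_ | refine Dfn.all ?_ | refine Dfn.ex ?_ | exact Dfn.false'
      | refine Dfn.ballZ ?_ ?_ | refine Dfn.bexZ ?_ ?_ | exact Dfn.const _)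
  let C : (W → W → Prop) → W → Prop := fun Φ Z => ∀ y z : W, y.1 ∈ Z.1 → z.1 ∈ (⟨Y, hYW⟩ : W).1 → Φ y z →
    ∃ z' : W, z'.1 ∈ Z.1 ∧ Φ y z'
  let SGd : W → W → Prop := fun s Z => ∀ s' ∈ (⟨S, hS⟩ : W).1, s.1 ⊆ s' → ∃ r ∈ Z.1,
      r ∈ (⟨S, hS⟩ : W).1 ∧ (⟨s₀, hs₀W⟩ : W).1 ⊆ r ∧ r ⊆ s' ∧ ∀ t ∈ Z.1, t ∈ (⟨S, hS⟩ : W).1 → r ⊆ t →
        ∃ u ∈ (⟨S, hS⟩ : W).1, s' ⊆ u ∧ t ⊆ u
  let D : W → Prop := fun s => s.1 ∈ (⟨S, hS⟩ : W).1 ∧ ∃ Z : W, Z.1 ⊆ (⟨Y, hYW⟩ : W).1 ∧ Ctb W Z.1 ∧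
    (∀ a ∈ (⟨Fi, hFi⟩ : W).1, a ⊆ Z.1 → a ∈ Z.1) ∧ C Φ₀ Z ∧ C Φ₁ Z ∧ C Φ₂ Z ∧ C Φ₃ Z ∧ C Φ₄ Z ∧ SGd s Z
  have hD : hW.Dfn (fun v : Fin 1 → W => D (v 0)) := by
    refine Dfn.and (Dfn.mem (DT.var _) (DT.const _)) (Dfn.ex ?_)
    refine Dfn.and (Dfn.subset (DT.var _) (DT.const _)) (Dfn.and ?_ (Dfn.and ?_ ?_))
    · exact UD.d1 (P := fun N x => Ctb N x.1) ud_Ctb hW (DT.var _)
    · refine Dfn.ballZ (DT.const _) (Dfn.imp (Dfn.subset (DT.var _) (DT.var _)) (Dfn.mem (DT.var _) (DT.var _)))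
    · refine Dfn.and ?_ (Dfn.and ?_ (Dfn.and ?_ (Dfn.and ?_ (Dfn.and ?_ ?_))))
      · exact Dfn.subst1 (P := C Φ₀) (hclo Φ₀ h0) (DT.var _)
      · exact Dfn.subst1 (P := C Φ₁) (hclo Φ₁ h1) (DT.var _)
      · exact Dfn.subst1 (P := C Φ₂) (hclo Φ₂ h2) (DT.var _)
      · exact Dfn.subst1 (P := C Φ₃) (hclo Φ₃ h3) (DT.var _)
      · exact Dfn.subst1 (P := C Φ₄) (hclo Φ₄ h4) (DT.var _)
      · exact Dfn.subst2 (P := SGd) hSG (DT.var _) (DT.var _)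
  have hdense : ∀ r ∈ S, s₀ ⊆ r → ∃ q : W, q.1 ∈ S ∧ r ⊆ q.1 ∧ D q := by
    intro r hr hsr
    let Φ : W → W → Prop := fun p z => ∃ i y : W, p.1 = ZFSet.pair i.1 y.1 ∧
      (i = nz hW 0 ∧ Φ₀ y z ∨ i = nz hW 1 ∧ Φ₁ y z ∨ i = nz hW 2 ∧ Φ₂ y z ∨ i = nz hW 3 ∧ Φ₃ y z ∨
        i = nz hW 4 ∧ Φ₄ y z)
    have hΦ : hW.Dfn (fun v : Fin 2 → W => Φ (v 0) (v 1)) := by
      refine Dfn.ex (Dfn.ex (Dfn.and (Dfn.isPair (DT.var _) (DT.var _) (DT.var _)) ?_))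
      refine Dfn.or ?_ (Dfn.or ?_ (Dfn.or ?_ (Dfn.or ?_ ?_)))
      · exact Dfn.and (Dfn.eq (DT.var _) (DT.const _)) (Dfn.subst2 h0 (DT.var _) (DT.var _))
      · exact Dfn.and (Dfn.eq (DT.var _) (DT.const _)) (Dfn.subst2 h1 (DT.var _) (DT.var _))
      · exact Dfn.and (Dfn.eq (DT.var _) (DT.const _)) (Dfn.subst2 h2 (DT.var _) (DT.var _))
      · exact Dfn.and (Dfn.eq (DT.var _) (DT.const _)) (Dfn.subst2 h3 (DT.var _) (DT.var _))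
      · exact Dfn.and (Dfn.eq (DT.var _) (DT.const _)) (Dfn.subst2 h4 (DT.var _) (DT.var _))
    obtain ⟨Z, hZM, hZY, hZc, hZf, hrZ, hZΦ, s, hs, hrs, hsg⟩ := hSPR hW Y hY hSY hYf Φ hΦ r hr
    have hZW : Z ∈ W := hMW hZM
    have hclosed : ∀ (k : ℕ) (Ψ : W → W → Prop),
        (∀ y z : W, Ψ y z → ∀ p : W, p.1 = ZFSet.pair (natZ.{0} k) y.1 → Φ p z) →
        (∀ y z p : W, p.1 = ZFSet.pair (natZ.{0} k) y.1 → Φ p z → Ψ y z) →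
        ∀ y z : W, y.1 ∈ Z → z.1 ∈ Y → Ψ y z → ∃ z' : W, z'.1 ∈ Z ∧ Ψ y z' := by
      intro k Ψ a b y z hy hz hyz
      have hp : ZFSet.pair (natZ.{0} k) y.1 ∈ Z := h1_pair hZf (h1_nat hZf k) hy
      have hpW : ZFSet.pair (natZ.{0} k) y.1 ∈ W := hW.mem_of_mem hZW hp
      obtain ⟨z', hz', hΦz⟩ := hZΦ ⟨_, hpW⟩ z hp hz (a y z hyz _ rfl)
      exact ⟨z', hz', b y z' ⟨_, hpW⟩ rfl hΦz⟩
    have hnz : ∀ k : ℕ, (nz hW k).1 = natZ.{0} k := fun k => rfl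
    have hext : ∀ (k : ℕ) (y z p : W), p.1 = ZFSet.pair (natZ.{0} k) y.1 → Φ p z →
        (k = 0 ∧ Φ₀ y z ∨ k = 1 ∧ Φ₁ y z ∨ k = 2 ∧ Φ₂ y z ∨ k = 3 ∧ Φ₃ y z ∨ k = 4 ∧ Φ₄ y z) := by
      intro k y z p hp hpz
      obtain ⟨i, y', hp', hor⟩ := hpz
      rw [hp, ZFSet.pair_inj] at hp'
      have hy : y' = y := Subtype.ext hp'.2.symm
      rw [hy] at hor
      have hk : ∀ j : ℕ, i = nz hW j → k = j := by
        intro j hj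
        apply natZ_inj.{0}.1
        rw [hp'.1, hj, hnz]
      rcases hor with ⟨a, b⟩ | ⟨a, b⟩ | ⟨a, b⟩ | ⟨a, b⟩ | ⟨a, b⟩
      · exact Or.inl ⟨hk _ a, b⟩
      · exact Or.inr (Or.inl ⟨hk _ a, b⟩)
      · exact Or.inr (Or.inr (Or.inl ⟨hk _ a, b⟩))
      · exact Or.inr (Or.inr (Or.inr (Or.inl ⟨hk _ a, b⟩)))
      · exact Or.inr (Or.inr (Or.inr (Or.inr ⟨hk _ a, b⟩)))
    have hsW : s ∈ W := hW.mem_of_mem hS hs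
    refine ⟨⟨s, hsW⟩, hs, hrs, hs, ⟨Z, hZW⟩, hZY, ctb_up hMW hZc, ?_, ?_, ?_, ?_, ?_, ?_, ?_⟩
    · intro a ha haZ
      exact hZf a ((hFi' a).1 ha).2 haZ
    · refine hclosed 0 Φ₀ (fun y z h p hp => ⟨nz hW 0, y, hp, Or.inl ⟨rfl, h⟩⟩) (fun y z p hp h => ?_)
      rcases hext 0 y z p hp h with ⟨a, b⟩ | ⟨a, b⟩ | ⟨a, b⟩ | ⟨a, b⟩ | ⟨a, b⟩ <;>
        first | exact b | exact absurd a (by decide)
    · refine hclosed 1 Φ₁ (fun y z h p hp => ⟨nz hW 1, y, hp, Or.inr (Or.inl ⟨rfl, h⟩)⟩)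
        (fun y z p hp h => ?_)
      rcases hext 1 y z p hp h with ⟨a, b⟩ | ⟨a, b⟩ | ⟨a, b⟩ | ⟨a, b⟩ | ⟨a, b⟩ <;>
        first | exact b | exact absurd a (by decide)
    · refine hclosed 2 Φ₂ (fun y z h p hp => ⟨nz hW 2, y, hp, Or.inr (Or.inr (Or.inl ⟨rfl, h⟩))⟩)
        (fun y z p hp h => ?_)
      rcases hext 2 y z p hp h with ⟨a, b⟩ | ⟨a, b⟩ | ⟨a, b⟩ | ⟨a, b⟩ | ⟨a, b⟩ <;>
        first | exact b | exact absurd a (by decide)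
    · refine hclosed 3 Φ₃ (fun y z h p hp => ⟨nz hW 3, y, hp, Or.inr (Or.inr (Or.inr (Or.inl ⟨rfl, h⟩)))⟩)
        (fun y z p hp h => ?_)
      rcases hext 3 y z p hp h with ⟨a, b⟩ | ⟨a, b⟩ | ⟨a, b⟩ | ⟨a, b⟩ | ⟨a, b⟩ <;>
        first | exact b | exact absurd a (by decide)
    · refine hclosed 4 Φ₄ (fun y z h p hp => ⟨nz hW 4, y, hp, Or.inr (Or.inr (Or.inr (Or.inr ⟨rfl, h⟩)))⟩)
        (fun y z p hp h => ?_)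
      rcases hext 4 y z p hp h with ⟨a, b⟩ | ⟨a, b⟩ | ⟨a, b⟩ | ⟨a, b⟩ | ⟨a, b⟩ <;>
        first | exact b | exact absurd a (by decide)
    · intro s' hs' hss'
      obtain ⟨r', hr'Z, hr'S, hrr', hr's', ht⟩ := hsg s' hs' hss'
      exact ⟨r', hr'Z, hr'S, fun x hx => hrr' (hsr hx), hr's', ht⟩
  obtain ⟨q, hqG, hsq, hqS, Z, hZY, hZc, hZf, c0, c1, c2, c3, c4, hsg⟩ := hG.meet hW hS hD hs₀ hdense
  refine ⟨Z.1, Z.2, hZY, hZc, ?_, c0, c1, c2, c3, c4, q.1, hqG, hsq, hsg⟩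
  intro a ha haZ
  exact hZf a ((hFi' a).2 ⟨fun x hx => hZY (haZ hx), ha⟩) haZ

end Pool.Agent.H95.KT
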