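import Pool.Agent.H95.KT.F1
import Pool.Agent.H95.KT.H1
import Pool.Agent.H7.IG.Gn1

/-!
# The covering property (job KT-18)

Let `x ⊆ Y'` be countable in `V = W[G]`. `e`: `exists_enum` for `Y'` in `W` (an injective map of an ordinal `m` onto `Y'`);
`m ∈ M` by `hord`. `x ⊆ {f n : n}`, `seqZ f ∈ V`. Let `F = {(n, ξ) : ξ < m, n ∈ ω, (ξ, f n) ∈ e} ∈ V`, single valued (in the form
`(n, ξ), (n, ξ') ∈ F → ξ = ξ'`), `F = vl G τ`, `τ ∈ W`. Some `s₀ ∈ G` forces that `τ` is single valued (`Frc.truth` with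
`Ψ N v := ∀ p ∈ (v 0).1, ∀ q ∈ (v 0).1, ∀ n ξ ξ' : N, p = (n, ξ) → q = (n, ξ') → ξ = ξ'`).
`exists_Y` for `K₁ ∪ m` (`S ⊆ K₁ ∈ M`) gives `Y`. `hull` with `Φ₁ y z := ∃ r n ξ, y = (r, n) ∧ z ∈ S ∧ r ⊆ z ∧ ξ ∈ m ∧ z` forces
`(n, ξ) ∈ τ`, `Φ₂ y z := ∃ t n, y = (t, n) ∧ z ∈ m ∧ t` forces `(n, z) ∈ τ`, and `Φ₀, Φ₃, Φ₄ := False`, gives `Z` and `s ∈ G`.
Claim: `(natZ n, ξ) ∈ F → ξ ∈ Z`. Some `s' ∈ G`, `s ⊆ s'`, forces `(n, ξ) ∈ τ` (`Fm.truth`, directedness). Let `r ∈ Z` be the residue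
(`SG`). `Φ₁` (with `z = s'`) gives `t ∈ Z ∩ S`, `r ⊆ t`, and `ξ₁ < m` with `t` forcing `(n, ξ₁) ∈ τ`; `Φ₂` gives `ξ₂ ∈ Z` with `t` forcing
`(n, ξ₂) ∈ τ`. Some `u ∈ S` contains `s'` and `t`; a generic filter containing `u` contains `s₀`, so `ξ₂ = ξ`.
(`natZ n ∈ Z` and pairs of elements of `Z` are in `Z`: `Z` is closed under finite subsets.)
`y = {w ∈ Y' : ∃ ξ ∈ Z, (ξ, w) ∈ e}` is in `W`, countable in `W` (`Ctb.image`) and contains `x` (`w = f n = e ξ`).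
-/

set_option autoImplicit false
set_option linter.unusedVariables false
set_option linter.unusedSectionVars false
set_option linter.unusedSimpArgs false
set_option linter.unusedTactic false
set_option linter.unreachableTactic false

namespace Pool.Agent.H95.KT

open Pool.Agent.H17.Omega Pool.Agent.H17.Omega.CTM Pool.Agent.H52.GX Pool.Agent.H52.GC Pool.Agent.H7.IG

variable {M W : Set ZFSet.{0}} {S G : ZFSet.{0}}

/-- Natural numbers are in every set closed under finite subsets. -/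
theorem cov_nat {Z : ZFSet.{0}} (hZ : ∀ a, FinZ a → a ⊆ Z → a ∈ Z) (n : ℕ) : natZ n ∈ Z := by
  classical
  induction n using Nat.strong_induction_on with
  | _ n ih =>
    refine hZ _ ⟨(Finset.range n).image natZ, fun z => ?_⟩ fun z hz => ?_
    · rw [mem_natZ, Finset.mem_image]
      exact ⟨fun ⟨m, hm, e⟩ => ⟨m, Finset.mem_range.2 hm, e.symm⟩,
        fun ⟨m, hm, e⟩ => ⟨m, Finset.mem_range.1 hm, e.symm⟩⟩
    · obtain ⟨m, hm, rfl⟩ := mem_natZ.1 hz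
      exact ih m hm

/-- Sets closed under finite subsets are closed under pairs. -/
theorem cov_pair {Z x y : ZFSet.{0}} (hZ : ∀ a, FinZ a → a ⊆ Z → a ∈ Z) (hx : x ∈ Z) (hy : y ∈ Z) :
    ZFSet.pair x y ∈ Z := by
  classical
  have h2 : ∀ a b : ZFSet.{0}, a ∈ Z → b ∈ Z → ({a, b} : ZFSet.{0}) ∈ Z := by
    intro a b ha hb
    refine hZ _ ⟨{a, b}, fun z => by simp⟩ fun z hz => ?_
    rw [ZFSet.mem_pair] at hz
    rcases hz with rfl | rfl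
    · exact ha
    · exact hb
  have h1 : ({x} : ZFSet.{0}) ∈ Z := by
    refine hZ _ ⟨{x}, fun z => by simp⟩ fun z hz => ?_
    rw [ZFSet.mem_singleton] at hz
    exact hz ▸ hx
  rw [ZFSet.pair]
  exact h2 _ _ h1 (h2 _ _ hx hy)

theorem cov (hM : CTM M) (hW : CTM W) (hMW : M ⊆ W) (hord : ∀ o : Ordinal.{0}, o.toZFSet ∈ W → o.toZFSet ∈ M)
    (hS : S ∈ W) (hSM : ∃ K ∈ M, S ⊆ K) (hSPR : SPR M W S) (hG : Gen W S G) : Cov W (Xt W G) := by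
  classical
  intro Y' hY' x hx hxY hxc
  have hV : CTM (Xt W G) := hG.ctm hW hS
  have hWV : W ⊆ Xt W G := hG.sub_xt hW hS
  have hω := hW.omZ_mem
  obtain ⟨μ, hμ, e, he, ⟨hef, heo⟩, hei⟩ := exists_enum hW hY'
  have hμM : μ.toZFSet ∈ M := hord _ hμ
  obtain ⟨f, hf, hf1, hf2⟩ := (ctb_iff_cvr hV).1 hxc
  -- the relation `F`
  obtain ⟨F, ⟨τ, hτ, rfl⟩, hF'⟩ := hV.exists_sep (P := fun p => ∃ n ξ z : Xt W G, p.1 = ZFSet.pair n.1 ξ.1 ∧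
    ZFSet.pair ξ.1 z.1 ∈ (⟨e, hWV he⟩ : Xt W G).1 ∧ ZFSet.pair n.1 z.1 ∈ (⟨f, hf⟩ : Xt W G).1) (by
    (repeat' first
      | exact DT.var _ | exact DT.last | exact DT.const _ | assumption
      | refine Dfn.pairMem ?_ ?_ ?_ | refine Dfn.isPair ?_ ?_ ?_ | refine Dfn.mem ?_ ?_
      | refine Dfn.eqv ?_ ?_ | refine Dfn.eq ?_ ?_ | refine Dfn.subset ?_ ?_
      | refine Dfn.isEmpty ?_ | refine Dfn.isTrans ?_ | refine Dfn.isOrd ?_ | refine Dfn.isNat ?_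
      | refine Dfn.isUpair ?_ ?_ ?_ | refine Dfn.isInsert ?_ ?_ ?_
      | refine Dfn.and ?_ ?_ | refine Dfn.or ?_ ?_ | refine Dfn.iff ?_ ?_ | refine Dfn.not ?_
      | refine Dfn.imp ?_ ?_ | refine Dfn.all ?_ | refine Dfn.ex ?_ | exact Dfn.false'
      | refine Dfn.ballZ ?_ ?_ | refine Dfn.bexZ ?_ ?_ | exact Dfn.const _)) (hV.prod_mem (hWV hω) (hWV hμ))
  have hFm : ∀ n ξ : ZFSet.{0}, ZFSet.pair n ξ ∈ vl G τ ↔ n ∈ omZ ∧ ξ ∈ μ.toZFSet ∧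
      ∃ z, ZFSet.pair ξ z ∈ e ∧ ZFSet.pair n z ∈ f := by
    intro n ξ
    rw [hF']
    constructor
    · rintro ⟨h1, h0, n', ξ', z, h2, h3, h4⟩
      rw [ZFSet.pair_mem_prod] at h1
      have h2 : ZFSet.pair n ξ = ZFSet.pair n'.1 ξ'.1 := h2
      rw [ZFSet.pair_inj] at h2
      exact ⟨h1.1, h1.2, z.1, h2.2 ▸ h3, h2.1 ▸ h4⟩
    · rintro ⟨h1, h2, z, h3, h4⟩
      have hn : n ∈ Xt W G := hWV (hW.mem_of_mem hω h1)
      have hξ : ξ ∈ Xt W G := hWV (hW.mem_of_mem hμ h2)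
      obtain ⟨_, _, z', hz', h5⟩ := hef.sub _ h3
      rw [ZFSet.pair_inj] at h5
      have hz : z ∈ Xt W G := hWV (hW.mem_of_mem hY' (h5.2 ▸ hz'))
      refine ⟨?_, hV.pair_mem hn hξ, ⟨n, hn⟩, ⟨ξ, hξ⟩, ⟨z, hz⟩, rfl, h3, h4⟩
      rw [ZFSet.pair_mem_prod]
      exact ⟨h1, h2⟩
  -- `s₀` forces single valuedness
  obtain ⟨s₀, hs₀, hF₀⟩ := (Frc.truth gn1_ud hW hS hG (![Ar.g ⟨omZ, hω⟩, Ar.n ⟨τ, hτ⟩])
    (![⟨omZ, hWV hω⟩, ⟨vl G τ, ⟨τ, hτ, rfl⟩⟩] : Fin 2 → Xt W G)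
    (by intro i; fin_cases i <;> rfl)).1 (by
      intro n hn y y' h1 h2
      have h1 := (hFm n.1 y.1).1 h1
      have h2 := (hFm n.1 y'.1).1 h2
      obtain ⟨h3, h4, z, h5, h6⟩ := h1
      obtain ⟨_, h4', z', h5', h6'⟩ := h2
      have h7 : z = z' := hf1 n.1 h3 _ _ h6 h6'
      subst h7
      exact Subtype.ext (hei _ _ _ h5 h5'))
  have hs₀S := hG.sub s₀ hs₀
  have huniq : ∀ G', Gen W S G' → s₀ ∈ G' → ∀ n ξ ξ' : ZFSet.{0}, n ∈ omZ → ZFSet.pair n ξ ∈ vl G' τ →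
      ZFSet.pair n ξ' ∈ vl G' τ → ξ = ξ' := by
    intro G' hG' hs n ξ ξ' hn h1 h2
    have hWG' : W ⊆ Xt W G' := hG'.sub_xt hW hS
    have hV' : CTM (Xt W G') := hG'.ctm hW hS
    have h3 := hF₀ G' hG' hs (![⟨omZ, hWG' hω⟩, ⟨vl G' τ, ⟨τ, hτ, rfl⟩⟩] : Fin 2 → Xt W G')
      (by intro i; fin_cases i <;> rfl)
    have hvl : vl G' τ ∈ Xt W G' := ⟨τ, hτ, rfl⟩
    have hmem : ∀ a b : ZFSet.{0}, ZFSet.pair a b ∈ vl G' τ → b ∈ Xt W G' := by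
      intro a b hab
      have h4 := hV'.mem_of_mem hvl hab
      have h5 : ({a, b} : ZFSet.{0}) ∈ Xt W G' := hV'.mem_of_mem h4 (by rw [ZFSet.pair]; simp)
      exact hV'.mem_of_mem h5 (by simp)
    have h6 := h3 ⟨n, hWG' (hW.mem_of_mem hω hn)⟩ hn ⟨ξ, hmem _ _ h1⟩ ⟨ξ', hmem _ _ h2⟩ h1 h2
    exact congrArg Subtype.val h6
  -- the hull
  obtain ⟨K, hK, hSK⟩ := hSM
  obtain ⟨Y, hY, hAY, hYf⟩ := exists_Y hM (hM.union_mem hK hμM)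
  have hSY : S ⊆ Y := fun z hz => hAY (ZFSet.mem_union.2 (Or.inl (hSK hz)))
  have hμY : μ.toZFSet ⊆ Y := fun z hz => hAY (ZFSet.mem_union.2 (Or.inr hz))
  have hfalse : hW.Dfn (fun v : Fin 2 → W => False) := Dfn.false'
  have hFm2 : ∀ {k : ℕ} {s t : (Fin k → W) → W}, hW.DT s → hW.DT t →
      hW.Dfn (fun v => Fm W S (s v).1 τ (t v).1) := fun hs ht => Fm.dfn (hW := hW) hS ⟨τ, hτ⟩ hs ht
  obtain ⟨Z, hZ, hZY, hZc, hZf, -, hZ1, hZ2, -, -, s, hs, hss, hSG⟩ := hull hM hW hMW hS hSPR hG hY hSY hYf hs₀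
    (fun _ _ => False)
    (fun y z => ∃ r n ξ p : W, y.1 = ZFSet.pair r.1 n.1 ∧ z.1 ∈ (⟨S, hS⟩ : W).1 ∧ r.1 ⊆ z.1 ∧
      ξ.1 ∈ (⟨μ.toZFSet, hμ⟩ : W).1 ∧ p.1 = ZFSet.pair n.1 ξ.1 ∧ Fm W S z.1 τ p.1)
    (fun y z => ∃ t n p : W, y.1 = ZFSet.pair t.1 n.1 ∧ z.1 ∈ (⟨μ.toZFSet, hμ⟩ : W).1 ∧
      p.1 = ZFSet.pair n.1 z.1 ∧ Fm W S t.1 τ p.1)
    (fun _ _ => False) (fun _ _ => False) hfalse (by
    (repeat' first
      | exact DT.var _ | exact DT.last | exact DT.const _ | assumption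
      | refine Dfn.pairMem ?_ ?_ ?_ | refine Dfn.isPair ?_ ?_ ?_ | refine Dfn.mem ?_ ?_
      | refine Dfn.eqv ?_ ?_ | refine Dfn.eq ?_ ?_ | refine Dfn.subset ?_ ?_
      | refine Dfn.isEmpty ?_ | refine Dfn.isTrans ?_ | refine Dfn.isOrd ?_ | refine Dfn.isNat ?_
      | refine Dfn.isUpair ?_ ?_ ?_ | refine Dfn.isInsert ?_ ?_ ?_
      | refine Dfn.and ?_ ?_ | refine Dfn.or ?_ ?_ | refine Dfn.iff ?_ ?_ | refine Dfn.not ?_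
      | refine Dfn.imp ?_ ?_ | refine Dfn.all ?_ | refine Dfn.ex ?_ | exact Dfn.false'
      | refine Dfn.ballZ ?_ ?_ | refine Dfn.bexZ ?_ ?_ | exact Dfn.const _)
    exact hFm2 (DT.var _) (DT.var _)) (by
    (repeat' first
      | exact DT.var _ | exact DT.last | exact DT.const _ | assumption
      | refine Dfn.pairMem ?_ ?_ ?_ | refine Dfn.isPair ?_ ?_ ?_ | refine Dfn.mem ?_ ?_
      | refine Dfn.eqv ?_ ?_ | refine Dfn.eq ?_ ?_ | refine Dfn.subset ?_ ?_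
      | refine Dfn.isEmpty ?_ | refine Dfn.isTrans ?_ | refine Dfn.isOrd ?_ | refine Dfn.isNat ?_
      | refine Dfn.isUpair ?_ ?_ ?_ | refine Dfn.isInsert ?_ ?_ ?_
      | refine Dfn.and ?_ ?_ | refine Dfn.or ?_ ?_ | refine Dfn.iff ?_ ?_ | refine Dfn.not ?_
      | refine Dfn.imp ?_ ?_ | refine Dfn.all ?_ | refine Dfn.ex ?_ | exact Dfn.false'
      | refine Dfn.ballZ ?_ ?_ | refine Dfn.bexZ ?_ ?_ | exact Dfn.const _)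
    exact hFm2 (DT.var _) (DT.var _)) hfalse hfalse
  have hclaim : ∀ n ξ : ZFSet.{0}, ZFSet.pair n ξ ∈ vl G τ → ξ ∈ Z := by
    intro n ξ hnξ
    obtain ⟨hn, hξ, -⟩ := (hFm n ξ).1 hnξ
    have hnW := hW.mem_of_mem hω hn
    have hξW := hW.mem_of_mem hμ hξ
    have hpW := hW.pair_mem hnW hξW
    obtain ⟨s₁, hs₁, hs₁F⟩ := (Fm.truth hW hS hG hτ hpW).1 hnξ
    obtain ⟨s', hs', h1, h2⟩ := hG.dir s hs s₁ hs₁
    have hs'S := hG.sub _ hs'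
    have hs'W := hW.mem_of_mem hS hs'S
    have hs'F : Fm W S s' τ (ZFSet.pair n ξ) := hs₁F.mono (hG.sub _ hs₁) h2
    obtain ⟨r, hrZ, hrS, hsr, hrs, hcomp⟩ := hSG s' hs'S h1
    obtain ⟨k, hk⟩ := mem_omZ.1 hn
    have hnZ : n ∈ Z := hk ▸ cov_nat hZf k
    have hrW := hW.mem_of_mem hS hrS
    obtain ⟨t, htZ, r₁, n₁, ξ₁, p₁, h3, h4, h5, h6, h7, h8⟩ := hZ1 ⟨ZFSet.pair r n, hW.pair_mem hrW hnW⟩
      ⟨s', hs'W⟩ (cov_pair hZf hrZ hnZ) (hSY hs'S)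
      ⟨⟨r, hrW⟩, ⟨n, hnW⟩, ⟨ξ, hξW⟩, ⟨_, hpW⟩, rfl, hs'S, hrs, hξ, rfl, hs'F⟩
    have h3 : ZFSet.pair r n = ZFSet.pair r₁.1 n₁.1 := h3
    rw [ZFSet.pair_inj] at h3
    obtain ⟨h31, h32⟩ := h3
    have htS : t.1 ∈ S := h4
    have hrt : r ⊆ t.1 := h31 ▸ h5
    obtain ⟨ξ₂, hξ₂Z, t₂, n₂, p₂, h9, h10, h11, h12⟩ := hZ2 ⟨ZFSet.pair t.1 n, hW.pair_mem t.2 hnW⟩ ξ₁
      (cov_pair hZf htZ hnZ) (hμY h6) ⟨t, ⟨n, hnW⟩, p₁, rfl, h6, by rw [h7, ← h32], h8⟩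
    have h9 : ZFSet.pair t.1 n = ZFSet.pair t₂.1 n₂.1 := h9
    rw [ZFSet.pair_inj] at h9
    obtain ⟨h91, h92⟩ := h9
    rw [← h91, h11, ← h92] at h12
    obtain ⟨u, huS, hs'u, htu⟩ := hcomp t.1 htZ htS hrt
    obtain ⟨G', hG', huG'⟩ := exists_gen hW hS huS
    have hsu : s₀ ⊆ u := (hss.trans h1).trans hs'u
    have h13 := hs'F G' hG' (hG'.up _ huG' _ hs'S hs'u)
    have h14 := h12 G' hG' (hG'.up _ huG' _ htS htu)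
    have h15 := huniq G' hG' (hG'.up _ huG' _ hs₀S hsu) n ξ ξ₂.1 hn h13 h14
    rw [h15]
    exact hξ₂Z
  -- the covering set
  obtain ⟨y, hy, hy'⟩ := hW.exists_sep (P := fun w => ∃ ξ : W, ξ.1 ∈ (⟨Z, hZ⟩ : W).1 ∧
    ZFSet.pair ξ.1 w.1 ∈ (⟨e, he⟩ : W).1) (by
    (repeat' first
      | exact DT.var _ | exact DT.last | exact DT.const _ | assumption
      | refine Dfn.pairMem ?_ ?_ ?_ | refine Dfn.isPair ?_ ?_ ?_ | refine Dfn.mem ?_ ?_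
      | refine Dfn.eqv ?_ ?_ | refine Dfn.eq ?_ ?_ | refine Dfn.subset ?_ ?_
      | refine Dfn.isEmpty ?_ | refine Dfn.isTrans ?_ | refine Dfn.isOrd ?_ | refine Dfn.isNat ?_
      | refine Dfn.isUpair ?_ ?_ ?_ | refine Dfn.isInsert ?_ ?_ ?_
      | refine Dfn.and ?_ ?_ | refine Dfn.or ?_ ?_ | refine Dfn.iff ?_ ?_ | refine Dfn.not ?_
      | refine Dfn.imp ?_ ?_ | refine Dfn.all ?_ | refine Dfn.ex ?_ | exact Dfn.false'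
      | refine Dfn.ballZ ?_ ?_ | refine Dfn.bexZ ?_ ?_ | exact Dfn.const _)) hY'
  refine ⟨y, hy, fun z hz => ((hy' z).1 hz).1, fun w hw => ?_, ?_⟩
  · obtain ⟨n, hn, hnw⟩ := hf2 w hw
    have hwW := hW.mem_of_mem hY' (hxY hw)
    obtain ⟨ξ, hξ, hξw⟩ := heo w (hxY hw)
    have hξW := hW.mem_of_mem hμ hξ
    have h1 : ξ ∈ Z := hclaim n ξ ((hFm n ξ).2 ⟨hn, hξ, w, hξw, hnw⟩)
    exact (hy' w).2 ⟨hxY hw, hwW, ⟨ξ, hξW⟩, h1, hξw⟩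
  · refine Ctb.image hW hZc hZ (F := fun ξ w => ZFSet.pair ξ.1 w.1 ∈ (⟨e, he⟩ : W).1) (by
      (repeat' first
      | exact DT.var _ | exact DT.last | exact DT.const _ | assumption
      | refine Dfn.pairMem ?_ ?_ ?_ | refine Dfn.isPair ?_ ?_ ?_ | refine Dfn.mem ?_ ?_
      | refine Dfn.eqv ?_ ?_ | refine Dfn.eq ?_ ?_ | refine Dfn.subset ?_ ?_
      | refine Dfn.isEmpty ?_ | refine Dfn.isTrans ?_ | refine Dfn.isOrd ?_ | refine Dfn.isNat ?_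
      | refine Dfn.isUpair ?_ ?_ ?_ | refine Dfn.isInsert ?_ ?_ ?_
      | refine Dfn.and ?_ ?_ | refine Dfn.or ?_ ?_ | refine Dfn.iff ?_ ?_ | refine Dfn.not ?_
      | refine Dfn.imp ?_ ?_ | refine Dfn.all ?_ | refine Dfn.ex ?_ | exact Dfn.false'
      | refine Dfn.ballZ ?_ ?_ | refine Dfn.bexZ ?_ ?_ | exact Dfn.const _)) ?_ ?_
    · intro ξ _ w w' h1 h2
      exact Subtype.ext ((hef.ap_eq h1).symm.trans (hef.ap_eq h2))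
    · intro w hw
      obtain ⟨_, hwW, ξ, h1, h2⟩ := (hy' w).1 hw
      exact ⟨ξ, ⟨w, hwW⟩, h1, rfl, h2⟩

end Pool.Agent.H95.KT
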