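import Pool.Agent.H95.KT.B0

/-!
# The tree of possible restrictions (job KT-16)

`exists_T`: separation from `prod C C` with `Fi.dfn`.
`T_ap`: `ne`: a generic `K ∋ k₀`: `x = vl K β ∩ a ∈ C` (`Nb.cap`), `Fi.truth` and directedness give `k ⊇ k₀` forcing it. `res`: if `k`
forces `β ∩ a = x` and `a' ⊆ a` then `k` forces `β ∩ a' = x ∩ a'`; `x ∩ a' ∈ C` since it is in `W` and a subset of `x ∈ C` (`IsCs`).
-/

set_option autoImplicit false
set_option linter.unusedVariables false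
set_option linter.unusedSectionVars false
set_option linter.unusedSimpArgs false
set_option linter.unusedTactic false
set_option linter.unreachableTactic false

namespace Pool.Agent.H95.KT

open Pool.Agent.H17.Omega Pool.Agent.H17.Omega.CTM Pool.Agent.H52.GX Pool.Agent.H52.GC Pool.Agent.H7.IG

variable {W V : Set ZFSet.{0}} {X C P R β k₀ T : ZFSet.{0}}

/-- The intersection of two elements of a model is in the model. -/
theorem b1_inter (hW : CTM W) {x y : ZFSet.{0}} (hx : x ∈ W) (hy : y ∈ W) : x ∩ y ∈ W := by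
  have h1 : ZFSet.sep (fun z => z ∈ y) x ∈ W :=
    hW.sep_mem (p := fun z => z ∈ (⟨y, hy⟩ : W).1) (Dfn.mem (DT.var _) (DT.const _)) hx
  have h2 : x ∩ y = ZFSet.sep (fun z => z ∈ y) x := by
    ext z
    rw [ZFSet.mem_inter, ZFSet.mem_sep]
  rw [h2]
  exact h1

theorem exists_T (h : KC W V X C P R β k₀) : ∃ T ∈ V, IsT V C R β k₀ T := by
  have hCV : C ∈ V := h.sub h.hC
  have hkV : k₀ ∈ V := h.hV.mem_of_mem h.hR h.hk
  obtain ⟨T, hTV, hT⟩ := h.hV.exists_sep (P := fun z : V => ∃ a ∈ (⟨C, hCV⟩ : V).1, ∃ x ∈ (⟨C, hCV⟩ : V).1,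
      x ⊆ a ∧ z.1 = ZFSet.pair a x ∧ ∃ k ∈ (⟨R, h.hR⟩ : V).1, (⟨k₀, hkV⟩ : V).1 ⊆ k ∧
        Fi V R k (⟨β, h.hβ⟩ : V).1 a x) (by
      (repeat' first
        | exact DT.var _ | exact DT.last | exact DT.const _ | assumption
        | refine Dfn.pairMem ?_ ?_ ?_ | refine Dfn.isPair ?_ ?_ ?_ | refine Dfn.mem ?_ ?_
        | refine Dfn.eqv ?_ ?_ | refine Dfn.eq ?_ ?_ | refine Dfn.subset ?_ ?_
        | refine Dfn.isEmpty ?_ | refine Dfn.isTrans ?_ | refine Dfn.isOrd ?_ | refine Dfn.isNat ?_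
        | refine Dfn.isUpair ?_ ?_ ?_ | refine Dfn.isInsert ?_ ?_ ?_
        | refine Dfn.and ?_ ?_ | refine Dfn.or ?_ ?_ | refine Dfn.iff ?_ ?_ | refine Dfn.not ?_
        | refine Dfn.imp ?_ ?_ | refine Dfn.all ?_ | refine Dfn.ex ?_ | exact Dfn.false'
        | refine Dfn.ballZ ?_ ?_ | refine Dfn.bexZ ?_ ?_ | exact Dfn.const _)
      all_goals exact Fi.dfn h.hR _ (DT.var _) (DT.var _) (DT.var _))
    (h.hV.prod_mem hCV hCV)
  refine ⟨T, hTV, fun z => ?_⟩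
  rw [hT]
  constructor
  · rintro ⟨_, hz, h1⟩
    exact h1
  · rintro ⟨a, ha, x, hx, h1, rfl, h2⟩
    refine ⟨ZFSet.pair_mem_prod.2 ⟨ha, hx⟩, h.hV.pair_mem (h.hV.mem_of_mem hCV ha) (h.hV.mem_of_mem hCV hx), ?_⟩
    exact ⟨a, ha, x, hx, h1, rfl, h2⟩

theorem T_ap (h : KC W V X C P R β k₀) (hT : IsT V C R β k₀ T) : Ap C T := by
  have hCV : C ∈ V := h.sub h.hC
  refine ⟨?_, ?_, ?_⟩
  · intro z hz
    obtain ⟨a, ha, x, hx, h1, h2, -⟩ := (hT z).1 hz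
    exact ⟨a, ha, x, hx, h1, h2⟩
  · intro a x hax a' ha' hsub
    obtain ⟨a₁, ha, x₁, hx, h1, h2, k, hk, hkk, hF⟩ := (hT _).1 hax
    rw [ZFSet.pair_inj] at h2
    obtain ⟨rfl, rfl⟩ := h2
    refine (hT _).2 ⟨a', ha', x ∩ a', ?_, ?_, rfl, k, hk, hkk, ?_⟩
    · obtain ⟨hx1, hx2, hx3⟩ := (h.cs x).1 hx
      obtain ⟨ha1, -, -⟩ := (h.cs a').1 ha'
      refine (h.cs _).2 ⟨b1_inter h.hW hx1 ha1, fun z hz => hx2 (ZFSet.mem_inter.1 hz).1, ?_⟩
      exact hx3.mono fun z hz => (ZFSet.mem_inter.1 hz).1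
    · exact fun z hz => (ZFSet.mem_inter.1 hz).2
    · intro K hK hkK
      rw [← hF K hK hkK]
      ext z
      simp only [ZFSet.mem_inter]
      constructor
      · rintro ⟨h3, h4⟩
        exact ⟨⟨h3, hsub h4⟩, h4⟩
      · rintro ⟨⟨h3, -⟩, h4⟩
        exact ⟨h3, h4⟩
  · intro a ha
    obtain ⟨K, hK, hkK⟩ := exists_gen h.hV h.hR h.hk
    have hNb := h.frc K hK hkK
    have hx : vl K β ∩ a ∈ C := hNb.cap a ha
    have haV : a ∈ V := h.hV.mem_of_mem hCV ha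
    have hxV : vl K β ∩ a ∈ V := h.hV.mem_of_mem hCV hx
    obtain ⟨p, hp, hF⟩ := (Fi.truth h.hV h.hR hK h.hβ haV hxV).1 rfl
    obtain ⟨r, hr, hpr, hkr⟩ := hK.dir p hp k₀ hkK
    refine ⟨vl K β ∩ a, (hT _).2 ⟨a, ha, _, hx, fun z hz => (ZFSet.mem_inter.1 hz).2, rfl, r, hK.sub r hr, hkr, ?_⟩⟩
    exact hF.mono (hK.sub p hp) hpr

end Pool.Agent.H95.KT
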