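import Pool.Agent.H95.KT.B0

/-!
# The levels of `T'` are countable (job KT-16c)

The level `L = {x ∈ C : (a, x) ∈ T'}` is in `V` (separation). `exists_choice` in `V` with `A = L`, `B = R`,
`F x k := k₀ ⊆ k ∧ k` forces `β ∩ a = x` (`Fi.dfn`) gives `f ∈ V`. Let `A₁ ⊆ R` be its range (separation). If `k, k' ∈ A₁`, `k ≠ k'`,
have a common extension `u` then `fi_inc` (with `a' = a`, `x, x' ⊆ a`) gives `x = x'`, so `k = k'`. So `A₁` is countable (`Ccc`) and `L`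
is the image of `A₁` under `k ↦ x` (`F x k` determines `x`: `fi_inc` with `p = q = u = k`): `Ctb.image`.
-/

set_option autoImplicit false
set_option linter.unusedVariables false
set_option linter.unusedSectionVars false
set_option linter.unusedSimpArgs false
set_option linter.unusedTactic false
set_option linter.unreachableTactic false

namespace Pool.Agent.H95.KT

open Pool.Agent.H17.Omega Pool.Agent.H17.Omega.CTM Pool.Agent.H52.GX Pool.Agent.H52.GC Pool.Agent.H7.IG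

variable {W V : Set ZFSet.{0}} {X C P R β k₀ T : ZFSet.{0}}

theorem T_ctb (h : KC W V X C P R β k₀) (hTV : T ∈ V) (hT : IsT V C R β k₀ T) : LC V C T := by
  have hCV : C ∈ V := h.sub h.hC
  have hkV : k₀ ∈ V := h.hV.mem_of_mem h.hR h.hk
  intro a ha
  have haV : a ∈ V := h.hV.mem_of_mem hCV ha
  obtain ⟨L, hL, hL'⟩ := h.hV.exists_sep (P := fun x : V => ZFSet.pair (⟨a, haV⟩ : V).1 x.1 ∈ (⟨T, hTV⟩ : V).1)
    (Dfn.pairMem (DT.const _) (DT.var _) (DT.const _)) hCV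
  have hLx : ∀ x, x ∈ L ↔ ZFSet.pair a x ∈ T := by
    intro x
    rw [hL']
    constructor
    · rintro ⟨_, hz, h1⟩
      exact h1
    · intro h1
      obtain ⟨a₁, ha₁, x₁, hx₁, -, h2, -⟩ := (hT _).1 h1
      rw [ZFSet.pair_inj] at h2
      obtain ⟨rfl, rfl⟩ := h2
      exact ⟨hx₁, h.hV.mem_of_mem hCV hx₁, h1⟩
  refine ⟨L, hL, ?_, hLx⟩
  have hFd : h.hV.Dfn (fun v : Fin 2 → V => (⟨k₀, hkV⟩ : V).1 ⊆ (v 1).1 ∧
      Fi V R (v 1).1 (⟨β, h.hβ⟩ : V).1 (⟨a, haV⟩ : V).1 (v 0).1) :=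
    Dfn.and (Dfn.subset (DT.const _) (DT.var _)) (Fi.dfn h.hR _ (DT.var _) (DT.const _) (DT.var _))
  obtain ⟨f, hf, hfn, hfF⟩ := exists_choice h.hV (F := fun x k : V => (⟨k₀, hkV⟩ : V).1 ⊆ k.1 ∧
      Fi V R k.1 (⟨β, h.hβ⟩ : V).1 (⟨a, haV⟩ : V).1 x.1) hFd hL h.hR (by
    intro x hx
    obtain ⟨a₁, ha₁, x₁, hx₁, -, h2, k, hk, hk2, hF⟩ := (hT _).1 ((hLx _).1 hx)
    rw [ZFSet.pair_inj] at h2
    obtain ⟨rfl, rfl⟩ := h2
    exact ⟨⟨k, h.hV.mem_of_mem h.hR hk⟩, hk, hk2, hF⟩)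
  -- the range of the choice function
  obtain ⟨A, hA, hA'⟩ := h.hV.exists_sep (P := fun k : V => ∃ x ∈ (⟨L, hL⟩ : V).1,
      ZFSet.pair x k.1 ∈ (⟨f, hf⟩ : V).1)
    (Dfn.bexZ (DT.const _) (Dfn.pairMem (DT.var _) (DT.var _) (DT.const _))) h.hR
  have hAx : ∀ k, k ∈ A ↔ k ∈ R ∧ ∃ x ∈ L, ZFSet.pair x k ∈ f := by
    intro k
    rw [hA']
    constructor
    · rintro ⟨h1, hz, h2⟩
      exact ⟨h1, h2⟩
    · rintro ⟨h1, h2⟩
      exact ⟨h1, h.hV.mem_of_mem h.hR h1, h2⟩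
  have hFi : ∀ x k, x ∈ L → k ∈ R → ZFSet.pair x k ∈ f → Fi V R k β a x := by
    intro x k hx hk hxk
    exact (hfF ⟨x, h.hV.mem_of_mem hL hx⟩ ⟨k, h.hV.mem_of_mem h.hR hk⟩ hxk).2
  have hsub : ∀ x ∈ L, x ⊆ a := by
    intro x hx
    obtain ⟨a₁, ha₁, x₁, hx₁, h1, h2, -⟩ := (hT _).1 ((hLx _).1 hx)
    rw [ZFSet.pair_inj] at h2
    obtain ⟨rfl, rfl⟩ := h2
    exact h1
  have hAc : Ctb V A := by
    refine h.ccc A hA (fun k hk => ((hAx k).1 hk).1) ?_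
    intro k hk k' hk' hne u hu hku hku'
    obtain ⟨hkR, x, hx, hxk⟩ := (hAx k).1 hk
    obtain ⟨hkR', x', hx', hxk'⟩ := (hAx k').1 hk'
    have h1 := fi_inc h.hV h.hR (hFi x k hx hkR hxk) (hFi x' k' hx' hkR' hxk') hkR hkR' hu hku hku'
    have h2 : x = x' := by
      ext z
      constructor
      · intro hz
        have h3 : z ∈ x ∩ a := ZFSet.mem_inter.2 ⟨hz, hsub x hx hz⟩
        rw [h1] at h3
        exact (ZFSet.mem_inter.1 h3).1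
      · intro hz
        have h3 : z ∈ x' ∩ a := ZFSet.mem_inter.2 ⟨hz, hsub x' hx' hz⟩
        rw [← h1] at h3
        exact (ZFSet.mem_inter.1 h3).1
    subst h2
    exact hne (hfn.uni x hx k hkR k' hkR' hxk hxk')
  refine hAc.image h.hV hA (F := fun k x : V => Fi V R k.1 (⟨β, h.hβ⟩ : V).1 (⟨a, haV⟩ : V).1 x.1)
    (Fi.dfn h.hR _ (DT.var _) (DT.const _) (DT.var _)) ?_ ?_
  · intro k hk y y' h1 h2
    obtain ⟨K, hK, hkK⟩ := exists_gen h.hV h.hR ((hAx _).1 hk).1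
    exact Subtype.ext ((h1 K hK hkK).symm.trans (h2 K hK hkK))
  · intro x hx
    obtain ⟨k, hk, hxk⟩ := hfn.tot x hx
    exact ⟨⟨k, h.hV.mem_of_mem h.hR hk⟩, ⟨x, h.hV.mem_of_mem hL hx⟩, (hAx k).2 ⟨hk, x, hx, hxk⟩, rfl,
      hFi x k hx hk hxk⟩

end Pool.Agent.H95.KT
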