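import Pool.Agent.H95.KT.Defs

/-!
# Enumeration of the levels (job KT-16e)

`exists_choice` in `V` with `A = C`, `B =` the power set (in `V`) of `ω × C`, and `F a q :=` `q` is single valued and for all `x` with
`(a, x) ∈ T` there is `n ∈ ω` with `(n, x) ∈ q`. For `a ∈ C` take `q = {(n, x) : x = f n, x ∈ L}` where `seqZ f ∈ V` enumerates the
level `L` of `a` (`Ctb`; `L ⊆ C` by `Ap.sub`). Then `E = {((a, n), x) : ∃ q, (a, q) ∈ f ∧ (n, x) ∈ q}` (separation from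
`prod (prod C ω) C`).
-/

set_option autoImplicit false
set_option linter.unusedVariables false
set_option linter.unusedSectionVars false
set_option linter.unusedSimpArgs false
set_option linter.unusedTactic false
set_option linter.unreachableTactic false

namespace Pool.Agent.H95.KT

open Pool.Agent.H17.Omega Pool.Agent.H17.Omega.CTM Pool.Agent.H52.GX Pool.Agent.H52.GC Pool.Agent.H7.IG

variable {V : Set ZFSet.{0}} {C T : ZFSet.{0}}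

theorem exists_E (hV : CTM V) (hC : C ∈ V) (hTV : T ∈ V) (hAp : Ap C T) (hLC : LC V C T) :
    ∃ E ∈ V, PrT C T E := by
  have hpr := hV.prod_mem hV.omZ_mem hC
  obtain ⟨pw, hpw, hpw'⟩ := hV.exists_pow hpr
  obtain ⟨oN, hoN⟩ : ∃ z : V, z.1 = omZ := ⟨⟨_, hV.omZ_mem⟩, rfl⟩
  obtain ⟨TN, hTN⟩ : ∃ z : V, z.1 = T := ⟨⟨_, hTV⟩, rfl⟩
  have hTm : ∀ {a x : ZFSet.{0}}, ZFSet.pair a x ∈ T → a ∈ C ∧ x ∈ C := by
    intro a x h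
    obtain ⟨a', ha', x', hx', _, h2⟩ := hAp.sub _ h
    rw [ZFSet.pair_inj] at h2
    exact ⟨h2.1 ▸ ha', h2.2 ▸ hx'⟩
  obtain ⟨h, hh, hhF, hhE⟩ := exists_choice hV (F := fun a q =>
    (∀ n x x' : V, ZFSet.pair n.1 x.1 ∈ q.1 → ZFSet.pair n.1 x'.1 ∈ q.1 → x = x') ∧
    ∀ x : V, ZFSet.pair a.1 x.1 ∈ TN.1 → ∃ n : V, n.1 ∈ oN.1 ∧ ZFSet.pair n.1 x.1 ∈ q.1) (by
    show hV.Dfn (fun v : Fin 2 → V =>
      (∀ n x x' : V, ZFSet.pair n.1 x.1 ∈ (v 1).1 → ZFSet.pair n.1 x'.1 ∈ (v 1).1 → x = x') ∧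
      ∀ x : V, ZFSet.pair (v 0).1 x.1 ∈ TN.1 → ∃ n : V, n.1 ∈ oN.1 ∧ ZFSet.pair n.1 x.1 ∈ (v 1).1)
    (repeat' first
      | exact DT.var _ | exact DT.last | exact DT.const _ | assumption
      | refine Dfn.pairMem ?_ ?_ ?_ | refine Dfn.isPair ?_ ?_ ?_ | refine Dfn.mem ?_ ?_
      | refine Dfn.eqv ?_ ?_ | refine Dfn.eq ?_ ?_ | refine Dfn.subset ?_ ?_
      | refine Dfn.isEmpty ?_ | refine Dfn.isTrans ?_ | refine Dfn.isOrd ?_ | refine Dfn.isNat ?_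
      | refine Dfn.isUpair ?_ ?_ ?_ | refine Dfn.isInsert ?_ ?_ ?_
      | refine Dfn.and ?_ ?_ | refine Dfn.or ?_ ?_ | refine Dfn.iff ?_ ?_ | refine Dfn.not ?_
      | refine Dfn.imp ?_ ?_ | refine Dfn.all ?_ | refine Dfn.ex ?_ | exact Dfn.false'
      | refine Dfn.ballZ ?_ ?_ | refine Dfn.bexZ ?_ ?_ | exact Dfn.const _)
    ) hC hpw (by
    intro a ha
    obtain ⟨L, hL, ⟨f, hf, hf'⟩, hLm⟩ := hLC a.1 ha
    obtain ⟨q, hq, hqiff⟩ := hV.exists_sep (P := fun z => z.1 ∈ (⟨_, hf⟩ : V).1) (by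
      show hV.Dfn (fun v : Fin 1 → V => (v 0).1 ∈ (⟨_, hf⟩ : V).1)
      exact Dfn.mem (DT.var _) (DT.const _)) hpr
    have hqm : ∀ z, z ∈ q ↔ z ∈ ZFSet.prod omZ C ∧ z ∈ seqZ f := by
      intro z
      rw [hqiff]
      constructor
      · rintro ⟨h1, _, h2⟩
        exact ⟨h1, h2⟩
      · rintro ⟨h1, h2⟩
        exact ⟨h1, hV.mem_of_mem hf h2, h2⟩
    refine ⟨⟨q, hq⟩, (hpw' q).2 ⟨hq, fun z hz => ((hqm z).1 hz).1⟩, ?_, ?_⟩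
    · intro n x x' h1 h2
      obtain ⟨k, hk⟩ := mem_seqZ.1 ((hqm _).1 h1).2
      obtain ⟨k', hk'⟩ := mem_seqZ.1 ((hqm _).1 h2).2
      rw [ZFSet.pair_inj] at hk hk'
      have e : k = k' := natZ_inj.1 (hk.1.symm.trans hk'.1)
      apply Subtype.ext
      rw [hk.2, hk'.2, e]
    · intro x hx
      rw [hTN] at hx
      obtain ⟨n, hn⟩ := hf' x.1 ((hLm x.1).2 hx)
      refine ⟨⟨natZ n, hV.natZ_mem_N n⟩, ?_, ?_⟩
      · rw [hoN]; exact natZ_mem_omZ n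
      · refine (hqm _).2 ⟨ZFSet.pair_mem_prod.2 ⟨natZ_mem_omZ n, (hTm hx).2⟩, ?_⟩
        exact pair_mem_seqZ.2 hn.symm)
  obtain ⟨hN, hhN⟩ : ∃ z : V, z.1 = h := ⟨⟨_, hh⟩, rfl⟩
  obtain ⟨E, hE, hEiff⟩ := hV.exists_sep (P := fun z => ∃ p a n x q : V, z.1 = ZFSet.pair p.1 x.1 ∧
    p.1 = ZFSet.pair a.1 n.1 ∧ ZFSet.pair a.1 q.1 ∈ hN.1 ∧ ZFSet.pair n.1 x.1 ∈ q.1) (by
    show hV.Dfn (fun v : Fin 1 → V => ∃ p a n x q : V, (v 0).1 = ZFSet.pair p.1 x.1 ∧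
      p.1 = ZFSet.pair a.1 n.1 ∧ ZFSet.pair a.1 q.1 ∈ hN.1 ∧ ZFSet.pair n.1 x.1 ∈ q.1)
    (repeat' first
      | exact DT.var _ | exact DT.last | exact DT.const _ | assumption
      | refine Dfn.pairMem ?_ ?_ ?_ | refine Dfn.isPair ?_ ?_ ?_ | refine Dfn.mem ?_ ?_
      | refine Dfn.eqv ?_ ?_ | refine Dfn.eq ?_ ?_ | refine Dfn.subset ?_ ?_
      | refine Dfn.isEmpty ?_ | refine Dfn.isTrans ?_ | refine Dfn.isOrd ?_ | refine Dfn.isNat ?_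
      | refine Dfn.isUpair ?_ ?_ ?_ | refine Dfn.isInsert ?_ ?_ ?_
      | refine Dfn.and ?_ ?_ | refine Dfn.or ?_ ?_ | refine Dfn.iff ?_ ?_ | refine Dfn.not ?_
      | refine Dfn.imp ?_ ?_ | refine Dfn.all ?_ | refine Dfn.ex ?_ | exact Dfn.false'
      | refine Dfn.ballZ ?_ ?_ | refine Dfn.bexZ ?_ ?_ | exact Dfn.const _)
    ) (hV.prod_mem (hV.prod_mem hC hV.omZ_mem) hC)
  refine ⟨E, hE, ⟨hAp, ?_, ?_⟩⟩
  · intro a x hax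
    obtain ⟨haC, hxC⟩ := hTm hax
    obtain ⟨q, hq, haq⟩ := hhF.tot a haC
    have haV := hV.mem_of_mem hC haC
    have hxV := hV.mem_of_mem hC hxC
    have hqV := hV.mem_of_mem hpw hq
    obtain ⟨n, hn, hnx⟩ := (hhE ⟨a, haV⟩ ⟨q, hqV⟩ haq).2 ⟨x, hxV⟩ (by rw [hTN]; exact hax)
    rw [hoN] at hn
    obtain ⟨k, hk⟩ := mem_omZ.1 hn
    have h1 : ZFSet.pair a (natZ k) ∈ V := hV.pair_mem haV (hV.natZ_mem_N k)
    refine ⟨k, (hEiff _).2 ⟨?_, hV.pair_mem h1 hxV, ⟨_, h1⟩, ⟨_, haV⟩, ⟨_, hV.natZ_mem_N k⟩, ⟨x, hxV⟩,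
      ⟨q, hqV⟩, rfl, rfl, ?_, ?_⟩⟩
    · rw [ZFSet.pair_mem_prod, ZFSet.pair_mem_prod]
      exact ⟨⟨haC, natZ_mem_omZ k⟩, hxC⟩
    · rw [hhN]; exact haq
    · rw [hk] at hnx; exact hnx
  · intro p x x' h1 h2
    obtain ⟨_, _, p1, a, n, x1, q, h3, h4, h5, h6⟩ := (hEiff _).1 h1
    obtain ⟨_, _, p2, a', n', x2, q', h3', h4', h5', h6'⟩ := (hEiff _).1 h2
    rw [ZFSet.pair_inj] at h3 h3'
    rw [← h3.1] at h4
    rw [← h3'.1] at h4'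
    rw [h4, ZFSet.pair_inj] at h4'
    rw [hhN] at h5 h5'
    rw [← h4'.1] at h5'
    have e1 : q.1 = q'.1 := (hhF.ap_eq h5).symm.trans (hhF.ap_eq h5')
    rw [← e1, ← h4'.2] at h6'
    have e2 := (hhE a q h5).1 n x1 x2 h6 h6'
    rw [h3.2, h3'.2, e2]

end Pool.Agent.H95.KT
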