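import Pool.Agent.H95.KT.B0

/-!
# No branch (job KT-17)

Let `B ∈ W` be a branch. In `V` let `A` be a maximal antichain of the set of the `k ∈ R`, `k₀ ⊆ k`, that force
`x ∈ β Δ B` for some `x ∈ X` (`exists_maxac` with the property `∃ x ∈ X, k₀ ⊆ k ∧ Fd V R k β B x`, `Fd.dfn`); `A` is countable (`Ccc`).
Choose `f : A → X` with `k` forcing `f k ∈ β Δ B` (`exists_choice`); the range `Y₁ ⊆ X` of `f` is countable in `V` (`Ctb.image`),
so there is a `W`-countable `a ⊆ X`, `a ∈ W`, `Y₁ ⊆ a` (`hCov`), `a ∈ C`. By `hB` `(a, B ∩ a) ∈ T'`, so some `k ⊇ k₀` forces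
`β ∩ a = B ∩ a`. `k` is incompatible with every `k' ∈ A`: in a generic filter containing both `f k' ∈ a` is and is not in
`β Δ B`. Let `K ∋ k` be generic. `vl K β ∉ P` (`Nb`) so `vl K β ≠ B`, and `vl K β ⊆ X`, `B ⊆ X`: there is `x ∈ X` with
`x ∈ vl K β Δ B`; by `Fd.truth` and directedness some `k₁ ∈ K`, `k ⊆ k₁`, forces `x ∈ β Δ B`. By maximality `k₁` has a common
extension with some `k' ∈ A`: contradiction.
-/

set_option autoImplicit false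
set_option linter.unusedVariables false
set_option linter.unusedSectionVars false
set_option linter.unusedSimpArgs false
set_option linter.unusedTactic false
set_option linter.unreachableTactic false

namespace Pool.Agent.H95.KT

open Pool.Agent.H17.Omega Pool.Agent.H17.Omega.CTM Pool.Agent.H52.GX Pool.Agent.H52.GC Pool.Agent.H7.IG

variable {W V : Set ZFSet.{0}} {X C P R β k₀ T : ZFSet.{0}}

theorem no_branch (h : KC W V X C P R β k₀) (hCov : Cov W V) (hTV : T ∈ V) (hT : IsT V C R β k₀ T) :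
    ¬ ∃ B ∈ W, Br X C T B := by
  classical
  rintro ⟨B, hBW, hBX, hBr⟩
  have hV := h.hV
  have hXV : X ∈ V := h.sub h.hX
  have hBV : B ∈ V := h.sub hBW
  have hk₀V : k₀ ∈ V := hV.mem_of_mem h.hR h.hk
  have hRV := h.hR
  -- a maximal antichain
  obtain ⟨A, hA, hAR, hAB, hAanti, hAmax⟩ := exists_maxac hV h.hR
    (B := fun k => (⟨k₀, hk₀V⟩ : V).1 ⊆ k.1 ∧ ∃ x : V, x.1 ∈ (⟨X, hXV⟩ : V).1 ∧
      Fd V R k.1 (⟨β, h.hβ⟩ : V).1 (⟨B, hBV⟩ : V).1 x.1) (by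
      refine Dfn.and (Dfn.subset (DT.const _) (DT.var _)) (Dfn.ex ?_)
      refine Dfn.and (Dfn.mem DT.last (DT.const _)) ?_
      exact Fd.dfn h.hR ⟨β, h.hβ⟩ ⟨B, hBV⟩ (DT.var _) DT.last)
  have hAc : Ctb V A := h.ccc A hA hAR hAanti
  obtain ⟨f, hf, hfn, hf'⟩ := exists_choice hV (F := fun k x : V =>
      Fd V R k.1 (⟨β, h.hβ⟩ : V).1 (⟨B, hBV⟩ : V).1 x.1)
    (Fd.dfn h.hR ⟨β, h.hβ⟩ ⟨B, hBV⟩ (DT.var _) (DT.var _)) hA hXV
    (fun k hk => by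
      obtain ⟨_, x, hx, hkx⟩ := hAB k hk
      exact ⟨x, hx, hkx⟩)
  obtain ⟨Y, hY, hY'⟩ := hV.exists_sep (P := fun x => ∃ k : V, k.1 ∈ (⟨A, hA⟩ : V).1 ∧
      ZFSet.pair k.1 x.1 ∈ (⟨f, hf⟩ : V).1) (by
      refine Dfn.ex (Dfn.and (Dfn.mem DT.last (DT.const _)) ?_)
      exact Dfn.pairMem DT.last (DT.var _) (DT.const _)) hXV
  have hYX : Y ⊆ X := fun x hx => ((hY' x).1 hx).1
  have hYc : Ctb V Y := by
    refine Ctb.image hV hAc hA (F := fun k x => ZFSet.pair k.1 x.1 ∈ (⟨f, hf⟩ : V).1)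
      (Dfn.pairMem (DT.var _) (DT.var _) (DT.const _)) ?_ ?_
    · intro k hk x x' h1 h2
      have h3 := hfn.ap_eq h1
      have h4 := hfn.ap_eq h2
      exact Subtype.ext (h3.symm.trans h4)
    · intro x hx
      obtain ⟨h1, h2, k, hk, hkx⟩ := (hY' x).1 hx
      exact ⟨k, ⟨x, h2⟩, hk, rfl, hkx⟩
  obtain ⟨a, haW, haX, hYa, hac⟩ := hCov X h.hX Y hY hYX hYc
  have haC : a ∈ C := (h.cs a).2 ⟨haW, haX, hac⟩
  obtain ⟨a', ha', x', hx', hxa, hpair, k, hkR, hk₀k, hFi⟩ := (hT _).1 (hBr a haC)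
  rw [ZFSet.pair_inj] at hpair
  obtain ⟨rfl, rfl⟩ := hpair
  -- `k` is incompatible with all members of `A`
  have hinc : ∀ k' ∈ A, ∀ q ∈ R, k ⊆ q → ¬ k' ⊆ q := by
    intro k' hk' q hq hkq hk'q
    obtain ⟨K, hK, hqK⟩ := exists_gen hV h.hR hq
    have hkK : k ∈ K := hK.up q hqK k hkR hkq
    have hk'K : k' ∈ K := hK.up q hqK k' (hAR hk') hk'q
    obtain ⟨hxX, hxf⟩ := hfn.ap_mem hk'
    have hk'V := hV.mem_of_mem hA hk'
    have hxV := hV.mem_of_mem hXV hxX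
    have h1 := hf' ⟨k', hk'V⟩ ⟨_, hxV⟩ hxf K hK hk'K
    have h2 := hFi K hK hkK
    have hxY : ap f k' ∈ Y := (hY' _).2 ⟨hxX, hxV, ⟨k', hk'V⟩, hk', hxf⟩
    have hxa : ap f k' ∈ a := hYa hxY
    apply h1
    constructor
    · intro h3
      have h4 : ap f k' ∈ vl K β ∩ a := ZFSet.mem_inter.2 ⟨h3, hxa⟩
      rw [h2] at h4
      exact (ZFSet.mem_inter.1 h4).1
    · intro h3
      have h4 : ap f k' ∈ B ∩ a := ZFSet.mem_inter.2 ⟨h3, hxa⟩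
      rw [← h2] at h4
      exact (ZFSet.mem_inter.1 h4).1
  obtain ⟨K, hK, hkK⟩ := exists_gen hV h.hR hkR
  have hk₀K : k₀ ∈ K := hK.up k hkK k₀ h.hk hk₀k
  have hNb := h.frc K hK hk₀K
  have hne : vl K β ≠ B := by
    intro h1
    apply hNb.nmem
    rw [h1]
    exact (h.pow B).2 ⟨hBW, hBX⟩
  obtain ⟨x, hx⟩ : ∃ x, ¬ (x ∈ vl K β ↔ x ∈ B) := by
    by_contra hcon
    push Not at hcon
    exact hne (ZFSet.ext hcon)
  have hxX : x ∈ X := by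
    by_cases h1 : x ∈ B
    · exact hBX h1
    · have h2 : x ∈ vl K β := by
        by_contra h3
        exact hx ⟨fun h4 => absurd h4 h3, fun h4 => absurd h4 h1⟩
      exact hNb.sub h2
  have hxV := hV.mem_of_mem hXV hxX
  obtain ⟨p, hpK, hp⟩ := (Fd.truth hV h.hR hK h.hβ hBV hxV).1 hx
  obtain ⟨k₁, hk₁K, hkk₁, hpk₁⟩ := hK.dir k hkK p hpK
  have hk₁R := hK.sub k₁ hk₁K
  obtain ⟨k', hk', q, hq, h1, h2⟩ := hAmax ⟨k₁, hV.mem_of_mem h.hR hk₁R⟩ hk₁R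
    ⟨fun z hz => hkk₁ (hk₀k hz), ⟨x, hxV⟩, hxX, Fd.mono hp (hK.sub p hpK) hpk₁⟩
  exact hinc k' hk' q hq (fun z hz => h2 (hkk₁ hz)) h1

end Pool.Agent.H95.KT
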