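import Pool.Agent.H95.KT.B0

/-!
# No large incompatible set (job KT-17a)

Let `E ∈ V`, `E ⊆ T'`, `Inc E`. `exists_choice` in `V`: `f : E → R` with `f (a, x) = k`, `k₀ ⊆ k`, `k` forces `β ∩ a = x`. If
`(a, x) ≠ (a', x')` are in `E` then `f (a, x)`, `f (a', x')` have no common extension (`fi_inc` and `Inc`). So the range of `f` is an
antichain, hence countable (`Ccc`), and `f` is injective (the case of equal values: a condition is compatible with itself);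
`Ctb.image` for the inverse.
-/

set_option autoImplicit false
set_option linter.unusedVariables false
set_option linter.unusedSectionVars false
set_option linter.unusedSimpArgs false
set_option linter.unusedTactic false
set_option linter.unreachableTactic false

namespace Pool.Agent.H95.KT

open Pool.Agent.H17.Omega Pool.Agent.H17.Omega.CTM Pool.Agent.H52.GX Pool.Agent.H52.GC Pool.Agent.H7.IG

variable {W V : Set ZFSet.{0}} {X C P R β k₀ T : ZFSet.{0}}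

theorem no_anti (h : KC W V X C P R β k₀) (hTV : T ∈ V) (hT : IsT V C R β k₀ T) {E : ZFSet.{0}} (hE : E ∈ V)
    (hET : E ⊆ T) (hinc : Inc E) : Ctb V E := by
  have hCV : C ∈ V := h.sub h.hC
  have hkV : k₀ ∈ V := h.hV.mem_of_mem h.hR h.hk
  have hFd : h.hV.Dfn (fun v : Fin 2 → V => (⟨k₀, hkV⟩ : V).1 ⊆ (v 1).1 ∧
      ∃ a x : V, (v 0).1 = ZFSet.pair a.1 x.1 ∧ Fi V R (v 1).1 (⟨β, h.hβ⟩ : V).1 a.1 x.1) := by
    (repeat' first
        | exact DT.var _ | exact DT.last | exact DT.const _ | assumption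
        | refine Dfn.pairMem ?_ ?_ ?_ | refine Dfn.isPair ?_ ?_ ?_ | refine Dfn.mem ?_ ?_
        | refine Dfn.eqv ?_ ?_ | refine Dfn.eq ?_ ?_ | refine Dfn.subset ?_ ?_
        | refine Dfn.and ?_ ?_ | refine Dfn.or ?_ ?_ | refine Dfn.iff ?_ ?_ | refine Dfn.not ?_
        | refine Dfn.imp ?_ ?_ | refine Dfn.all ?_ | refine Dfn.ex ?_
        | refine Dfn.ballZ ?_ ?_ | refine Dfn.bexZ ?_ ?_)
    all_goals exact Fi.dfn h.hR _ (DT.var _) (DT.var _) (DT.var _)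
  obtain ⟨f, hf, hfn, hfF⟩ := exists_choice h.hV (F := fun z k : V => (⟨k₀, hkV⟩ : V).1 ⊆ k.1 ∧
      ∃ a x : V, z.1 = ZFSet.pair a.1 x.1 ∧ Fi V R k.1 (⟨β, h.hβ⟩ : V).1 a.1 x.1) hFd hE h.hR (by
    intro z hz
    obtain ⟨a, ha, x, hx, -, h2, k, hk, hk2, hF⟩ := (hT _).1 (hET hz)
    exact ⟨⟨k, h.hV.mem_of_mem h.hR hk⟩, hk, hk2, ⟨a, h.hV.mem_of_mem hCV ha⟩, ⟨x, h.hV.mem_of_mem hCV hx⟩,
      h2, hF⟩)
  have hFi : ∀ z k, z ∈ E → k ∈ R → ZFSet.pair z k ∈ f → ∃ a x, z = ZFSet.pair a x ∧ Fi V R k β a x := by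
    intro z k hz hk hzk
    obtain ⟨-, a, x, h1, h2⟩ := hfF ⟨z, h.hV.mem_of_mem hE hz⟩ ⟨k, h.hV.mem_of_mem h.hR hk⟩ hzk
    exact ⟨a.1, x.1, h1, h2⟩
  -- conditions of different nodes are incompatible
  have key : ∀ z z' k k' u, z ∈ E → z' ∈ E → k ∈ R → k' ∈ R → u ∈ R → k ⊆ u → k' ⊆ u →
      ZFSet.pair z k ∈ f → ZFSet.pair z' k' ∈ f → z = z' := by
    intro z z' k k' u hz hz' hk hk' hu hku hku' h1 h2
    obtain ⟨a, x, rfl, h3⟩ := hFi z k hz hk h1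
    obtain ⟨a', x', rfl, h4⟩ := hFi z' k' hz' hk' h2
    by_contra hcon
    refine hinc a x a' x' hz hz' ?_ (fi_inc h.hV h.hR h3 h4 hk hk' hu hku hku')
    by_contra h5
    push Not at h5
    exact hcon (by rw [h5.1, h5.2])
  obtain ⟨A, hA, hA'⟩ := h.hV.exists_sep (P := fun k : V => ∃ x ∈ (⟨E, hE⟩ : V).1,
      ZFSet.pair x k.1 ∈ (⟨f, hf⟩ : V).1)
    (Dfn.bexZ (DT.const _) (Dfn.pairMem (DT.var _) (DT.var _) (DT.const _))) h.hR
  have hAx : ∀ k, k ∈ A ↔ k ∈ R ∧ ∃ x ∈ E, ZFSet.pair x k ∈ f := by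
    intro k
    rw [hA']
    constructor
    · rintro ⟨h1, hz, h2⟩
      exact ⟨h1, h2⟩
    · rintro ⟨h1, h2⟩
      exact ⟨h1, h.hV.mem_of_mem h.hR h1, h2⟩
  have hAc : Ctb V A := by
    refine h.ccc A hA (fun k hk => ((hAx k).1 hk).1) ?_
    intro k hk k' hk' hne u hu hku hku'
    obtain ⟨hkR, z, hz, hzk⟩ := (hAx k).1 hk
    obtain ⟨hkR', z', hz', hzk'⟩ := (hAx k').1 hk'
    have h1 := key z z' k k' u hz hz' hkR hkR' hu hku hku' hzk hzk'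
    subst h1
    exact hne (hfn.uni z hz k hkR k' hkR' hzk hzk')
  refine hAc.image h.hV hA (F := fun k z : V => z.1 ∈ (⟨E, hE⟩ : V).1 ∧ ZFSet.pair z.1 k.1 ∈ (⟨f, hf⟩ : V).1)
    (Dfn.and (Dfn.mem (DT.var _) (DT.const _)) (Dfn.pairMem (DT.var _) (DT.var _) (DT.const _))) ?_ ?_
  · rintro k hk y y' ⟨h0, h1⟩ ⟨h0', h2⟩
    have hkR := ((hAx _).1 hk).1
    exact Subtype.ext (key y.1 y'.1 k.1 k.1 k.1 h0 h0' hkR hkR hkR (fun _ h => h) (fun _ h => h) h1 h2)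
  · intro z hz
    obtain ⟨k, hk, hzk⟩ := hfn.tot z hz
    exact ⟨⟨k, h.hV.mem_of_mem h.hR hk⟩, ⟨z, h.hV.mem_of_mem hE hz⟩, (hAx k).2 ⟨hk, z, hz, hzk⟩, rfl, hz, hzk⟩

end Pool.Agent.H95.KT
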