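import Pool.Agent.H95.KT.Defs

/-!
# The set of countable subsets (job KT-01)

`exists_cs`: separation (`CTM.exists_sep` with `UD.d1 ud_Ctb`) from the power set (`CTM.exists_pow`).
`IsCs.sub`: `Ctb.mono`. `IsCs.union`: `ctb_union` with `I = {∅, {∅}}` or directly: interleave the two sequences; or apply
`IsCs.dir` below to a two-element index set `{a, a'}` and `F i x := x = i`, then `a ∪ a' ⊆ u`.
`IsCs.dir` (countable directedness with choices). `exists_choice` gives `f ∈ W`, `Fn f I C`, `(i, a) ∈ f → F i a`.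
Let `u = {x ∈ X : ∃ i a, (i, a) ∈ f ∧ x ∈ a}` (`exists_sep`), `r = {(i, x) : i ∈ I, x ∈ X, ∃ a, (i, a) ∈ f ∧ x ∈ a}`; `u` is
countable by `ctb_union` (`Y := f i` for `i ∈ I`), so `u ∈ C`.
-/

set_option autoImplicit false
set_option linter.unusedVariables false
set_option linter.unusedSectionVars false
set_option linter.unusedSimpArgs false
set_option linter.unusedTactic false
set_option linter.unreachableTactic false

namespace Pool.Agent.H95.KT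

open Pool.Agent.H17.Omega Pool.Agent.H17.Omega.CTM Pool.Agent.H52.GX Pool.Agent.H52.GC Pool.Agent.H7.IG

variable {W : Set ZFSet.{0}} {X C : ZFSet.{0}}

theorem exists_cs (hW : CTM W) (hX : X ∈ W) : ∃ C ∈ W, IsCs W X C := by
  obtain ⟨p, hp, hp'⟩ := hW.exists_pow hX
  obtain ⟨C, hC, hC'⟩ := hW.exists_sep (P := fun z => Ctb W z.1)
    (UD.d1 (P := fun N x => Ctb N x.1) ud_Ctb hW (DT.var _)) hp
  refine ⟨C, hC, fun a => ?_⟩
  rw [hC', hp']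
  constructor
  · rintro ⟨⟨h1, h2⟩, h3, h4⟩
    exact ⟨h1, h2, h4⟩
  · rintro ⟨h1, h2, h3⟩
    exact ⟨⟨h1, h2⟩, h1, h3⟩

theorem IsCs.sub (hCs : IsCs W X C) {a x : ZFSet.{0}} (ha : a ∈ C) (hx : x ∈ W) (h : x ⊆ a) : x ∈ C := by
  obtain ⟨h1, h2, h3⟩ := (hCs a).1 ha
  exact (hCs x).2 ⟨hx, fun z hz => h2 (h hz), h3.mono h⟩

theorem IsCs.dir (hW : CTM W) (hX : X ∈ W) (hC : C ∈ W) (hCs : IsCs W X C) {I : ZFSet.{0}} (hI : I ∈ W)
    (hIc : Ctb W I) {F : W → W → Prop} (hF : hW.Dfn (fun v : Fin 2 → W => F (v 0) (v 1)))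
    (h : ∀ i : W, i.1 ∈ I → ∃ a : W, a.1 ∈ C ∧ F i a) :
    ∃ u ∈ C, ∀ i : W, i.1 ∈ I → ∃ a : W, a.1 ∈ C ∧ F i a ∧ a.1 ⊆ u := by
  obtain ⟨f, hf, hfn, hfF⟩ := exists_choice hW hF hI hC h
  have hD : hW.Dfn (fun v : Fin 2 → W => ∃ a : W, ZFSet.pair (v 0).1 a.1 ∈ (⟨f, hf⟩ : W).1 ∧
      (v 1).1 ∈ a.1) := by
    (repeat' first
        | exact DT.var _ | exact DT.last | exact DT.const _ | assumption
        | refine Dfn.pairMem ?_ ?_ ?_ | refine Dfn.isPair ?_ ?_ ?_ | refine Dfn.mem ?_ ?_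
        | refine Dfn.eqv ?_ ?_ | refine Dfn.eq ?_ ?_ | refine Dfn.subset ?_ ?_
        | refine Dfn.isEmpty ?_ | refine Dfn.isTrans ?_ | refine Dfn.isOrd ?_
        | refine Dfn.isNat ?_ | refine Dfn.and ?_ ?_ | refine Dfn.or ?_ ?_ | refine Dfn.iff ?_ ?_
        | refine Dfn.not ?_ | refine Dfn.imp ?_ ?_ | refine Dfn.all ?_ | refine Dfn.ex ?_
        | exact Dfn.false')
  obtain ⟨u, hu, hu'⟩ := hW.exists_sep (P := fun z => ∃ i a : W,
    ZFSet.pair i.1 a.1 ∈ (⟨f, hf⟩ : W).1 ∧ z.1 ∈ a.1) (by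
    (repeat' first
        | exact DT.var _ | exact DT.last | exact DT.const _ | assumption
        | refine Dfn.pairMem ?_ ?_ ?_ | refine Dfn.isPair ?_ ?_ ?_ | refine Dfn.mem ?_ ?_
        | refine Dfn.eqv ?_ ?_ | refine Dfn.eq ?_ ?_ | refine Dfn.subset ?_ ?_
        | refine Dfn.isEmpty ?_ | refine Dfn.isTrans ?_ | refine Dfn.isOrd ?_
        | refine Dfn.isNat ?_ | refine Dfn.and ?_ ?_ | refine Dfn.or ?_ ?_ | refine Dfn.iff ?_ ?_
        | refine Dfn.not ?_ | refine Dfn.imp ?_ ?_ | refine Dfn.all ?_ | refine Dfn.ex ?_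
        | exact Dfn.false')) hX
  have huX : u ⊆ X := fun z hz => ((hu' z).1 hz).1
  have huC : u ∈ C := by
    refine (hCs u).2 ⟨hu, huX, ?_⟩
    refine tk7_union hW (F := fun i x => ∃ a : W, ZFSet.pair i.1 a.1 ∈ (⟨f, hf⟩ : W).1 ∧ x.1 ∈ a.1)
      hD hI hu hIc ?_ ?_
    · intro i hi
      obtain ⟨a, ha, hia⟩ := hfn.tot i.1 hi
      obtain ⟨h1, h2, h3⟩ := (hCs a).1 ha
      refine ⟨a, h1, h3, ?_⟩
      rintro x hx ⟨b, hb1, hb2⟩
      obtain ⟨i', hi', b', hb', e⟩ := hfn.sub _ hb1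
      rw [ZFSet.pair_inj] at e
      have hbC : b.1 ∈ C := by rw [e.2]; exact hb'
      have := hfn.uni i.1 hi b.1 hbC a ha hb1 hia
      rw [← this]
      exact hb2
    · intro x hx
      obtain ⟨_, _, i, a, h1, h2⟩ := (hu' _).1 hx
      obtain ⟨i', hi', b', hb', e⟩ := hfn.sub _ h1
      rw [ZFSet.pair_inj] at e
      exact ⟨i, by rw [e.1]; exact hi', a, h1, h2⟩
  refine ⟨u, huC, fun i hi => ?_⟩
  obtain ⟨a, ha, hia⟩ := hfn.tot i.1 hi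
  obtain ⟨h1, h2, h3⟩ := (hCs a).1 ha
  refine ⟨⟨a, h1⟩, ha, hfF i ⟨a, h1⟩ hia, fun z hz => ?_⟩
  exact (hu' z).2 ⟨h2 hz, hW.mem_of_mem h1 hz, i, ⟨a, h1⟩, hia, hz⟩

theorem IsCs.union (hW : CTM W) (hX : X ∈ W) (hC : C ∈ W) (hCs : IsCs W X C) {a a' : ZFSet.{0}}
    (ha : a ∈ C) (ha' : a' ∈ C) : a ∪ a' ∈ C := by
  obtain ⟨h1, h2, h3⟩ := (hCs a).1 ha
  obtain ⟨h1', h2', h3'⟩ := (hCs a').1 ha'
  refine (hCs _).2 ⟨hW.union_mem h1 h1', fun z hz => ?_, tk7_union2 hW h1 h1' h3 h3'⟩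
  rw [ZFSet.mem_union] at hz
  rcases hz with hz | hz
  · exact h2 hz
  · exact h2' hz

end Pool.Agent.H95.KT
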