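import Pool.Agent.H95.KT.R3
import Pool.Agent.H95.KT.A1

/-!
# The residue argument, conclusion (job KT-15)

`T' = vl G τ`, `E = vl G ε`, `τ, ε ∈ W` (definition of `Xt`). `PrT.forced` gives `s₀ ∈ G`; `exists_cod`, `hullR` give `s ∈ G`, `Z`.
`a* = Z ∩ μ ∈ C` (`CTM` intersections: `sep`; `Ctb.mono`). By `Ap.ne` there is `x` with `(a*, x) ∈ T'`; `Fm.truth` and
directedness: `s' ∈ G`, `s ⊆ s'`, forces it. `HR.sg`: `r ∈ Z ∩ S`, `s₀ ⊆ r ⊆ s'`; `r ∈ G` (`Gen.up`).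
`T = {z ∈ C × C : r` forces `z ∈ τ}` (`exists_sep`, `Fm.dfn`). `T ⊆ T'` as `r ∈ G`. `Ap.sub`: from `T ⊆ T'`. `Ap.res`: if `r` forces
`(a, x) ∈ τ` then `r` forces `(a', x ∩ a') ∈ τ` since every generic `G' ∋ r` contains `s₀` (`PrT.ap`), and `x ∩ a' ∈ C`.
`Ap.ne`: suppose some `a ∈ C` has no `x ∈ C` with `r` forcing `(a, x) ∈ τ`. By `HR.c4` there are `ξ ∈ Z`, `(ξ, a') ∈ c` with the same
property; `a' ⊆ Z` (`HR.c0`) and `a' ⊆ μ` so `a' ⊆ a*`; `res_force` gives that `r` forces `(a', x ∩ a') ∈ τ`; contradiction.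
-/

set_option autoImplicit false
set_option linter.unusedVariables false
set_option linter.unusedSectionVars false
set_option linter.unusedSimpArgs false
set_option linter.unusedTactic false
set_option linter.unreachableTactic false

namespace Pool.Agent.H95.KT

open Pool.Agent.H17.Omega Pool.Agent.H17.Omega.CTM Pool.Agent.H52.GX Pool.Agent.H52.GC Pool.Agent.H7.IG

variable {M W : Set ZFSet.{0}} {S G : ZFSet.{0}}

theorem res_main (hM : CTM M) (hW : CTM W) (hMW : M ⊆ W)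
    (hord : ∀ o : Ordinal.{0}, o.toZFSet ∈ W → o.toZFSet ∈ M) (hS : S ∈ W) (hSM : ∃ K ∈ M, S ⊆ K)
    (hSPR : SPR M W S) (hG : Gen W S G) {μ : Ordinal.{0}} (hμ : μ.toZFSet ∈ W) {C : ZFSet.{0}} (hC : C ∈ W)
    (hCs : IsCs W μ.toZFSet C) {T' E : ZFSet.{0}} (hT' : T' ∈ Xt W G) (hE : E ∈ Xt W G) (hPr : PrT C T' E) :
    ∃ T ∈ W, T ⊆ T' ∧ Ap C T := by
  obtain ⟨τ, hτ, rfl⟩ := hT'
  obtain ⟨ε, hε, rfl⟩ := hE
  obtain ⟨s₀, hs₀G, hPr'⟩ := PrT.forced hW hS hG hC hτ hε hPr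
  obtain ⟨l, c, h, hcod⟩ := exists_cod hW hμ hC hCs
  obtain ⟨s, hsG, hs₀s, Z, hHR⟩ := hullR hM hW hMW hord hS hSM hSPR hG hμ hC hCs hcod hτ hε hs₀G
  have hs₀ := hG.sub _ hs₀G
  have hs := hG.sub _ hsG
  have hsubC : ∀ {a x : ZFSet.{0}}, ZFSet.pair a x ∈ vl G τ → x ∈ C := by
    intro a x hax
    obtain ⟨_, _, y, hy, _, h3⟩ := hPr.ap.sub _ hax
    rw [ZFSet.pair_inj] at h3
    exact h3.2 ▸ hy
  have hcC : ∀ {ξ a : ZFSet.{0}}, ZFSet.pair ξ a ∈ c → a ∈ C := by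
    intro ξ a h
    obtain ⟨_, _, y, hy, h2⟩ := hcod.onto.1.sub _ h
    rw [ZFSet.pair_inj] at h2
    exact h2.2 ▸ hy
  obtain ⟨A, hA, hA'⟩ := hW.exists_sep (P := fun z => z.1 ∈ (⟨Z, hHR.mem⟩ : W).1)
    (Dfn.mem (DT.var _) (DT.const _)) hμ
  have hAC : A ∈ C := by
    refine (hCs A).2 ⟨hA, fun z hz => ((hA' z).1 hz).1, hHR.ctb.mono fun z hz => ?_⟩
    obtain ⟨_, _, h1⟩ := (hA' z).1 hz
    exact h1
  obtain ⟨x, hx⟩ := hPr.ap.ne A hAC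
  obtain ⟨p, hp, hFp⟩ := (Fm.truth hW hS hG hτ
    (hW.pair_mem hA (hW.mem_of_mem hC (hsubC hx)))).1 hx
  obtain ⟨s', hs'G, hss', hps'⟩ := hG.dir s hsG p hp
  have hs' := hG.sub _ hs'G
  have hFs' := hFp.mono (hG.sub _ hp) hps'
  obtain ⟨r, hrZ, hrS, hs₀r, hrs', hres⟩ := hHR.sg s' hs' hss'
  have hrG := hG.up s' hs'G r hrS hrs'
  have hrW : r ∈ W := hW.mem_of_mem hS hrS
  obtain ⟨T, hT, hT'⟩ := hW.exists_sep (P := fun z => Fm W S (⟨r, hrW⟩ : W).1 (⟨τ, hτ⟩ : W).1 z.1)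
    (Fm.dfn hS ⟨τ, hτ⟩ (DT.const _) (DT.var _)) (hW.prod_mem hC hC)
  have hTm : ∀ a x, ZFSet.pair a x ∈ T ↔ a ∈ C ∧ x ∈ C ∧ Fm W S r τ (ZFSet.pair a x) := by
    intro a x
    rw [hT', ZFSet.pair_mem_prod]
    constructor
    · rintro ⟨⟨h1, h2⟩, _, h3⟩
      exact ⟨h1, h2, h3⟩
    · rintro ⟨h1, h2, h3⟩
      exact ⟨⟨h1, h2⟩, hW.pair_mem (hW.mem_of_mem hC h1) (hW.mem_of_mem hC h2), h3⟩
  have hTG : ∀ z ∈ T, z ∈ vl G τ := by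
    intro z hz
    obtain ⟨_, _, h⟩ := (hT' z).1 hz
    exact h G hG hrG
  refine ⟨T, hT, hTG, fun z hz => hPr.ap.sub z (hTG z hz), ?_, ?_⟩
  · intro a x hax a' ha' haa'
    have hF := ((hTm a x).1 hax).2.2
    have key : Fm W S r τ (ZFSet.pair a' (x ∩ a')) := fun G' hG' hr' =>
      (hPr' G' hG' (hG'.up r hr' s₀ hs₀ hs₀r)).ap.res a x (hF G' hG' hr') a' ha' haa'
    exact (hTm _ _).2 ⟨ha', hsubC (key G hG hrG), key⟩
  · intro a ha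
    by_contra hcon
    push Not at hcon
    have h1 : ∀ x ∈ C, ¬ Fm W S r τ (ZFSet.pair a x) := fun x hx hF =>
      hcon x ((hTm a x).2 ⟨ha, hx, hF⟩)
    obtain ⟨ξ, hξ, a', hξa', h2⟩ := hHR.c4 r hrZ ⟨a, ha, h1⟩
    have ha'C : a' ∈ C := hcC hξa'
    have ha'A : a' ⊆ A := fun z hz => (hA' z).2 ⟨((hCs a').1 ha'C).2.1 hz,
      hW.mem_of_mem (hW.mem_of_mem hC ha'C) hz, hHR.c0 ξ hξ a' hξa' hz⟩
    have h3 := res_force hW hS hC hCs hcod hτ hε hHR hs₀ hs hs₀s hPr' hs' hss' hFs' hξ hξa' ha'A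
      hrZ hrS hs₀r hres
    exact h2 _ (hsubC (h3 G hG hrG)) h3

end Pool.Agent.H95.KT
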