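import Pool.Agent.H95.KT.Tree
import Pool.Agent.H95.KT.R4
import Pool.Agent.H95.KT.B1
import Pool.Agent.H95.KT.B1c
import Pool.Agent.H95.KT.B1e
import Pool.Agent.H95.KT.B2
import Pool.Agent.H95.KT.B3
import Pool.Agent.H95.KT.Cov

/-!
# The key theorem
-/

set_option autoImplicit false
set_option linter.unusedVariables false
set_option linter.unusedSectionVars false
set_option linter.unusedSimpArgs false
set_option linter.unusedTactic false
set_option linter.unreachableTactic false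

namespace Pool.Agent.H95.KT

open Pool.Agent.H17.Omega Pool.Agent.H17.Omega.CTM Pool.Agent.H52.GX Pool.Agent.H52.GC Pool.Agent.H7.IG

variable {M W : Set ZFSet.{0}} {S G : ZFSet.{0}}

theorem key {δ : Ordinal.{0}} (hM : CTM M) (hW : CTM W) (hMW : M ⊆ W)
    (hord : ∀ o : Ordinal.{0}, o.toZFSet ∈ W → o.toZFSet ∈ M) (hδ : IsOm1 W δ) (hSP : SP W δ)
    (hS : S ∈ W) (hSM : ∃ K ∈ M, S ⊆ K) (hSPR : SPR M W S) (hG : Gen W S G) {R K : ZFSet.{0}}
    (hR : R ∈ Xt W G) (hccc : Ccc (Xt W G) R) (hK : Gen (Xt W G) R K) : AP W (Xt (Xt W G) K) := by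
  intro μ hμ b hb hbμ hcap
  by_contra hbW
  have hV : CTM (Xt W G) := hG.ctm hW hS
  have hWV : W ⊆ Xt W G := hG.sub_xt hW hS
  have hCov : Cov W (Xt W G) := cov hM hW hMW hord hS hSM hSPR hG
  obtain ⟨C, hC, hCs⟩ := exists_cs hW hμ
  obtain ⟨P, hP, hP'⟩ := hW.exists_pow hμ
  obtain ⟨β, hβ, rfl⟩ := hb
  have hNb : Nb μ.toZFSet C P (vl K β) := by
    refine ⟨hbμ, fun h => hbW ((hP' _).1 h).1, fun a ha => ?_⟩
    obtain ⟨haW, haμ, hac⟩ := (hCs a).1 ha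
    exact hCs.sub ha (hcap a haW haμ hac) fun z hz => (ZFSet.mem_inter.1 hz).2
  obtain ⟨k₀, hk₀, hfrc⟩ := Nb.forced hV hR hK (hWV hμ) (hWV hC) (hWV hP) hβ hNb
  have hKC : KC W (Xt W G) μ.toZFSet C P R β k₀ :=
    ⟨hW, hV, hWV, hμ, hC, hP, hCs, hP', hR, hβ, hK.sub _ hk₀, hfrc, hccc⟩
  obtain ⟨T', hT'V, hT'⟩ := exists_T hKC
  have hAp' := T_ap hKC hT'
  have hLC' := T_ctb hKC hT'V hT'
  obtain ⟨E, hE, hPr⟩ := exists_E hV (hWV hC) hT'V hAp' hLC'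
  obtain ⟨T, hT, hTT, hAp⟩ := res_main hM hW hMW hord hS hSM hSPR hG hμ hC hCs hT'V hE hPr
  have hLC : LC W C T := by
    intro a ha
    obtain ⟨L, hL, hLc, hLx⟩ := hLC' a ha
    have haW : a ∈ W := ((hCs a).1 ha).1
    obtain ⟨L', hL', hL''⟩ := hW.exists_sep
      (P := fun x => ZFSet.pair (⟨a, haW⟩ : W).1 x.1 ∈ (⟨T, hT⟩ : W).1)
      (Dfn.pairMem (DT.const _) (DT.var _) (DT.const _)) hC
    have hx : ∀ x, x ∈ L' ↔ ZFSet.pair a x ∈ T := by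
      intro x
      rw [hL'']
      constructor
      · rintro ⟨_, _, h⟩
        exact h
      · intro h
        obtain ⟨a', _, x', hx', _, h2⟩ := hAp.sub _ h
        rw [ZFSet.pair_inj] at h2
        obtain ⟨rfl, rfl⟩ := h2
        exact ⟨hx', hW.mem_of_mem hC hx', h⟩
    refine ⟨L', hL', hCov.ctb hWV hL' (hLc.mono fun x h => (hLx x).2 (hTT ((hx x).1 h))), hx⟩
  rcases tree hW hδ hSP hμ hC hCs hT hAp hLC with ⟨B, hB, hBr⟩ | ⟨E', hE', hE's, hInc, hunc⟩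
  · exact no_branch hKC hCov hT'V hT' ⟨B, hB, hBr.1, fun a ha => hTT (hBr.2 a ha)⟩
  · exact hunc (hCov.ctb hWV hE' (no_anti hKC hT'V hT' (hWV hE') (fun z hz => hTT (hE's hz)) hInc))

end Pool.Agent.H95.KT
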