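import Pool.Agent.H95.KT.A1

/-!
# Pruning (job KT-02)

`T₁ = {(a, x) ∈ T : ∀ a' ∈ C, a ⊆ a' → ∃ x', (a', x') ∈ T ∧ x' ∩ a = x}` (separation).

KEY STEP (bad points are killed by one level): let `a ∈ C`, `a ⊆ a₁ ∈ C` and let `L` be the (countable) level of `a₁`. Let
`I = {x ∈ L : (a₁, x) ∉ T₁}`. For `x ∈ I` there is `a' ∈ C`, `a₁ ⊆ a'`, such that no `x'` has `(a', x') ∈ T`, `x' ∩ a₁ = x`. By
`IsCs.dir` there is `u ∈ C` above such `a'_x`, and `u₁ = u ∪ a₁ ∈ C`. Then for every `x' ` with `(u₁, x') ∈ T`: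
`(a₁, x' ∩ a₁) ∈ T₁`: it is in `T` (restriction), and if it were in `I` for `x = x' ∩ a₁` then `x' ∩ a'_x` is a point of the
level `a'_x` (restriction) with `(x' ∩ a'_x) ∩ a₁ = x`: contradiction.

`ExtP`: `(a, x) ∈ T₁`, `a ⊆ a₁`; `u₁` as above; by the definition of `T₁` there is `x'` with `(u₁, x') ∈ T`, `x' ∩ a = x`; then
`(a₁, x' ∩ a₁) ∈ T₁` and `(x' ∩ a₁) ∩ a = x`. `Ap.ne`: `u₁` for `a₁ = a`, `x'` from `Ap.ne` of `T` at `u₁`. `Ap.res`: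
`(a, x) ∈ T₁`, `a' ⊆ a`, `a' ⊆ a''`: take `a ∪ a''` and `x''` with `x'' ∩ a = x`, then `x'' ∩ a''` (restriction) has
`(x'' ∩ a'') ∩ a' = x ∩ a'`. `LC`: sublevels of countable levels (separation, `Ctb.mono`).
-/

set_option autoImplicit false
set_option linter.unusedVariables false
set_option linter.unusedSectionVars false
set_option linter.unusedSimpArgs false
set_option linter.unusedTactic false
set_option linter.unreachableTactic false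

namespace Pool.Agent.H95.KT

open Pool.Agent.H17.Omega Pool.Agent.H17.Omega.CTM Pool.Agent.H52.GX Pool.Agent.H52.GC Pool.Agent.H7.IG

variable {W : Set ZFSet.{0}} {X C T : ZFSet.{0}}

/-- `x' ∩ a = x`, in `W` -/
theorem a2_inter (hW : CTM W) (x' a x : W) :
    (∀ y : W, y.1 ∈ x.1 ↔ (y.1 ∈ x'.1 ∧ y.1 ∈ a.1)) ↔ x'.1 ∩ a.1 = x.1 := by
  constructor
  · intro h
    ext y
    rw [ZFSet.mem_inter]
    constructor
    · intro hy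
      exact (h ⟨y, hW.mem_of_mem x'.2 hy.1⟩).2 hy
    · intro hy
      exact (h ⟨y, hW.mem_of_mem x.2 hy⟩).1 hy
  · intro h y
    rw [← h, ZFSet.mem_inter]

theorem prune (hW : CTM W) (hX : X ∈ W) (hC : C ∈ W) (hCs : IsCs W X C) (hT : T ∈ W) (hAp : Ap C T)
    (hLC : LC W C T) : ∃ T₁ ∈ W, T₁ ⊆ T ∧ Ap C T₁ ∧ LC W C T₁ ∧ ExtP C T₁ := by
  obtain ⟨T₁, hT₁, hT₁'⟩ := hW.exists_sep (P := fun z => ∃ a x : W, z.1 = ZFSet.pair a.1 x.1 ∧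
    ∀ a' : W, a'.1 ∈ (⟨C, hC⟩ : W).1 → a.1 ⊆ a'.1 → ∃ x' : W, ZFSet.pair a'.1 x'.1 ∈ (⟨T, hT⟩ : W).1 ∧
      ∀ y : W, y.1 ∈ x.1 ↔ (y.1 ∈ x'.1 ∧ y.1 ∈ a.1)) (by
    (repeat' first
        | exact DT.var _ | exact DT.last | exact DT.const _ | assumption
        | refine Dfn.pairMem ?_ ?_ ?_ | refine Dfn.isPair ?_ ?_ ?_ | refine Dfn.mem ?_ ?_
        | refine Dfn.eqv ?_ ?_ | refine Dfn.eq ?_ ?_ | refine Dfn.subset ?_ ?_
        | refine Dfn.isEmpty ?_ | refine Dfn.isTrans ?_ | refine Dfn.isOrd ?_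
        | refine Dfn.isNat ?_ | refine Dfn.and ?_ ?_ | refine Dfn.or ?_ ?_ | refine Dfn.iff ?_ ?_
        | refine Dfn.not ?_ | refine Dfn.imp ?_ ?_ | refine Dfn.all ?_ | refine Dfn.ex ?_
        | exact Dfn.false')) hT
  have hCW : ∀ a ∈ C, a ∈ W := fun a ha => hW.mem_of_mem hC ha
  have hTW : ∀ a x, ZFSet.pair a x ∈ T → a ∈ W ∧ x ∈ W := fun a x h =>
    hW.of_pair_mem (hW.mem_of_mem hT h)
  have hm : ∀ a x, ZFSet.pair a x ∈ T₁ ↔ ZFSet.pair a x ∈ T ∧ ∀ a' ∈ C, a ⊆ a' →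
      ∃ x', ZFSet.pair a' x' ∈ T ∧ x' ∩ a = x := by
    intro a x
    rw [hT₁']
    constructor
    · rintro ⟨h1, h2, b, y, h3, h4⟩
      have h3 : ZFSet.pair a x = ZFSet.pair b.1 y.1 := h3
      rw [ZFSet.pair_inj] at h3
      obtain ⟨rfl, rfl⟩ := h3
      refine ⟨h1, fun a' ha' haa' => ?_⟩
      obtain ⟨x', hx', h5⟩ := h4 ⟨a', hCW a' ha'⟩ ha' haa'
      exact ⟨x'.1, hx', (a2_inter hW x' b y).1 h5⟩
    · rintro ⟨h1, h2⟩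
      obtain ⟨haW, hxW⟩ := hTW a x h1
      refine ⟨h1, hW.pair_mem haW hxW, ⟨a, haW⟩, ⟨x, hxW⟩, rfl, fun a' ha' haa' => ?_⟩
      obtain ⟨x', hx', h5⟩ := h2 a'.1 ha' haa'
      exact ⟨⟨x', (hTW _ _ hx').2⟩, hx', (a2_inter hW ⟨x', (hTW _ _ hx').2⟩ ⟨a, haW⟩ ⟨x, hxW⟩).2 h5⟩
  have hsub : T₁ ⊆ T := fun z hz => ((hT₁' z).1 hz).1
  -- the key step
  have key : ∀ a₁ ∈ C, ∃ u₁ ∈ C, a₁ ⊆ u₁ ∧ ∀ x', ZFSet.pair u₁ x' ∈ T →
      ZFSet.pair a₁ (x' ∩ a₁) ∈ T₁ := by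
    intro a₁ ha₁
    obtain ⟨L, hL, hLc, hL'⟩ := hLC a₁ ha₁
    have ha₁W := hCW a₁ ha₁
    obtain ⟨I, hI, hI'⟩ := hW.exists_sep (P := fun x => ¬ ZFSet.pair (⟨a₁, ha₁W⟩ : W).1 x.1 ∈
      (⟨T₁, hT₁⟩ : W).1) (by
      (repeat' first
        | exact DT.var _ | exact DT.last | exact DT.const _ | assumption
        | refine Dfn.pairMem ?_ ?_ ?_ | refine Dfn.isPair ?_ ?_ ?_ | refine Dfn.mem ?_ ?_
        | refine Dfn.eqv ?_ ?_ | refine Dfn.eq ?_ ?_ | refine Dfn.subset ?_ ?_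
        | refine Dfn.isEmpty ?_ | refine Dfn.isTrans ?_ | refine Dfn.isOrd ?_
        | refine Dfn.isNat ?_ | refine Dfn.and ?_ ?_ | refine Dfn.or ?_ ?_ | refine Dfn.iff ?_ ?_
        | refine Dfn.not ?_ | refine Dfn.imp ?_ ?_ | refine Dfn.all ?_ | refine Dfn.ex ?_
        | exact Dfn.false')) hL
    have hIL : I ⊆ L := fun z hz => ((hI' z).1 hz).1
    obtain ⟨u, hu, hu'⟩ := IsCs.dir hW hX hC hCs hI (hLc.mono hIL)
      (F := fun i a => (⟨a₁, ha₁W⟩ : W).1 ⊆ a.1 ∧ ∀ x' : W, ZFSet.pair a.1 x'.1 ∈ (⟨T, hT⟩ : W).1 →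
        ¬ ∀ y : W, y.1 ∈ i.1 ↔ (y.1 ∈ x'.1 ∧ y.1 ∈ (⟨a₁, ha₁W⟩ : W).1)) (by
      (repeat' first
        | exact DT.var _ | exact DT.last | exact DT.const _ | assumption
        | refine Dfn.pairMem ?_ ?_ ?_ | refine Dfn.isPair ?_ ?_ ?_ | refine Dfn.mem ?_ ?_
        | refine Dfn.eqv ?_ ?_ | refine Dfn.eq ?_ ?_ | refine Dfn.subset ?_ ?_
        | refine Dfn.isEmpty ?_ | refine Dfn.isTrans ?_ | refine Dfn.isOrd ?_
        | refine Dfn.isNat ?_ | refine Dfn.and ?_ ?_ | refine Dfn.or ?_ ?_ | refine Dfn.iff ?_ ?_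
        | refine Dfn.not ?_ | refine Dfn.imp ?_ ?_ | refine Dfn.all ?_ | refine Dfn.ex ?_
        | exact Dfn.false')) (by
      intro i hi
      obtain ⟨hiL, hiW, hi1⟩ := (hI' _).1 hi
      have h1 : ZFSet.pair a₁ i.1 ∈ T := (hL' _).1 hiL
      have h2 : ¬ ZFSet.pair a₁ i.1 ∈ T₁ := hi1
      rw [hm] at h2
      by_contra hcon
      push Not at hcon
      apply h2
      refine ⟨h1, fun a' ha' haa' => ?_⟩
      obtain ⟨x', hx', h5⟩ := hcon ⟨a', hCW a' ha'⟩ ha' haa'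
      exact ⟨x'.1, hx', (a2_inter hW x' ⟨a₁, ha₁W⟩ i).1 h5⟩)
    refine ⟨u ∪ a₁, IsCs.union hW hX hC hCs hu ha₁, fun z hz => ?_, ?_⟩
    · rw [ZFSet.mem_union]
      exact Or.inr hz
    intro x' hx'
    have ha₁u : a₁ ⊆ u ∪ a₁ := fun z hz => by rw [ZFSet.mem_union]; exact Or.inr hz
    have h1 : ZFSet.pair a₁ (x' ∩ a₁) ∈ T := hAp.res _ _ hx' a₁ ha₁ ha₁u
    by_contra hcon
    have hiW : x' ∩ a₁ ∈ W := (hTW _ _ h1).2
    have hiI : x' ∩ a₁ ∈ I := (hI' _).2 ⟨(hL' _).2 h1, hiW, hcon⟩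
    obtain ⟨a, haC, ⟨haa, hax⟩, hau⟩ := hu' ⟨x' ∩ a₁, hiW⟩ hiI
    have hau' : a.1 ⊆ u ∪ a₁ := fun z hz => by rw [ZFSet.mem_union]; exact Or.inl (hau hz)
    have h2 : ZFSet.pair a.1 (x' ∩ a.1) ∈ T := hAp.res _ _ hx' a.1 haC hau'
    have hxW : x' ∩ a.1 ∈ W := (hTW _ _ h2).2
    refine hax ⟨x' ∩ a.1, hxW⟩ h2 ((a2_inter hW ⟨x' ∩ a.1, hxW⟩ ⟨a₁, ha₁W⟩ ⟨x' ∩ a₁, hiW⟩).2 ?_)
    show (x' ∩ a.1) ∩ a₁ = x' ∩ a₁
    ext z
    simp only [ZFSet.mem_inter]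
    constructor
    · rintro ⟨⟨h3, h4⟩, h5⟩
      exact ⟨h3, h5⟩
    · rintro ⟨h3, h5⟩
      exact ⟨⟨h3, haa h5⟩, h5⟩
  refine ⟨T₁, hT₁, hsub, ⟨fun z hz => hAp.sub z (hsub hz), ?_, ?_⟩, ?_, ?_⟩
  · -- restriction
    intro a x hax a' ha' haa'
    rw [hm] at hax ⊢
    obtain ⟨haT, hext⟩ := hax
    refine ⟨hAp.res _ _ haT a' ha' haa', fun a'' ha'' h3 => ?_⟩
    obtain ⟨a0, ha0, x0, hx0, hx0a, e⟩ := hAp.sub _ haT
    rw [ZFSet.pair_inj] at e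
    have haC : a ∈ C := by rw [e.1]; exact ha0
    obtain ⟨x'', hx'', h4⟩ := hext (a ∪ a'') (IsCs.union hW hX hC hCs haC ha'')
      (fun z hz => by rw [ZFSet.mem_union]; exact Or.inl hz)
    refine ⟨x'' ∩ a'', hAp.res _ _ hx'' a'' ha'' (fun z hz => by
      rw [ZFSet.mem_union]; exact Or.inr hz), ?_⟩
    rw [← h4]
    ext z
    simp only [ZFSet.mem_inter]
    constructor
    · rintro ⟨⟨h5, h6⟩, h7⟩
      exact ⟨⟨h5, haa' h7⟩, h7⟩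
    · rintro ⟨⟨h5, h6⟩, h7⟩
      exact ⟨⟨h5, h3 h7⟩, h7⟩
  · -- nonempty levels
    intro a ha
    obtain ⟨u₁, hu₁, hau, hk⟩ := key a ha
    obtain ⟨x', hx'⟩ := hAp.ne u₁ hu₁
    exact ⟨_, hk x' hx'⟩
  · -- countable levels
    intro a ha
    obtain ⟨L, hL, hLc, hL'⟩ := hLC a ha
    obtain ⟨L₁, hL₁, hL₁'⟩ := hW.exists_sep (P := fun x => ZFSet.pair (⟨a, hCW a ha⟩ : W).1 x.1 ∈
      (⟨T₁, hT₁⟩ : W).1) (by
      (repeat' first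
        | exact DT.var _ | exact DT.last | exact DT.const _ | assumption
        | refine Dfn.pairMem ?_ ?_ ?_ | refine Dfn.isPair ?_ ?_ ?_ | refine Dfn.mem ?_ ?_
        | refine Dfn.eqv ?_ ?_ | refine Dfn.eq ?_ ?_ | refine Dfn.subset ?_ ?_
        | refine Dfn.isEmpty ?_ | refine Dfn.isTrans ?_ | refine Dfn.isOrd ?_
        | refine Dfn.isNat ?_ | refine Dfn.and ?_ ?_ | refine Dfn.or ?_ ?_ | refine Dfn.iff ?_ ?_
        | refine Dfn.not ?_ | refine Dfn.imp ?_ ?_ | refine Dfn.all ?_ | refine Dfn.ex ?_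
        | exact Dfn.false')) hL
    refine ⟨L₁, hL₁, hLc.mono (fun z hz => ((hL₁' z).1 hz).1), fun x => ?_⟩
    rw [hL₁']
    constructor
    · rintro ⟨_, _, h⟩
      exact h
    · intro h
      exact ⟨(hL' _).2 (hsub h), (hTW _ _ (hsub h)).2, h⟩
  · -- extensions
    intro a x hax a' ha' haa'
    obtain ⟨u₁, hu₁, hau, hk⟩ := key a' ha'
    obtain ⟨x', hx', h4⟩ := ((hm _ _).1 hax).2 u₁ hu₁ (fun z hz => hau (haa' hz))
    refine ⟨x' ∩ a', hk x' hx', ?_⟩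
    rw [← h4]
    ext z
    simp only [ZFSet.mem_inter]
    constructor
    · rintro ⟨⟨h5, h6⟩, h7⟩
      exact ⟨h5, h7⟩
    · rintro ⟨h5, h7⟩
      exact ⟨⟨h5, haa' h7⟩, h7⟩

end Pool.Agent.H95.KT
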