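import Pool.Agent.H95.KT.A1

/-!
# Unique extensions give a branch (job KT-03)

`B = {ξ ∈ X : ∃ a ∈ C, ∃ x, a₀ ⊆ a ∧ (a, x) ∈ T ∧ x ∩ a₀ = x₀ ∧ ξ ∈ x}` (separation). For `a ∈ C`, `a₀ ⊆ a`, let
`x_a` be the unique extension of `x₀` in level `a` (`ExtP`). If `a₀ ⊆ a ⊆ a'` then `x_{a'} ∩ a = x_a` (restriction and
uniqueness). So `B ∩ a = x_a` for `a ∈ C`, `a₀ ⊆ a`: if `ξ ∈ B ∩ a`, `ξ ∈ x` with `(a', x) ∈ T`, `x = x_{a'}`, then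
`ξ ∈ x_{a ∪ a'}` (`x_{a ∪ a'} ∩ a' = x_{a'}`) and `ξ ∈ x_{a ∪ a'} ∩ a = x_a`. For general `a ∈ C`: `a ∪ a₀ ∈ C`,
`(a ∪ a₀, B ∩ (a ∪ a₀)) ∈ T` and restriction to `a`.
-/

set_option autoImplicit false
set_option linter.unusedVariables false
set_option linter.unusedSectionVars false
set_option linter.unusedSimpArgs false
set_option linter.unusedTactic false
set_option linter.unreachableTactic false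

namespace Pool.Agent.H95.KT

open Pool.Agent.H17.Omega Pool.Agent.H17.Omega.CTM Pool.Agent.H52.GX Pool.Agent.H52.GC Pool.Agent.H7.IG

variable {W : Set ZFSet.{0}} {X C T : ZFSet.{0}}

theorem branch (hW : CTM W) (hX : X ∈ W) (hC : C ∈ W) (hCs : IsCs W X C) (hT : T ∈ W) (hAp : Ap C T)
    (hE : ExtP C T) {a₀ x₀ : ZFSet.{0}} (h0 : ZFSet.pair a₀ x₀ ∈ T)
    (hu : ∀ a ∈ C, a₀ ⊆ a → ∀ x x', ZFSet.pair a x ∈ T → ZFSet.pair a x' ∈ T → x ∩ a₀ = x₀ →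
      x' ∩ a₀ = x₀ → x = x') : ∃ B ∈ W, Br X C T B := by
  have hTs : ∀ a x, ZFSet.pair a x ∈ T → a ∈ C ∧ x ∈ C ∧ x ⊆ a := by
    intro a x h
    obtain ⟨a', ha', x', hx', h1, h2⟩ := hAp.sub _ h
    rw [ZFSet.pair_inj] at h2
    obtain ⟨rfl, rfl⟩ := h2
    exact ⟨ha', hx', h1⟩
  have hCX : ∀ a ∈ C, a ⊆ X := fun a ha => ((hCs a).1 ha).2.1
  have hCW : ∀ a ∈ C, a ∈ W := fun a ha => ((hCs a).1 ha).1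
  obtain ⟨ha₀, hx₀, -⟩ := hTs _ _ h0
  have hinter : ∀ x : ZFSet.{0}, x ∩ a₀ = x₀ ↔ (∀ z ∈ x, z ∈ a₀ → z ∈ x₀) ∧ ∀ z ∈ x₀, z ∈ x ∧ z ∈ a₀ := by
    intro x
    constructor
    · intro h
      rw [← h]
      exact ⟨fun z h1 h2 => ZFSet.mem_inter.2 ⟨h1, h2⟩, fun z h1 => ZFSet.mem_inter.1 h1⟩
    · rintro ⟨h1, h2⟩
      ext z
      rw [ZFSet.mem_inter]
      exact ⟨fun h => h1 z h.1 h.2, fun h => h2 z h⟩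
  have hmem : ZFSet.sep (fun ξ => ∃ a ∈ C, ∃ x ∈ C, a₀ ⊆ a ∧ ZFSet.pair a x ∈ T ∧
      ((∀ z ∈ x, z ∈ a₀ → z ∈ x₀) ∧ ∀ z ∈ x₀, z ∈ x ∧ z ∈ a₀) ∧ ξ ∈ x) X ∈ W := by
    refine hW.sep_mem ?_ hX
    show hW.Dfn (fun v : Fin 1 → W => ∃ a ∈ (⟨C, hC⟩ : W).1, ∃ x ∈ (⟨C, hC⟩ : W).1,
      (⟨a₀, hCW _ ha₀⟩ : W).1 ⊆ a ∧ ZFSet.pair a x ∈ (⟨T, hT⟩ : W).1 ∧
      ((∀ z ∈ x, z ∈ (⟨a₀, hCW _ ha₀⟩ : W).1 → z ∈ (⟨x₀, hCW _ hx₀⟩ : W).1) ∧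
        ∀ z ∈ (⟨x₀, hCW _ hx₀⟩ : W).1, z ∈ x ∧ z ∈ (⟨a₀, hCW _ ha₀⟩ : W).1) ∧ (v 0).1 ∈ x)
    (repeat' first
      | exact DT.var _ | exact DT.last | exact DT.const _ | assumption
      | refine Dfn.pairMem ?_ ?_ ?_ | refine Dfn.isPair ?_ ?_ ?_ | refine Dfn.mem ?_ ?_
      | refine Dfn.eqv ?_ ?_ | refine Dfn.eq ?_ ?_ | refine Dfn.subset ?_ ?_
      | refine Dfn.isEmpty ?_ | refine Dfn.isTrans ?_ | refine Dfn.isOrd ?_ | refine Dfn.isNat ?_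
      | refine Dfn.and ?_ ?_ | refine Dfn.or ?_ ?_ | refine Dfn.iff ?_ ?_ | refine Dfn.not ?_
      | refine Dfn.imp ?_ ?_ | refine Dfn.all ?_ | refine Dfn.ex ?_ | exact Dfn.false'
      | refine Dfn.ballZ ?_ ?_ | refine Dfn.bexZ ?_ ?_)
  obtain ⟨B, hBdef⟩ : ∃ B, B = ZFSet.sep (fun ξ => ∃ a ∈ C, ∃ x ∈ C, a₀ ⊆ a ∧ ZFSet.pair a x ∈ T ∧
      ((∀ z ∈ x, z ∈ a₀ → z ∈ x₀) ∧ ∀ z ∈ x₀, z ∈ x ∧ z ∈ a₀) ∧ ξ ∈ x) X := ⟨_, rfl⟩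
  rw [← hBdef] at hmem
  have hB : ∀ ξ, ξ ∈ B ↔ ∃ a x, a₀ ⊆ a ∧ ZFSet.pair a x ∈ T ∧ x ∩ a₀ = x₀ ∧ ξ ∈ x := by
    intro ξ
    rw [hBdef, ZFSet.mem_sep]
    constructor
    · rintro ⟨-, a, -, x, -, h1, h2, h3, h4⟩
      exact ⟨a, x, h1, h2, (hinter x).2 h3, h4⟩
    · rintro ⟨a, x, h1, h2, h3, h4⟩
      obtain ⟨h5, h6, h7⟩ := hTs _ _ h2
      exact ⟨hCX _ h5 (h7 h4), a, h5, x, h6, h1, h2, (hinter x).1 h3, h4⟩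
  have hres : ∀ a, a₀ ⊆ a → ∀ y : ZFSet.{0}, (y ∩ a) ∩ a₀ = y ∩ a₀ := by
    intro a ha y
    ext z
    simp only [ZFSet.mem_inter]
    exact ⟨fun h => ⟨h.1.1, h.2⟩, fun h => ⟨⟨h.1, ha h.2⟩, h.2⟩⟩
  have key : ∀ a x, a₀ ⊆ a → ZFSet.pair a x ∈ T → x ∩ a₀ = x₀ → B ∩ a = x := by
    intro a x h1 h2 h3
    obtain ⟨h4, h5, h6⟩ := hTs _ _ h2
    ext ξ
    rw [ZFSet.mem_inter]
    constructor
    · rintro ⟨h7, h8⟩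
      obtain ⟨a', x', k1, k2, k3, k4⟩ := (hB ξ).1 h7
      have k5 := (hTs _ _ k2).1
      have hu' : a ∪ a' ∈ C := IsCs.union hW hX hC hCs h4 k5
      have hs1 : a ⊆ a ∪ a' := fun z hz => ZFSet.mem_union.2 (Or.inl hz)
      have hs2 : a' ⊆ a ∪ a' := fun z hz => ZFSet.mem_union.2 (Or.inr hz)
      obtain ⟨y, hy1, hy2⟩ := hE a₀ x₀ h0 (a ∪ a') hu' (fun z hz => hs1 (h1 hz))
      have e1 : y ∩ a' = x' := hu a' k5 k1 _ _ (hAp.res _ _ hy1 a' k5 hs2) k2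
        ((hres a' k1 y).trans hy2) k3
      have e2 : y ∩ a = x := hu a h4 h1 _ _ (hAp.res _ _ hy1 a h4 hs1) h2
        ((hres a h1 y).trans hy2) h3
      rw [← e2, ZFSet.mem_inter]
      rw [← e1, ZFSet.mem_inter] at k4
      exact ⟨k4.1, h8⟩
    · intro h7
      exact ⟨(hB ξ).2 ⟨a, x, h1, h2, h3, h7⟩, h6 h7⟩
  refine ⟨B, hmem, fun ξ hξ => ?_, fun a ha => ?_⟩
  · rw [hBdef, ZFSet.mem_sep] at hξ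
    exact hξ.1
  · have hu' : a ∪ a₀ ∈ C := IsCs.union hW hX hC hCs ha ha₀
    have hs1 : a ⊆ a ∪ a₀ := fun z hz => ZFSet.mem_union.2 (Or.inl hz)
    have hs2 : a₀ ⊆ a ∪ a₀ := fun z hz => ZFSet.mem_union.2 (Or.inr hz)
    obtain ⟨y, hy1, hy2⟩ := hE a₀ x₀ h0 (a ∪ a₀) hu' hs2
    have e1 := key _ _ hs2 hy1 hy2
    have e2 := hAp.res _ _ hy1 a ha hs1
    have e3 : y ∩ a = B ∩ a := by
      rw [← e1]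
      ext z
      simp only [ZFSet.mem_inter]
      exact ⟨fun h => ⟨h.1.1, h.2⟩, fun h => ⟨⟨h.1, hs1 h.2⟩, h.2⟩⟩
    rw [← e3]
    exact e2

end Pool.Agent.H95.KT
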