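import Pool.Agent.H95.KT.A3

/-!
# Splitting (job KT-03s)

`split`: For `x` in the level of `a` (a countable set `L`) there is, by `branch` (contrapositive), `a' ∈ C`,
`a ⊆ a'`, with two different extensions of `x` in level `a'`. By `IsCs.dir` (index set `L`,
`F x a' := a ⊆ a' ∧ ∃ x₁ x₂, ...`) there is `u ∈ C` above such `a'_x`; `a'' = u ∪ a`. The two extensions in level `a'_x`
extend to level `a''` (`ExtP`), and the extensions are different since their restrictions to `a'_x` are.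
`Sp.mono`: the same argument.
-/

set_option autoImplicit false
set_option linter.unusedVariables false
set_option linter.unusedSectionVars false
set_option linter.unusedSimpArgs false
set_option linter.unusedTactic false
set_option linter.unreachableTactic false

namespace Pool.Agent.H95.KT

open Pool.Agent.H17.Omega Pool.Agent.H17.Omega.CTM Pool.Agent.H52.GX Pool.Agent.H52.GC Pool.Agent.H7.IG

variable {W : Set ZFSet.{0}} {X C T : ZFSet.{0}}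

theorem a3s_mem (hAp : Ap C T) {a x : ZFSet.{0}} (h : ZFSet.pair a x ∈ T) :
    a ∈ C ∧ x ∈ C ∧ x ⊆ a := by
  obtain ⟨a', ha', x', hx', h1, h2⟩ := hAp.sub _ h
  rw [ZFSet.pair_inj] at h2
  obtain ⟨rfl, rfl⟩ := h2
  exact ⟨ha', hx', h1⟩

theorem a3s_inter {a a' y : ZFSet.{0}} (h : a ⊆ a') : (y ∩ a') ∩ a = y ∩ a := by
  ext z
  rw [ZFSet.mem_inter, ZFSet.mem_inter, ZFSet.mem_inter]
  exact ⟨fun h1 => ⟨h1.1.1, h1.2⟩, fun h1 => ⟨⟨h1.1, h h1.2⟩, h1.2⟩⟩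

/-- the node `i` of level `a` has two extensions in level `b` -/
def a3sF (T a i b : W) : Prop :=
  a.1 ⊆ b.1 ∧ ∃ x₁ x₂ : W, ¬ x₁ = x₂ ∧ ZFSet.pair b.1 x₁.1 ∈ T.1 ∧ ZFSet.pair b.1 x₂.1 ∈ T.1 ∧
    (∀ t : W, t.1 ∈ i.1 ↔ t.1 ∈ x₁.1 ∧ t.1 ∈ a.1) ∧ (∀ t : W, t.1 ∈ i.1 ↔ t.1 ∈ x₂.1 ∧ t.1 ∈ a.1)

theorem a3s_dfn (hW : CTM W) (T a : W) : hW.Dfn (fun v : Fin 2 → W => a3sF T a (v 0) (v 1)) := by
  show hW.Dfn (fun v : Fin 2 → W => a.1 ⊆ (v 1).1 ∧ ∃ x₁ x₂ : W, ¬ x₁ = x₂ ∧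
    ZFSet.pair (v 1).1 x₁.1 ∈ T.1 ∧ ZFSet.pair (v 1).1 x₂.1 ∈ T.1 ∧
    (∀ t : W, t.1 ∈ (v 0).1 ↔ t.1 ∈ x₁.1 ∧ t.1 ∈ a.1) ∧
    (∀ t : W, t.1 ∈ (v 0).1 ↔ t.1 ∈ x₂.1 ∧ t.1 ∈ a.1))
  (repeat' first
      | exact DT.var _ | exact DT.last | exact DT.const _ | assumption
      | refine Dfn.pairMem ?_ ?_ ?_ | refine Dfn.isPair ?_ ?_ ?_ | refine Dfn.mem ?_ ?_
      | refine Dfn.eqv ?_ ?_ | refine Dfn.eq ?_ ?_ | refine Dfn.subset ?_ ?_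
      | refine Dfn.isEmpty ?_ | refine Dfn.isTrans ?_ | refine Dfn.isOrd ?_ | refine Dfn.isNat ?_
      | refine Dfn.isUpair ?_ ?_ ?_ | refine Dfn.isInsert ?_ ?_ ?_
      | refine Dfn.and ?_ ?_ | refine Dfn.or ?_ ?_ | refine Dfn.iff ?_ ?_ | refine Dfn.not ?_
      | refine Dfn.imp ?_ ?_ | refine Dfn.all ?_ | refine Dfn.ex ?_ | exact Dfn.false'
      | refine Dfn.ballZ ?_ ?_ | refine Dfn.bexZ ?_ ?_ | exact Dfn.const _)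

theorem a3s_int (hW : CTM W) {x a i : ZFSet.{0}} (hi : i ∈ W) (ha : a ∈ W) :
    (∀ t : W, t.1 ∈ i ↔ t.1 ∈ x ∧ t.1 ∈ a) ↔ x ∩ a = i := by
  constructor
  · intro h
    ext z
    rw [ZFSet.mem_inter]
    constructor
    · intro hz
      exact (h ⟨z, hW.trans a ha z hz.2⟩).2 hz
    · intro hz
      exact (h ⟨z, hW.trans i hi z hz⟩).1 hz
  · rintro rfl t
    rw [ZFSet.mem_inter]

theorem Sp.mono (hAp : Ap C T) (hE : ExtP C T) {a a' a'' : ZFSet.{0}} (ha'' : a'' ∈ C)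
    (h : Sp T a a') (h' : a' ⊆ a'') : Sp T a a'' := by
  obtain ⟨h1, h2⟩ := h
  refine ⟨fun z hz => h' (h1 hz), fun x hx => ?_⟩
  obtain ⟨x₁, x₂, hne, p1, p2, e1, e2⟩ := h2 x hx
  obtain ⟨y₁, q1, f1⟩ := hE a' x₁ p1 a'' ha'' h'
  obtain ⟨y₂, q2, f2⟩ := hE a' x₂ p2 a'' ha'' h'
  refine ⟨y₁, y₂, fun h0 => hne (by rw [← f1, ← f2, h0]), q1, q2, ?_, ?_⟩
  · rw [← e1, ← f1, a3s_inter h1]
  · rw [← e2, ← f2, a3s_inter h1]

theorem split (hW : CTM W) (hX : X ∈ W) (hC : C ∈ W) (hCs : IsCs W X C) (hT : T ∈ W) (hAp : Ap C T)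
    (hLC : LC W C T) (hE : ExtP C T) (hno : ¬ ∃ B ∈ W, Br X C T B) {a : ZFSet.{0}} (ha : a ∈ C) :
    ∃ a' ∈ C, Sp T a a' := by
  obtain ⟨L, hL, hLc, hLm⟩ := hLC a ha
  have hCW : ∀ b ∈ C, b ∈ W := fun b hb => ((hCs b).1 hb).1
  have haW : a ∈ W := hCW a ha
  have hex : ∀ i : W, i.1 ∈ L → ∃ b : W, b.1 ∈ C ∧ a3sF (⟨T, hT⟩ : W) ⟨a, haW⟩ i b := by
    intro i hi
    by_contra hcon
    push Not at hcon
    apply hno
    refine branch hW hX hC hCs hT hAp hE ((hLm _).1 hi) fun b hb hab x x' hx hx' ex ex' => ?_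
    by_contra hne
    have hxW := hCW x (a3s_mem hAp hx).2.1
    have hxW' := hCW x' (a3s_mem hAp hx').2.1
    exact hcon ⟨b, hCW b hb⟩ hb ⟨hab, ⟨x, hxW⟩, ⟨x', hxW'⟩,
      fun h0 => hne (congrArg Subtype.val h0), hx, hx',
      (a3s_int hW i.2 haW).2 ex, (a3s_int hW i.2 haW).2 ex'⟩
  obtain ⟨u, hu, hu'⟩ := IsCs.dir hW hX hC hCs hL hLc (a3s_dfn hW ⟨T, hT⟩ ⟨a, haW⟩) hex
  refine ⟨u ∪ a, IsCs.union hW hX hC hCs hu ha, fun z hz => ZFSet.mem_union.2 (Or.inr hz),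
    fun x hx => ?_⟩
  have hxL : x ∈ L := (hLm _).2 hx
  have hxW : x ∈ W := hCW x (a3s_mem hAp hx).2.1
  obtain ⟨b, hb, ⟨hab, x₁, x₂, hne, p1, p2, e1, e2⟩, hbu⟩ := hu' ⟨x, hxW⟩ hxL
  have hab' : a ⊆ b.1 := hab
  have e1' := (a3s_int hW hxW haW).1 e1
  have e2' := (a3s_int hW hxW haW).1 e2
  have hbu' : b.1 ⊆ u ∪ a := fun z hz => ZFSet.mem_union.2 (Or.inl (hbu hz))
  obtain ⟨y₁, q1, f1⟩ := hE b.1 x₁ p1 (u ∪ a) (IsCs.union hW hX hC hCs hu ha) hbu'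
  obtain ⟨y₂, q2, f2⟩ := hE b.1 x₂ p2 (u ∪ a) (IsCs.union hW hX hC hCs hu ha) hbu'
  refine ⟨y₁, y₂, fun h0 => hne (Subtype.ext (by rw [← f1, ← f2, h0])), q1, q2, ?_, ?_⟩
  · rw [← e1', ← f1, a3s_inter hab']
  · rw [← e2', ← f2, a3s_inter hab']

end Pool.Agent.H95.KT
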