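import Pool.Agent.H95.KT.A3s
import Pool.Agent.H7.IG.Tk2

/-!
# The chain (job KT-04)

`exists_dep` in `W` with `A = C` and `Φ g y := ∀ β a, (β, a) ∈ g → Sp T a y`. For `α < δ` and `Fn g α C`: `α` is countable in
`W`; `IsCs.dir` with `I = α.toZFSet`, `F i a := ∃ b, (i, b) ∈ g ∧ Sp T b a` (by `hsp`) gives `u ∈ C` above such sets, and
`Sp.mono` gives `Φ g u`. The result is `g` with: for `η < δ`, `r = rs g η.toZFSet` and `(η, y) ∈ g`: `Φ r y`; for `ξ < η` the pair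
`(ξ, ap g ξ)` is in `rs g η.toZFSet` (`pair_mem_rs`), so `Sp T (ap g ξ) (ap g η)` (`y = ap g η` by `Fn.ap_mem`).
-/

set_option autoImplicit false
set_option linter.unusedVariables false
set_option linter.unusedSectionVars false
set_option linter.unusedSimpArgs false
set_option linter.unusedTactic false
set_option linter.unreachableTactic false

namespace Pool.Agent.H95.KT

open Pool.Agent.H17.Omega Pool.Agent.H17.Omega.CTM Pool.Agent.H52.GX Pool.Agent.H52.GC Pool.Agent.H7.IG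

variable {W : Set ZFSet.{0}} {X C T : ZFSet.{0}}

/-- `Sp` with quantifiers over the model. -/
def A4SpW (t a a' : W) : Prop :=
  a.1 ⊆ a'.1 ∧ ∀ x : W, ZFSet.pair a.1 x.1 ∈ t.1 → ∃ x₁ x₂ : W, ¬ x₁ = x₂ ∧ ZFSet.pair a'.1 x₁.1 ∈ t.1 ∧
    ZFSet.pair a'.1 x₂.1 ∈ t.1 ∧ (∀ z : W, (z.1 ∈ x₁.1 ∧ z.1 ∈ a.1) ↔ z.1 ∈ x.1) ∧
    (∀ z : W, (z.1 ∈ x₂.1 ∧ z.1 ∈ a.1) ↔ z.1 ∈ x.1)

theorem A4SpW_iff (hW : CTM W) {t a a' : W} : A4SpW t a a' ↔ Sp t.1 a.1 a'.1 := by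
  have hint : ∀ x₁ x : W, (∀ z : W, (z.1 ∈ x₁.1 ∧ z.1 ∈ a.1) ↔ z.1 ∈ x.1) ↔ x₁.1 ∩ a.1 = x.1 := by
    intro x₁ x
    constructor
    · intro h
      ext z
      rw [ZFSet.mem_inter]
      constructor
      · intro hz
        exact (h ⟨z, hW.mem_of_mem x₁.2 hz.1⟩).1 hz
      · intro hz
        exact (h ⟨z, hW.mem_of_mem x.2 hz⟩).2 hz
    · intro h z
      rw [← h, ZFSet.mem_inter]
  have hmem : ∀ b x : ZFSet.{0}, ZFSet.pair b x ∈ t.1 → x ∈ W := by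
    intro b x h
    exact (hW.of_pair_mem (hW.mem_of_mem t.2 h)).2
  constructor
  · rintro ⟨h1, h2⟩
    refine ⟨h1, fun x hx => ?_⟩
    obtain ⟨x₁, x₂, h3, h4, h5, h6, h7⟩ := h2 ⟨x, hmem _ _ hx⟩ hx
    exact ⟨x₁.1, x₂.1, fun h => h3 (Subtype.ext h), h4, h5, (hint x₁ ⟨x, hmem _ _ hx⟩).1 h6,
      (hint x₂ ⟨x, hmem _ _ hx⟩).1 h7⟩
  · rintro ⟨h1, h2⟩
    refine ⟨h1, fun x hx => ?_⟩
    obtain ⟨x₁, x₂, h3, h4, h5, h6, h7⟩ := h2 x.1 hx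
    exact ⟨⟨x₁, hmem _ _ h4⟩, ⟨x₂, hmem _ _ h5⟩, fun h => h3 (congrArg Subtype.val h), h4, h5,
      (hint _ x).2 h6, (hint _ x).2 h7⟩

theorem A4SpW_dfn (hW : CTM W) : hW.Dfn (fun v : Fin 3 → W => A4SpW (v 0) (v 1) (v 2)) := by
  unfold A4SpW
  (repeat' first
      | exact DT.var _ | exact DT.last | exact DT.const _ | assumption
      | refine Dfn.pairMem ?_ ?_ ?_ | refine Dfn.isPair ?_ ?_ ?_ | refine Dfn.mem ?_ ?_
      | refine Dfn.eqv ?_ ?_ | refine Dfn.eq ?_ ?_ | refine Dfn.subset ?_ ?_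
      | refine Dfn.isEmpty ?_ | refine Dfn.isTrans ?_ | refine Dfn.isOrd ?_ | refine Dfn.isNat ?_
      | refine Dfn.isUpair ?_ ?_ ?_ | refine Dfn.isInsert ?_ ?_ ?_
      | refine Dfn.and ?_ ?_ | refine Dfn.or ?_ ?_ | refine Dfn.iff ?_ ?_ | refine Dfn.not ?_
      | refine Dfn.imp ?_ ?_ | refine Dfn.all ?_ | refine Dfn.ex ?_ | exact Dfn.false'
      | refine Dfn.ballZ ?_ ?_ | refine Dfn.bexZ ?_ ?_ | exact Dfn.const _)

theorem exists_chain (hW : CTM W) {δ : Ordinal.{0}} (hδ : IsOm1 W δ) (hX : X ∈ W) (hC : C ∈ W)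
    (hCs : IsCs W X C) (hT : T ∈ W) (hAp : Ap C T) (hE : ExtP C T)
    (hsp : ∀ a ∈ C, ∃ a' ∈ C, Sp T a a') : ∃ g ∈ W, Chn C T δ g := by
  have hd := A4SpW_dfn hW
  have hΦ : hW.Dfn (fun v : Fin 2 → W => ∀ β a : W, ZFSet.pair β.1 a.1 ∈ (v 0).1 →
      A4SpW (⟨T, hT⟩ : W) a (v 1)) := by
    (repeat' first
      | exact DT.var _ | exact DT.last | exact DT.const _ | assumption
      | refine Dfn.pairMem ?_ ?_ ?_ | refine Dfn.isPair ?_ ?_ ?_ | refine Dfn.mem ?_ ?_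
      | refine Dfn.eqv ?_ ?_ | refine Dfn.eq ?_ ?_ | refine Dfn.subset ?_ ?_
      | refine Dfn.and ?_ ?_ | refine Dfn.or ?_ ?_ | refine Dfn.iff ?_ ?_ | refine Dfn.not ?_
      | refine Dfn.imp ?_ ?_ | refine Dfn.all ?_ | refine Dfn.ex ?_ | exact Dfn.false')
  obtain ⟨g, hg, hg'⟩ := exists_dep hW (Φ := fun g y => ∀ β a : W, ZFSet.pair β.1 a.1 ∈ g.1 →
      A4SpW (⟨T, hT⟩ : W) a y) hΦ hδ.mem hC (by
    intro α hα g hgf _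
    have hαW : α.toZFSet ∈ W := hW.toZFSet_mem_of_le hα.le hδ.mem
    have hF : hW.Dfn (fun v : Fin 2 → W => ∃ b : W, ZFSet.pair (v 0).1 b.1 ∈ g.1 ∧
        A4SpW (⟨T, hT⟩ : W) b (v 1)) := by
      (repeat' first
        | exact DT.var _ | exact DT.last | exact DT.const _ | assumption
        | refine Dfn.pairMem ?_ ?_ ?_ | refine Dfn.isPair ?_ ?_ ?_ | refine Dfn.mem ?_ ?_
        | refine Dfn.eqv ?_ ?_ | refine Dfn.eq ?_ ?_ | refine Dfn.subset ?_ ?_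
        | refine Dfn.and ?_ ?_ | refine Dfn.or ?_ ?_ | refine Dfn.iff ?_ ?_ | refine Dfn.not ?_
        | refine Dfn.imp ?_ ?_ | refine Dfn.all ?_ | refine Dfn.ex ?_ | exact Dfn.false')
    obtain ⟨u, hu, hu'⟩ := IsCs.dir hW hX hC hCs hαW (hδ.ctb α hα)
      (F := fun i a => ∃ b : W, ZFSet.pair i.1 b.1 ∈ g.1 ∧ A4SpW (⟨T, hT⟩ : W) b a) hF (by
        intro i hi
        obtain ⟨h1, h2⟩ := hgf.ap_mem hi
        obtain ⟨a', ha', hs⟩ := hsp _ h1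
        exact ⟨⟨a', hW.mem_of_mem hC ha'⟩, ha', ⟨_, hW.mem_of_mem hC h1⟩, h2,
          (A4SpW_iff hW).2 hs⟩)
    refine ⟨⟨u, hW.mem_of_mem hC hu⟩, hu, ?_⟩
    intro β a hβa
    have hβ : β.1 ∈ α.toZFSet := by
      obtain ⟨x, hx, y, hy, h1⟩ := hgf.sub _ hβa
      rw [ZFSet.pair_inj] at h1
      rw [h1.1]; exact hx
    obtain ⟨a₁, _, ⟨b, hb, hs⟩, hau⟩ := hu' β hβ
    have hba : b = a := Subtype.ext ((hgf.ap_eq hb).symm.trans (hgf.ap_eq hβa))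
    subst hba
    rw [A4SpW_iff hW] at hs ⊢
    exact Sp.mono hAp hE hu hs hau)
  refine ⟨g.1, g.2, hg, ?_⟩
  intro ξ η hξη hηδ
  have hξ : ξ.toZFSet ∈ δ.toZFSet := Ordinal.toZFSet_mem_toZFSet_iff.2 (hξη.trans hηδ)
  have hη : η.toZFSet ∈ δ.toZFSet := Ordinal.toZFSet_mem_toZFSet_iff.2 hηδ
  obtain ⟨h1, h2⟩ := hg.ap_mem hξ
  obtain ⟨h3, h4⟩ := hg.ap_mem hη
  have hηW : η.toZFSet ∈ W := hW.mem_of_mem hδ.mem hη
  have hξW : ξ.toZFSet ∈ W := hW.mem_of_mem hδ.mem hξ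
  have h5 := hg' η hηδ ⟨_, rs_mem hW g.2 hηW⟩ ⟨_, hW.mem_of_mem hC h3⟩ rfl h4 ⟨_, hξW⟩
    ⟨_, hW.mem_of_mem hC h1⟩ (pair_mem_rs.2 ⟨Ordinal.toZFSet_mem_toZFSet_iff.2 hξη, h2⟩)
  exact (A4SpW_iff hW).1 h5

end Pool.Agent.H95.KT
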