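import Pool.Agent.H95.KT.Defs
import Pool.Agent.H7.IG.Tk5
import Pool.Agent.H7.IG.Tk7

/-!
# Special trees on sets of size `ω₁` (job KT-05)

`SP` is stated for tree orders on `δ`. Let `f ∈ W` map `δ` onto `Nd` (`cvr_onto`; if `Nd` is empty take the empty function).
Call `α < δ` a representative if `f β ≠ f α` for all `β < α`. Let
`r = {(α, β) ∈ δ × δ : α, β` representatives, `(f α, f β) ∈ Rl}` (separation from `prod δ δ`). `TreeO W δ r`: `tree` because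
representatives with the same value are equal; `ctb`: for `p ∈ W` with `(x, z) ∈ r` for all `x ∈ p`, the image of `p` under
`f` is a set of predecessors of `f z`, countable in `W` by `hct`, and `f` is injective on `p` (`Ctb.image` for the inverse
relation or `Cvr`). If `r` has an uncountable chain `D₀ ∈ W`, then its image `D = {f α : α ∈ D₀}` minus the non-representatives
(an element that is not a representative is comparable to nothing, so `D₀` has at most one such element or consists of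
representatives) is an uncountable chain of `Rl`. Otherwise `SP` gives `φ : δ → ω`, and `x ↦ φ(α)`, `α` the representative of
`x`, is the function we want (`exists_fn`).
-/

set_option autoImplicit false
set_option linter.unusedVariables false
set_option linter.unusedSectionVars false
set_option linter.unusedSimpArgs false
set_option linter.unusedTactic false
set_option linter.unreachableTactic false

namespace Pool.Agent.H95.KT

open Pool.Agent.H17.Omega Pool.Agent.H17.Omega.CTM Pool.Agent.H52.GX Pool.Agent.H52.GC Pool.Agent.H7.IG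

variable {W : Set ZFSet.{0}}

theorem SP.set (hW : CTM W) {δ : Ordinal.{0}} (hδ : IsOm1 W δ) (hSP : SP W δ) {Nd Rl : ZFSet.{0}}
    (hNd : Nd ∈ W) (hRl : Rl ∈ W) (hcv : Cvr W δ.toZFSet Nd)
    (hsub : ∀ z ∈ Rl, ∃ x ∈ Nd, ∃ y ∈ Nd, z = ZFSet.pair x y) (hirr : ∀ x, ZFSet.pair x x ∉ Rl)
    (htr : ∀ x y z, ZFSet.pair x y ∈ Rl → ZFSet.pair y z ∈ Rl → ZFSet.pair x z ∈ Rl)
    (htree : ∀ x y z, ZFSet.pair x z ∈ Rl → ZFSet.pair y z ∈ Rl →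
      x = y ∨ ZFSet.pair x y ∈ Rl ∨ ZFSet.pair y x ∈ Rl)
    (hct : ∀ z ∈ Nd, ∀ p ∈ W, (∀ x ∈ p, ZFSet.pair x z ∈ Rl) → Ctb W p) :
    (∃ D ∈ W, D ⊆ Nd ∧ (∀ x ∈ D, ∀ y ∈ D, x = y ∨ ZFSet.pair x y ∈ Rl ∨ ZFSet.pair y x ∈ Rl) ∧ ¬ Ctb W D) ∨
      ∃ f ∈ W, Fn f Nd omZ ∧ ∀ x y n, ZFSet.pair x y ∈ Rl → ZFSet.pair x n ∈ f → ZFSet.pair y n ∉ f := by
  by_cases hne : ∃ x, x ∈ Nd
  swap
  · push Not at hne
    refine Or.inr ⟨∅, hW.empty_mem, ⟨fun z hz => absurd hz (ZFSet.notMem_empty z),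
      fun x hx => absurd hx (hne x), fun x hx => absurd hx (hne x)⟩, fun x y n _ h => absurd h (ZFSet.notMem_empty _)⟩
  obtain ⟨f, hf, hfn, hfo⟩ := cvr_onto hW hδ.mem hNd hcv hne
  have hNdW : ∀ x ∈ Nd, x ∈ W := fun x hx => hW.mem_of_mem hNd hx
  have hδW : ∀ x ∈ δ.toZFSet, x ∈ W := fun x hx => hW.mem_of_mem hδ.mem hx
  have hf1 : ∀ α x, ZFSet.pair α x ∈ f → α ∈ δ.toZFSet ∧ x ∈ Nd := by
    intro α x h
    obtain ⟨a, ha, b, hb, e⟩ := hfn.sub _ h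
    rw [ZFSet.pair_inj] at e
    exact ⟨by rw [e.1]; exact ha, by rw [e.2]; exact hb⟩
  have hf2 : ∀ α x y, ZFSet.pair α x ∈ f → ZFSet.pair α y ∈ f → x = y := fun α x y h h' =>
    hfn.uni α (hf1 _ _ h).1 x (hf1 _ _ h).2 y (hf1 _ _ h').2 h h'
  -- the representatives
  obtain ⟨Rp, hRp, hRp'⟩ := hW.exists_sep (P := fun α => ∀ γ : W, γ.1 ∈ α.1 → ∀ x : W,
    ZFSet.pair α.1 x.1 ∈ (⟨f, hf⟩ : W).1 → ¬ ZFSet.pair γ.1 x.1 ∈ (⟨f, hf⟩ : W).1) (by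
    (repeat' first
        | exact DT.var _ | exact DT.last | exact DT.const _ | assumption
        | refine Dfn.pairMem ?_ ?_ ?_ | refine Dfn.isPair ?_ ?_ ?_ | refine Dfn.mem ?_ ?_
        | refine Dfn.eqv ?_ ?_ | refine Dfn.eq ?_ ?_ | refine Dfn.subset ?_ ?_
        | refine Dfn.isEmpty ?_ | refine Dfn.isTrans ?_ | refine Dfn.isOrd ?_
        | refine Dfn.isNat ?_ | refine Dfn.and ?_ ?_ | refine Dfn.or ?_ ?_ | refine Dfn.iff ?_ ?_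
        | refine Dfn.not ?_ | refine Dfn.imp ?_ ?_ | refine Dfn.all ?_ | refine Dfn.ex ?_
        | exact Dfn.false')) hδ.mem
  have hRp1 : ∀ α, α ∈ Rp ↔ α ∈ δ.toZFSet ∧ ∀ γ ∈ α, ∀ x, ZFSet.pair α x ∈ f → ZFSet.pair γ x ∉ f := by
    intro α
    rw [hRp']
    constructor
    · rintro ⟨h1, h2, h3⟩
      refine ⟨h1, fun γ hγ x hx => ?_⟩
      exact h3 ⟨γ, hW.mem_of_mem h2 hγ⟩ hγ ⟨x, hNdW x (hf1 _ _ hx).2⟩ hx
    · rintro ⟨h1, h2⟩
      exact ⟨h1, hδW α h1, fun γ hγ x hx => h2 γ.1 hγ x.1 hx⟩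
  have hinj : ∀ α ∈ Rp, ∀ β ∈ Rp, ∀ x, ZFSet.pair α x ∈ f → ZFSet.pair β x ∈ f → α = β := by
    intro α hα β hβ x h1 h2
    obtain ⟨a, ha, rfl⟩ := Ordinal.mem_toZFSet_iff.1 ((hRp1 α).1 hα).1
    obtain ⟨b, hb, rfl⟩ := Ordinal.mem_toZFSet_iff.1 ((hRp1 β).1 hβ).1
    rcases lt_trichotomy a b with h | h | h
    · exact absurd h1 (((hRp1 _).1 hβ).2 _ (Ordinal.toZFSet_mem_toZFSet_iff.2 h) x h2)
    · rw [h]
    · exact absurd h2 (((hRp1 _).1 hα).2 _ (Ordinal.toZFSet_mem_toZFSet_iff.2 h) x h1)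
  have hrep : ∀ x ∈ Nd, ∃ α ∈ Rp, ZFSet.pair α x ∈ f := by
    intro x hx
    obtain ⟨α, hα, h1⟩ := hfo x hx
    obtain ⟨a, ha, rfl⟩ := Ordinal.mem_toZFSet_iff.1 hα
    have hex : ∃ b : Ordinal.{0}, b < δ ∧ ZFSet.pair b.toZFSet x ∈ f := ⟨a, ha, h1⟩
    have hmin := (csInf_mem (s := {b : Ordinal.{0} | b < δ ∧ ZFSet.pair b.toZFSet x ∈ f}) hex)
    refine ⟨(sInf {b : Ordinal.{0} | b < δ ∧ ZFSet.pair b.toZFSet x ∈ f}).toZFSet, ?_, hmin.2⟩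
    rw [hRp1]
    refine ⟨Ordinal.toZFSet_mem_toZFSet_iff.2 hmin.1, fun γ hγ y hy hy' => ?_⟩
    obtain ⟨c, hc, rfl⟩ := Ordinal.mem_toZFSet_iff.1 hγ
    have hxy : x = y := hf2 _ _ _ hmin.2 hy
    subst hxy
    exact notMem_of_lt_csInf hc (OrderBot.bddBelow _) ⟨hc.trans hmin.1, hy'⟩
  -- the order on the representatives
  obtain ⟨r, hr, hr'⟩ := hW.exists_sep (P := fun z => ∃ α β x y : W, z.1 = ZFSet.pair α.1 β.1 ∧
    α.1 ∈ (⟨Rp, hRp⟩ : W).1 ∧ β.1 ∈ (⟨Rp, hRp⟩ : W).1 ∧ ZFSet.pair α.1 x.1 ∈ (⟨f, hf⟩ : W).1 ∧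
    ZFSet.pair β.1 y.1 ∈ (⟨f, hf⟩ : W).1 ∧ ZFSet.pair x.1 y.1 ∈ (⟨Rl, hRl⟩ : W).1) (by
    (repeat' first
        | exact DT.var _ | exact DT.last | exact DT.const _ | assumption
        | refine Dfn.pairMem ?_ ?_ ?_ | refine Dfn.isPair ?_ ?_ ?_ | refine Dfn.mem ?_ ?_
        | refine Dfn.eqv ?_ ?_ | refine Dfn.eq ?_ ?_ | refine Dfn.subset ?_ ?_
        | refine Dfn.isEmpty ?_ | refine Dfn.isTrans ?_ | refine Dfn.isOrd ?_
        | refine Dfn.isNat ?_ | refine Dfn.and ?_ ?_ | refine Dfn.or ?_ ?_ | refine Dfn.iff ?_ ?_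
        | refine Dfn.not ?_ | refine Dfn.imp ?_ ?_ | refine Dfn.all ?_ | refine Dfn.ex ?_
        | exact Dfn.false')) (hW.prod_mem hδ.mem hδ.mem)
  have hr1 : ∀ α β, ZFSet.pair α β ∈ r ↔ α ∈ Rp ∧ β ∈ Rp ∧ ∃ x y, ZFSet.pair α x ∈ f ∧
      ZFSet.pair β y ∈ f ∧ ZFSet.pair x y ∈ Rl := by
    intro α β
    rw [hr', ZFSet.pair_mem_prod]
    constructor
    · rintro ⟨_, _, α', β', x, y, h1, h2, h3, h4, h5, h6⟩
      have h1 : ZFSet.pair α β = ZFSet.pair α'.1 β'.1 := h1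
      rw [ZFSet.pair_inj] at h1
      rw [h1.1, h1.2]
      exact ⟨h2, h3, x.1, y.1, h4, h5, h6⟩
    · rintro ⟨h1, h2, x, y, h3, h4, h5⟩
      have h6 := ((hRp1 _).1 h1).1
      have h7 := ((hRp1 _).1 h2).1
      exact ⟨⟨h6, h7⟩, hW.pair_mem (hδW _ h6) (hδW _ h7), ⟨α, hδW _ h6⟩, ⟨β, hδW _ h7⟩,
        ⟨x, hNdW x (hf1 _ _ h3).2⟩, ⟨y, hNdW y (hf1 _ _ h4).2⟩, rfl, h1, h2, h3, h4, h5⟩
  have hrf : ∀ α β x y, ZFSet.pair α β ∈ r → ZFSet.pair α x ∈ f → ZFSet.pair β y ∈ f →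
      ZFSet.pair x y ∈ Rl := by
    intro α β x y h1 h2 h3
    obtain ⟨_, _, x', y', h4, h5, h6⟩ := (hr1 _ _).1 h1
    rw [hf2 _ _ _ h2 h4, hf2 _ _ _ h3 h5]
    exact h6
  have hT : TreeO W δ r := by
    refine ⟨?_, ?_, ?_, ?_, ?_⟩
    · intro z hz
      obtain ⟨x, hx, y, hy, h⟩ := ZFSet.mem_prod.1 ((hr' z).1 hz).1
      exact ⟨x, hx, y, hy, h⟩
    · intro α h
      obtain ⟨_, _, x, y, h1, h2, h3⟩ := (hr1 _ _).1 h
      rw [hf2 _ _ _ h1 h2] at h3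
      exact hirr _ h3
    · intro α β γ h h'
      obtain ⟨h1, h2, x, y, h3, h4, h5⟩ := (hr1 _ _).1 h
      obtain ⟨_, h2', y', z, h4', h5', h6'⟩ := (hr1 _ _).1 h'
      rw [← hf2 _ _ _ h4 h4'] at h6'
      exact (hr1 _ _).2 ⟨h1, h2', x, z, h3, h5', htr _ _ _ h5 h6'⟩
    · intro α β γ h h'
      obtain ⟨h1, h2, x, z, h3, h4, h5⟩ := (hr1 _ _).1 h
      obtain ⟨h1', _, y, z', h3', h4', h5'⟩ := (hr1 _ _).1 h'
      rw [← hf2 _ _ _ h4 h4'] at h5'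
      rcases htree _ _ _ h5 h5' with h6 | h6 | h6
      · subst h6
        exact Or.inl (hinj α h1 β h1' x h3 h3')
      · exact Or.inr (Or.inl ((hr1 _ _).2 ⟨h1, h1', x, y, h3, h3', h6⟩))
      · exact Or.inr (Or.inr ((hr1 _ _).2 ⟨h1', h1, y, x, h3', h3, h6⟩))
    · intro z hz p hp hpz
      by_contra hcon
      obtain ⟨a₀, ha₀⟩ := tk7_ne hW hcon
      obtain ⟨_, hzR, x₀, w, h1, h2, h3⟩ := (hr1 _ _).1 (hpz a₀ ha₀)
      obtain ⟨q, hq, hq'⟩ := hW.exists_sep (P := fun y => ∃ x : W, x.1 ∈ (⟨p, hp⟩ : W).1 ∧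
        ZFSet.pair x.1 y.1 ∈ (⟨f, hf⟩ : W).1) (by
    (repeat' first
        | exact DT.var _ | exact DT.last | exact DT.const _ | assumption
        | refine Dfn.pairMem ?_ ?_ ?_ | refine Dfn.isPair ?_ ?_ ?_ | refine Dfn.mem ?_ ?_
        | refine Dfn.eqv ?_ ?_ | refine Dfn.eq ?_ ?_ | refine Dfn.subset ?_ ?_
        | refine Dfn.isEmpty ?_ | refine Dfn.isTrans ?_ | refine Dfn.isOrd ?_
        | refine Dfn.isNat ?_ | refine Dfn.and ?_ ?_ | refine Dfn.or ?_ ?_ | refine Dfn.iff ?_ ?_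
        | refine Dfn.not ?_ | refine Dfn.imp ?_ ?_ | refine Dfn.all ?_ | refine Dfn.ex ?_
        | exact Dfn.false')) hNd
      have hqc : Ctb W q := by
        refine hct w (hf1 _ _ h2).2 q hq (fun y hy => ?_)
        obtain ⟨_, _, x, hx, hxy⟩ := (hq' y).1 hy
        exact hrf _ _ _ _ (hpz x.1 hx) hxy h2
      apply hcon
      refine Ctb.image hW hqc hq (F := fun y x => ZFSet.pair x.1 y.1 ∈ (⟨f, hf⟩ : W).1 ∧
        x.1 ∈ (⟨p, hp⟩ : W).1) (by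
    (repeat' first
        | exact DT.var _ | exact DT.last | exact DT.const _ | assumption
        | refine Dfn.pairMem ?_ ?_ ?_ | refine Dfn.isPair ?_ ?_ ?_ | refine Dfn.mem ?_ ?_
        | refine Dfn.eqv ?_ ?_ | refine Dfn.eq ?_ ?_ | refine Dfn.subset ?_ ?_
        | refine Dfn.isEmpty ?_ | refine Dfn.isTrans ?_ | refine Dfn.isOrd ?_
        | refine Dfn.isNat ?_ | refine Dfn.and ?_ ?_ | refine Dfn.or ?_ ?_ | refine Dfn.iff ?_ ?_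
        | refine Dfn.not ?_ | refine Dfn.imp ?_ ?_ | refine Dfn.all ?_ | refine Dfn.ex ?_
        | exact Dfn.false')) ?_ ?_
      · intro y hy x x' hx hx'
        exact Subtype.ext (hinj _ ((hr1 _ _).1 (hpz _ hx.2)).1 _ ((hr1 _ _).1 (hpz _ hx'.2)).1 _ hx.1 hx'.1)
      · intro x hx
        obtain ⟨_, _, y, _, h4, _, _⟩ := (hr1 _ _).1 (hpz x hx)
        have hyN := (hf1 _ _ h4).2
        have hxW := hW.mem_of_mem hp hx
        exact ⟨⟨y, hNdW y hyN⟩, ⟨x, hxW⟩, (hq' y).2 ⟨hyN, hNdW y hyN, ⟨x, hxW⟩, hx, h4⟩, rfl, h4, hx⟩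
  by_cases hC : ∃ C₀ ∈ W, C₀ ⊆ δ.toZFSet ∧ (∀ x ∈ C₀, ∀ y ∈ C₀, x = y ∨ ZFSet.pair x y ∈ r ∨
      ZFSet.pair y x ∈ r) ∧ ¬ Ctb W C₀
  · left
    obtain ⟨C₀, hC₀, hC₀δ, hch, hunc⟩ := hC
    have hall : ∀ x ∈ C₀, x ∈ Rp := by
      intro x hx
      by_contra hcon
      apply hunc
      have : C₀ ⊆ {x} := by
        intro y hy
        rw [ZFSet.mem_singleton]
        rcases hch x hx y hy with h | h | h
        · exact h.symm
        · exact absurd ((hr1 _ _).1 h).1 hcon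
        · exact absurd ((hr1 _ _).1 h).2.1 hcon
      have hxW := hδW x (hC₀δ hx)
      have h1 : ({x} : ZFSet.{0}) ∈ W := hW.singleton_mem hxW
      exact (tk7_fin_ctb hW h1 ⟨{x}, fun z => by simp⟩).mono this
    obtain ⟨D, hD, hD'⟩ := hW.exists_sep (P := fun y => ∃ x : W, x.1 ∈ (⟨C₀, hC₀⟩ : W).1 ∧
      ZFSet.pair x.1 y.1 ∈ (⟨f, hf⟩ : W).1) (by
    (repeat' first
        | exact DT.var _ | exact DT.last | exact DT.const _ | assumption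
        | refine Dfn.pairMem ?_ ?_ ?_ | refine Dfn.isPair ?_ ?_ ?_ | refine Dfn.mem ?_ ?_
        | refine Dfn.eqv ?_ ?_ | refine Dfn.eq ?_ ?_ | refine Dfn.subset ?_ ?_
        | refine Dfn.isEmpty ?_ | refine Dfn.isTrans ?_ | refine Dfn.isOrd ?_
        | refine Dfn.isNat ?_ | refine Dfn.and ?_ ?_ | refine Dfn.or ?_ ?_ | refine Dfn.iff ?_ ?_
        | refine Dfn.not ?_ | refine Dfn.imp ?_ ?_ | refine Dfn.all ?_ | refine Dfn.ex ?_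
        | exact Dfn.false')) hNd
    refine ⟨D, hD, fun y hy => ((hD' y).1 hy).1, ?_, ?_⟩
    · intro x hx y hy
      obtain ⟨_, _, α, hα, hαx⟩ := (hD' x).1 hx
      obtain ⟨_, _, β, hβ, hβy⟩ := (hD' y).1 hy
      rcases hch _ hα _ hβ with h | h | h
      · rw [← h] at hβy
        exact Or.inl (hf2 _ _ _ hαx hβy)
      · exact Or.inr (Or.inl (hrf _ _ _ _ h hαx hβy))
      · exact Or.inr (Or.inr (hrf _ _ _ _ h hβy hαx))
    · intro hDc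
      apply hunc
      refine Ctb.image hW hDc hD (F := fun y x => ZFSet.pair x.1 y.1 ∈ (⟨f, hf⟩ : W).1 ∧
        x.1 ∈ (⟨C₀, hC₀⟩ : W).1) (by
    (repeat' first
        | exact DT.var _ | exact DT.last | exact DT.const _ | assumption
        | refine Dfn.pairMem ?_ ?_ ?_ | refine Dfn.isPair ?_ ?_ ?_ | refine Dfn.mem ?_ ?_
        | refine Dfn.eqv ?_ ?_ | refine Dfn.eq ?_ ?_ | refine Dfn.subset ?_ ?_
        | refine Dfn.isEmpty ?_ | refine Dfn.isTrans ?_ | refine Dfn.isOrd ?_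
        | refine Dfn.isNat ?_ | refine Dfn.and ?_ ?_ | refine Dfn.or ?_ ?_ | refine Dfn.iff ?_ ?_
        | refine Dfn.not ?_ | refine Dfn.imp ?_ ?_ | refine Dfn.all ?_ | refine Dfn.ex ?_
        | exact Dfn.false')) ?_ ?_
      · intro y hy x x' hx hx'
        exact Subtype.ext (hinj _ (hall _ hx.2) _ (hall _ hx'.2) _ hx.1 hx'.1)
      · intro x hx
        obtain ⟨y, hyN, h4⟩ := hfn.tot x (hC₀δ hx)
        have hxW := hδW x (hC₀δ hx)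
        exact ⟨⟨y, hNdW y hyN⟩, ⟨x, hxW⟩, (hD' y).2 ⟨hyN, hNdW y hyN, ⟨x, hxW⟩, hx, h4⟩, rfl, h4, hx⟩
  · right
    obtain ⟨φ, hφ, hφn, hφs⟩ := hSP r hr hT (by
      intro C₀ h1 h2 h3
      by_contra h4
      exact hC ⟨C₀, h1, h2, h3, h4⟩)
    have hφ1 : ∀ α x, ZFSet.pair α x ∈ φ → α ∈ δ.toZFSet ∧ x ∈ omZ := by
      intro α x h
      obtain ⟨a, ha, b, hb, e⟩ := hφn.sub _ h
      rw [ZFSet.pair_inj] at e
      exact ⟨by rw [e.1]; exact ha, by rw [e.2]; exact hb⟩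
    obtain ⟨g, hg, hgn, hg'⟩ := exists_fn hW (F := fun x n => ∃ α : W, α.1 ∈ (⟨Rp, hRp⟩ : W).1 ∧
      ZFSet.pair α.1 x.1 ∈ (⟨f, hf⟩ : W).1 ∧ ZFSet.pair α.1 n.1 ∈ (⟨φ, hφ⟩ : W).1) (by
    (repeat' first
        | exact DT.var _ | exact DT.last | exact DT.const _ | assumption
        | refine Dfn.pairMem ?_ ?_ ?_ | refine Dfn.isPair ?_ ?_ ?_ | refine Dfn.mem ?_ ?_
        | refine Dfn.eqv ?_ ?_ | refine Dfn.eq ?_ ?_ | refine Dfn.subset ?_ ?_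
        | refine Dfn.isEmpty ?_ | refine Dfn.isTrans ?_ | refine Dfn.isOrd ?_
        | refine Dfn.isNat ?_ | refine Dfn.and ?_ ?_ | refine Dfn.or ?_ ?_ | refine Dfn.iff ?_ ?_
        | refine Dfn.not ?_ | refine Dfn.imp ?_ ?_ | refine Dfn.all ?_ | refine Dfn.ex ?_
        | exact Dfn.false')) hNd hW.omZ_mem (by
      intro x hx
      obtain ⟨α, hα, hαx⟩ := hrep x.1 hx
      have hαδ := ((hRp1 _).1 hα).1
      obtain ⟨n, hn, hαn⟩ := hφn.tot α hαδ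
      refine ⟨⟨n, hW.mem_of_mem hW.omZ_mem hn⟩, hn, ⟨⟨α, hδW _ hαδ⟩, hα, hαx, hαn⟩, ?_⟩
      rintro n' hn' ⟨α', hα', hα'x, hα'n⟩
      have : α = α'.1 := hinj _ hα _ hα' _ hαx hα'x
      rw [← this] at hα'n
      exact Subtype.ext (hφn.uni _ hαδ _ hn' _ hn hα'n hαn))
    refine ⟨g, hg, hgn, ?_⟩
    intro x y n hxy hx hy
    obtain ⟨xx, hxx, yy, hyy, e⟩ := hsub _ hxy
    rw [ZFSet.pair_inj] at e
    have hxN : x ∈ Nd := by rw [e.1]; exact hxx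
    have hyN : y ∈ Nd := by rw [e.2]; exact hyy
    have hnO : n ∈ omZ := by
      obtain ⟨a, ha, b, hb, e⟩ := hgn.sub _ hx
      rw [ZFSet.pair_inj] at e
      rw [e.2]; exact hb
    have hnW := hW.mem_of_mem hW.omZ_mem hnO
    obtain ⟨_, _, α, hα, hαx, hαn⟩ := (hg' ⟨x, hNdW x hxN⟩ ⟨n, hnW⟩).1 hx
    obtain ⟨_, _, β, hβ, hβy, hβn⟩ := (hg' ⟨y, hNdW y hyN⟩ ⟨n, hnW⟩).1 hy
    exact hφs α.1 β.1 n ((hr1 _ _).2 ⟨hα, hβ, x, y, hαx, hβy, hxy⟩) hαn hβn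

end Pool.Agent.H95.KT
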