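import Pool.Agent.H95.KT.Defs
import Pool.Agent.H7.IG.Tk5

/-!
# The tree of nodes over the chain (job KT-06)

`nd_mem`, `rl_mem`: separation from `prod δ (⋃⋃ T)` and `prod Nd Nd` (`x ∈ ⋃⋃ T` if `(a, x) ∈ T`,
`mem_sUnion_sUnion_pair`; `ap g ξ` is the `a` with `(ξ, a) ∈ g`, `Fn.ap_mem`, `Fn.ap_eq`: write the formulas with `∃ a, (ξ, a) ∈ g`).
`nd_unc`: the map `(ξ, x) ↦ ξ` maps `Nd` onto `δ` (nonempty levels), so `Ctb W Nd` would give `Ctb W δ` (`Ctb.image`).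
-/

set_option autoImplicit false
set_option linter.unusedVariables false
set_option linter.unusedSectionVars false
set_option linter.unusedSimpArgs false
set_option linter.unusedTactic false
set_option linter.unreachableTactic false

namespace Pool.Agent.H95.KT

open Pool.Agent.H17.Omega Pool.Agent.H17.Omega.CTM Pool.Agent.H52.GX Pool.Agent.H52.GC Pool.Agent.H7.IG

variable {W : Set ZFSet.{0}} {C T : ZFSet.{0}} {δ : Ordinal.{0}} {g Nd Rl : ZFSet.{0}}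

theorem nd_mem (hW : CTM W) (hδ : IsOm1 W δ) (hC : C ∈ W) (hT : T ∈ W) (hg : g ∈ W) (hch : Chn C T δ g) :
    ∃ Nd ∈ W, IsNd T δ g Nd := by
  obtain ⟨gN, hgN⟩ : ∃ z : W, z.1 = g := ⟨⟨_, hg⟩, rfl⟩
  obtain ⟨TN, hTN⟩ : ∃ z : W, z.1 = T := ⟨⟨_, hT⟩, rfl⟩
  obtain ⟨Nd, hNd, hiff⟩ := hW.exists_sep (P := fun z => ∃ b a x : W, z.1 = ZFSet.pair b.1 x.1 ∧
    ZFSet.pair b.1 a.1 ∈ gN.1 ∧ ZFSet.pair a.1 x.1 ∈ TN.1) (by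
    show hW.Dfn (fun v : Fin 1 → W => ∃ b a x : W, (v 0).1 = ZFSet.pair b.1 x.1 ∧
      ZFSet.pair b.1 a.1 ∈ gN.1 ∧ ZFSet.pair a.1 x.1 ∈ TN.1)
    (repeat' first
      | exact DT.var _ | exact DT.last | exact DT.const _ | assumption
      | refine Dfn.pairMem ?_ ?_ ?_ | refine Dfn.isPair ?_ ?_ ?_ | refine Dfn.mem ?_ ?_
      | refine Dfn.eqv ?_ ?_ | refine Dfn.eq ?_ ?_ | refine Dfn.subset ?_ ?_
      | refine Dfn.isEmpty ?_ | refine Dfn.isTrans ?_ | refine Dfn.isOrd ?_ | refine Dfn.isNat ?_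
      | refine Dfn.isUpair ?_ ?_ ?_ | refine Dfn.isInsert ?_ ?_ ?_
      | refine Dfn.and ?_ ?_ | refine Dfn.or ?_ ?_ | refine Dfn.iff ?_ ?_ | refine Dfn.not ?_
      | refine Dfn.imp ?_ ?_ | refine Dfn.all ?_ | refine Dfn.ex ?_ | exact Dfn.false'
      | refine Dfn.ballZ ?_ ?_ | refine Dfn.bexZ ?_ ?_ | exact Dfn.const _)
    ) (hW.prod_mem hδ.mem (hW.sUnion_mem (hW.sUnion_mem hT)))
  refine ⟨Nd, hNd, fun z => ?_⟩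
  rw [hiff]
  constructor
  · rintro ⟨_, _, b, a, x, h1, h2, h3⟩
    rw [hgN] at h2
    rw [hTN] at h3
    obtain ⟨b', hb', a', _, h4⟩ := hch.fn.sub _ h2
    rw [ZFSet.pair_inj] at h4
    rw [← h4.1] at hb'
    obtain ⟨ξ, hξ, hξb⟩ := Ordinal.mem_toZFSet_iff.1 hb'
    refine ⟨ξ, hξ, x.1, ?_, ?_⟩
    · rw [hξb, hch.fn.ap_eq h2]
      exact h3
    · rw [hξb]; exact h1
  · rintro ⟨ξ, hξ, x, h1, h2⟩
    have hξm : ξ.toZFSet ∈ δ.toZFSet := Ordinal.toZFSet_mem_toZFSet_iff.2 hξ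
    have hξW : ξ.toZFSet ∈ W := hW.mem_of_mem hδ.mem hξm
    obtain ⟨h3, h4⟩ := hch.fn.ap_mem hξm
    have h5 := hW.of_pair_mem (hW.mem_of_mem hT h1)
    rw [h2]
    refine ⟨ZFSet.pair_mem_prod.2 ⟨hξm, (mem_sUnion_sUnion_pair h1).2⟩, hW.pair_mem hξW h5.2,
      ⟨_, hξW⟩, ⟨_, h5.1⟩, ⟨x, h5.2⟩, rfl, ?_, ?_⟩
    · rw [hgN]; exact h4
    · rw [hTN]; exact h1

theorem rl_mem (hW : CTM W) (hδ : IsOm1 W δ) (hC : C ∈ W) (hg : g ∈ W) (hch : Chn C T δ g) (hNd : Nd ∈ W)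
    (hnd : IsNd T δ g Nd) : ∃ Rl ∈ W, IsRl g Nd Rl := by
  obtain ⟨gN, hgN⟩ : ∃ z : W, z.1 = g := ⟨⟨_, hg⟩, rfl⟩
  obtain ⟨Rl, hRl, hiff⟩ := hW.exists_sep (P := fun z => ∃ p q b c x y a : W, z.1 = ZFSet.pair p.1 q.1 ∧
    p.1 = ZFSet.pair b.1 x.1 ∧ q.1 = ZFSet.pair c.1 y.1 ∧ b.1 ∈ c.1 ∧ ZFSet.pair b.1 a.1 ∈ gN.1 ∧
    ∀ t : W, t.1 ∈ x.1 ↔ (t.1 ∈ y.1 ∧ t.1 ∈ a.1)) (by
    show hW.Dfn (fun v : Fin 1 → W => ∃ p q b c x y a : W, (v 0).1 = ZFSet.pair p.1 q.1 ∧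
      p.1 = ZFSet.pair b.1 x.1 ∧ q.1 = ZFSet.pair c.1 y.1 ∧ b.1 ∈ c.1 ∧ ZFSet.pair b.1 a.1 ∈ gN.1 ∧
      ∀ t : W, t.1 ∈ x.1 ↔ (t.1 ∈ y.1 ∧ t.1 ∈ a.1))
    (repeat' first
      | exact DT.var _ | exact DT.last | exact DT.const _ | assumption
      | refine Dfn.pairMem ?_ ?_ ?_ | refine Dfn.isPair ?_ ?_ ?_ | refine Dfn.mem ?_ ?_
      | refine Dfn.eqv ?_ ?_ | refine Dfn.eq ?_ ?_ | refine Dfn.subset ?_ ?_
      | refine Dfn.isEmpty ?_ | refine Dfn.isTrans ?_ | refine Dfn.isOrd ?_ | refine Dfn.isNat ?_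
      | refine Dfn.isUpair ?_ ?_ ?_ | refine Dfn.isInsert ?_ ?_ ?_
      | refine Dfn.and ?_ ?_ | refine Dfn.or ?_ ?_ | refine Dfn.iff ?_ ?_ | refine Dfn.not ?_
      | refine Dfn.imp ?_ ?_ | refine Dfn.all ?_ | refine Dfn.ex ?_ | exact Dfn.false'
      | refine Dfn.ballZ ?_ ?_ | refine Dfn.bexZ ?_ ?_ | exact Dfn.const _)
    ) (hW.prod_mem hNd hNd)
  have hord : ∀ {b x : ZFSet.{0}}, ZFSet.pair b x ∈ Nd → ∃ ξ : Ordinal.{0}, ξ < δ ∧ ξ.toZFSet = b := by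
    intro b x h
    obtain ⟨ξ, hξ, x', _, h2⟩ := (hnd _).1 h
    rw [ZFSet.pair_inj] at h2
    exact ⟨ξ, hξ, h2.1.symm⟩
  refine ⟨Rl, hRl, fun z => ?_⟩
  rw [hiff]
  constructor
  · rintro ⟨h0, _, p, q, b, c, x, y, a, h1', h2, h3, h4, h5, h6⟩
    have h1 : z = ZFSet.pair p.1 q.1 := h1'
    rw [h1, ZFSet.pair_mem_prod, h2, h3] at h0
    obtain ⟨ξ, hξ, hξb⟩ := hord h0.1
    obtain ⟨η, hη, hηc⟩ := hord h0.2
    rw [hgN] at h5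
    rw [← hξb, ← hηc] at h4
    refine ⟨ξ, η, x.1, y.1, Ordinal.toZFSet_mem_toZFSet_iff.1 h4, ?_, ?_, ?_, ?_⟩
    · rw [hξb]; exact h0.1
    · rw [hηc]; exact h0.2
    · rw [hξb, hch.fn.ap_eq h5]
      ext t
      rw [ZFSet.mem_inter]
      constructor
      · rintro ⟨h7, h8⟩
        exact (h6 ⟨t, hW.mem_of_mem y.2 h7⟩).2 ⟨h7, h8⟩
      · intro h7
        exact (h6 ⟨t, hW.mem_of_mem x.2 h7⟩).1 h7
    · rw [h1, h2, h3, hξb, hηc]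
  · rintro ⟨ξ, η, x, y, h1, h2, h3, h4, h5⟩
    obtain ⟨ξ', hξ', e1⟩ := hord h2
    have e1' : ξ' = ξ := toZFSet_inj.1 e1
    rw [e1'] at hξ'
    have hξm : ξ.toZFSet ∈ δ.toZFSet := Ordinal.toZFSet_mem_toZFSet_iff.2 hξ'
    obtain ⟨h6, h7⟩ := hch.fn.ap_mem hξm
    have hp := hW.mem_of_mem hNd h2
    have hq := hW.mem_of_mem hNd h3
    have hp' := hW.of_pair_mem hp
    have hq' := hW.of_pair_mem hq
    have ha := hW.mem_of_mem hC h6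
    rw [h5]
    refine ⟨ZFSet.pair_mem_prod.2 ⟨h2, h3⟩, hW.pair_mem hp hq, ⟨_, hp⟩, ⟨_, hq⟩, ⟨_, hp'.1⟩, ⟨_, hq'.1⟩,
      ⟨_, hp'.2⟩, ⟨_, hq'.2⟩, ⟨_, ha⟩, rfl, rfl, rfl, Ordinal.toZFSet_mem_toZFSet_iff.2 h1, ?_, ?_⟩
    · rw [hgN]; exact h7
    · intro t
      show t.1 ∈ x ↔ (t.1 ∈ y ∧ t.1 ∈ ap g ξ.toZFSet)
      rw [← h4, ZFSet.mem_inter]

theorem nd_unc (hW : CTM W) (hδ : IsOm1 W δ) (hAp : Ap C T) (hg : g ∈ W) (hch : Chn C T δ g) (hNd : Nd ∈ W)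
    (hnd : IsNd T δ g Nd) : ¬ Ctb W Nd := by
  intro hc
  apply hδ.unc
  refine Ctb.image hW hc hNd (F := fun p b => ∃ x : W, p.1 = ZFSet.pair b.1 x.1) ?_ ?_ ?_
  · show hW.Dfn (fun v : Fin 2 → W => ∃ x : W, (v 0).1 = ZFSet.pair (v 1).1 x.1)
    (repeat' first
      | exact DT.var _ | exact DT.last | exact DT.const _ | assumption
      | refine Dfn.pairMem ?_ ?_ ?_ | refine Dfn.isPair ?_ ?_ ?_ | refine Dfn.mem ?_ ?_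
      | refine Dfn.eqv ?_ ?_ | refine Dfn.eq ?_ ?_ | refine Dfn.subset ?_ ?_
      | refine Dfn.isEmpty ?_ | refine Dfn.isTrans ?_ | refine Dfn.isOrd ?_ | refine Dfn.isNat ?_
      | refine Dfn.isUpair ?_ ?_ ?_ | refine Dfn.isInsert ?_ ?_ ?_
      | refine Dfn.and ?_ ?_ | refine Dfn.or ?_ ?_ | refine Dfn.iff ?_ ?_ | refine Dfn.not ?_
      | refine Dfn.imp ?_ ?_ | refine Dfn.all ?_ | refine Dfn.ex ?_ | exact Dfn.false'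
      | refine Dfn.ballZ ?_ ?_ | refine Dfn.bexZ ?_ ?_ | exact Dfn.const _)
  · rintro p _ b b' ⟨x, h1⟩ ⟨x', h2⟩
    rw [h1, ZFSet.pair_inj] at h2
    exact Subtype.ext h2.1
  · intro b hb
    obtain ⟨ξ, hξ, rfl⟩ := Ordinal.mem_toZFSet_iff.1 hb
    have hbW : ξ.toZFSet ∈ W := hW.mem_of_mem hδ.mem hb
    obtain ⟨x, hx⟩ := hAp.ne _ (hch.fn.ap_mem hb).1
    have h1 : ZFSet.pair ξ.toZFSet x ∈ Nd := (hnd _).2 ⟨ξ, hξ, x, hx, rfl⟩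
    have h2 := hW.mem_of_mem hNd h1
    exact ⟨⟨_, h2⟩, ⟨_, hbW⟩, h1, rfl, ⟨x, (hW.of_pair_mem h2).2⟩, rfl⟩

end Pool.Agent.H95.KT
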