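import Pool.Agent.H95.KT.A6

/-!
# The tree of nodes: sizes (job KT-06c)

`nd_cvr`: `cvr_union_om1` with `I = δ`, `r = {(ξ, (ξ, x)) : (ξ, x) ∈ Nd}`; the nodes of level `ξ` are the image of the
countable level of `g ξ` (`LC`, `Ctb.image`, `ctb_cvr_om1`); `Cvr W δ δ` by `cvr_of_subset`.
`rl_ctb`: a set `p` of predecessors of `(η, y)`: its elements are `(ξ, y ∩ g ξ)`, `ξ < η`, so `(ξ, x) ↦ ξ` is injective on `p` with
values in the countable set `η` (`ctb_iff_cvr`, `cvr_of_dfn`, `Cvr.trans`, or `Ctb.image` for the inverse).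
-/

set_option autoImplicit false
set_option linter.unusedVariables false
set_option linter.unusedSectionVars false
set_option linter.unusedSimpArgs false
set_option linter.unusedTactic false
set_option linter.unreachableTactic false

namespace Pool.Agent.H95.KT

open Pool.Agent.H17.Omega Pool.Agent.H17.Omega.CTM Pool.Agent.H52.GX Pool.Agent.H52.GC Pool.Agent.H7.IG

variable {W : Set ZFSet.{0}} {C T : ZFSet.{0}} {δ : Ordinal.{0}} {g Nd Rl : ZFSet.{0}}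

/-- One level of the tree of nodes is countable. -/
theorem a6c_level (hW : CTM W) {i L : ZFSet.{0}} (hi : i ∈ W) (hL : L ∈ W) (hc : Ctb W L) :
    ∃ Y ∈ W, Ctb W Y ∧ ∀ x ∈ L, ZFSet.pair i x ∈ Y := by
  obtain ⟨Y, hY, hY'⟩ := hW.exists_repl (F := fun x y => y.1 = ZFSet.pair (⟨i, hi⟩ : W).1 x.1) (by
    (repeat' first
      | exact DT.var _ | exact DT.last | exact DT.const _ | assumption
      | refine Dfn.pairMem ?_ ?_ ?_ | refine Dfn.isPair ?_ ?_ ?_ | refine Dfn.mem ?_ ?_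
      | refine Dfn.eqv ?_ ?_ | refine Dfn.eq ?_ ?_ | refine Dfn.subset ?_ ?_
      | refine Dfn.isEmpty ?_ | refine Dfn.isTrans ?_ | refine Dfn.isOrd ?_ | refine Dfn.isNat ?_
      | refine Dfn.and ?_ ?_ | refine Dfn.or ?_ ?_ | refine Dfn.iff ?_ ?_ | refine Dfn.not ?_
      | refine Dfn.imp ?_ ?_ | refine Dfn.all ?_ | refine Dfn.ex ?_ | exact Dfn.false'
      | refine Dfn.ballZ ?_ ?_ | refine Dfn.bexZ ?_ ?_)) hL (fun x _ y y' h1 h2 => Subtype.ext (h1.trans h2.symm))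
  refine ⟨Y, hY, ?_, fun x hx => ?_⟩
  · refine hc.image hW hL (F := fun x y => y.1 = ZFSet.pair (⟨i, hi⟩ : W).1 x.1) (by
      (repeat' first
      | exact DT.var _ | exact DT.last | exact DT.const _ | assumption
      | refine Dfn.pairMem ?_ ?_ ?_ | refine Dfn.isPair ?_ ?_ ?_ | refine Dfn.mem ?_ ?_
      | refine Dfn.eqv ?_ ?_ | refine Dfn.eq ?_ ?_ | refine Dfn.subset ?_ ?_
      | refine Dfn.isEmpty ?_ | refine Dfn.isTrans ?_ | refine Dfn.isOrd ?_ | refine Dfn.isNat ?_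
      | refine Dfn.and ?_ ?_ | refine Dfn.or ?_ ?_ | refine Dfn.iff ?_ ?_ | refine Dfn.not ?_
      | refine Dfn.imp ?_ ?_ | refine Dfn.all ?_ | refine Dfn.ex ?_ | exact Dfn.false'
      | refine Dfn.ballZ ?_ ?_ | refine Dfn.bexZ ?_ ?_)) (fun x _ y y' h1 h2 => Subtype.ext (h1.trans h2.symm)) ?_
    intro y hy
    obtain ⟨x, hx, h⟩ := (hY' ⟨y, hW.mem_of_mem hY hy⟩).1 hy
    exact ⟨x, ⟨y, hW.mem_of_mem hY hy⟩, hx, rfl, h⟩
  · exact (hY' ⟨ZFSet.pair i x, hW.pair_mem hi (hW.mem_of_mem hL hx)⟩).2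
      ⟨⟨x, hW.mem_of_mem hL hx⟩, hx, rfl⟩

theorem nd_cvr (hW : CTM W) (hδ : IsOm1 W δ) (hT : T ∈ W) (hLC : LC W C T) (hg : g ∈ W) (hch : Chn C T δ g)
    (hNd : Nd ∈ W) (hnd : IsNd T δ g Nd) : Cvr W δ.toZFSet Nd := by
  have hr : ZFSet.sep (fun z => ∃ a ∈ (⟨_, hδ.mem⟩ : W).1, ∃ w ∈ (⟨Nd, hNd⟩ : W).1,
      z = ZFSet.pair a w ∧ ∃ b ∈ (⟨_, hδ.mem⟩ : W).1, b = a ∧ ∃ x ∈ (⟨_, hW.sUnion_mem (hW.sUnion_mem hNd)⟩ : W).1,
        w = ZFSet.pair b x) (ZFSet.prod δ.toZFSet Nd) ∈ W := by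
    refine hW.sep_mem ?_ (hW.prod_mem hδ.mem hNd)
    (repeat' first
      | exact DT.var _ | exact DT.last | exact DT.const _ | assumption
      | refine Dfn.pairMem ?_ ?_ ?_ | refine Dfn.isPair ?_ ?_ ?_ | refine Dfn.mem ?_ ?_
      | refine Dfn.eqv ?_ ?_ | refine Dfn.eq ?_ ?_ | refine Dfn.subset ?_ ?_
      | refine Dfn.isEmpty ?_ | refine Dfn.isTrans ?_ | refine Dfn.isOrd ?_ | refine Dfn.isNat ?_
      | refine Dfn.and ?_ ?_ | refine Dfn.or ?_ ?_ | refine Dfn.iff ?_ ?_ | refine Dfn.not ?_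
      | refine Dfn.imp ?_ ?_ | refine Dfn.all ?_ | refine Dfn.ex ?_ | exact Dfn.false'
      | refine Dfn.ballZ ?_ ?_ | refine Dfn.bexZ ?_ ?_)
  have hcov' : ∀ z ∈ Nd, ∃ ξ : Ordinal.{0}, ξ < δ ∧ ∃ x, ZFSet.pair (ap g ξ.toZFSet) x ∈ T ∧
      z = ZFSet.pair ξ.toZFSet x := fun z hz => (hnd z).1 hz
  refine cvr_union_om1 hW hδ (I := δ.toZFSet) hδ.mem hr hNd (tk5_refl hW hδ) ?_ ?_
  · intro i hi
    obtain ⟨L, hL, hLc, hL'⟩ := hLC _ (hch.fn.ap_mem hi).1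
    obtain ⟨Y, hY, hYc, hY'⟩ := a6c_level hW (hW.mem_of_mem hδ.mem hi) hL hLc
    refine ⟨Y, hY, ctb_cvr_om1 hW hδ hYc, fun z hz hiz => ?_⟩
    rw [ZFSet.mem_sep] at hiz
    obtain ⟨-, a, ha, w, hw, h1, b, hb, h2, x, hx, h3⟩ := hiz
    rw [ZFSet.pair_inj] at h1
    obtain ⟨rfl, rfl⟩ := h1
    subst h2
    obtain ⟨ξ, hξ, x', h4, h5⟩ := hcov' _ hz
    rw [h3, ZFSet.pair_inj] at h5
    obtain ⟨h5, rfl⟩ := h5
    rw [← h5] at h4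
    rw [h3]
    exact hY' _ ((hL' _).2 h4)
  · intro z hz
    obtain ⟨ξ, hξ, x, h4, h5⟩ := hcov' _ hz
    have hξδ : ξ.toZFSet ∈ δ.toZFSet := Ordinal.toZFSet_mem_toZFSet_iff.2 hξ
    refine ⟨ξ.toZFSet, hξδ, ?_⟩
    rw [ZFSet.mem_sep]
    refine ⟨ZFSet.pair_mem_prod.2 ⟨hξδ, hz⟩, ξ.toZFSet, hξδ, z, hz, rfl, ξ.toZFSet, hξδ, rfl, x, ?_, h5⟩
    have hz' := hz
    rw [h5] at hz'
    exact (mem_sUnion_sUnion_pair hz').2

theorem rl_ctb (hW : CTM W) (hδ : IsOm1 W δ) (hg : g ∈ W) (hch : Chn C T δ g) (hNd : Nd ∈ W)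
    (hnd : IsNd T δ g Nd) (hRl : Rl ∈ W) (hrl : IsRl g Nd Rl) {z p : ZFSet.{0}} (hz : z ∈ Nd) (hp : p ∈ W)
    (h : ∀ x ∈ p, ZFSet.pair x z ∈ Rl) : Ctb W p := by
  obtain ⟨η, hη, y, hy, rfl⟩ := (hnd z).1 hz
  have key : ∀ w ∈ p, ∃ ξ : Ordinal.{0}, ξ < η ∧ w = ZFSet.pair ξ.toZFSet (y ∩ ap g ξ.toZFSet) := by
    intro w hw
    obtain ⟨ξ, η', x0, y0, h1, h2, h3, h4, h5⟩ := (hrl _).1 (h w hw)
    rw [ZFSet.pair_inj, ZFSet.pair_inj, toZFSet_inj] at h5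
    obtain ⟨rfl, rfl, rfl⟩ := h5
    exact ⟨ξ, h1, by rw [h4]⟩
  have hηW : η.toZFSet ∈ W := hW.toZFSet_mem_of_le hη.le hδ.mem
  refine (hδ.ctb η hη).image hW hηW (F := fun i w => w.1 ∈ (⟨p, hp⟩ : W).1 ∧
    ∃ x : W, w.1 = ZFSet.pair i.1 x.1) (by
      (repeat' first
      | exact DT.var _ | exact DT.last | exact DT.const _ | assumption
      | refine Dfn.pairMem ?_ ?_ ?_ | refine Dfn.isPair ?_ ?_ ?_ | refine Dfn.mem ?_ ?_
      | refine Dfn.eqv ?_ ?_ | refine Dfn.eq ?_ ?_ | refine Dfn.subset ?_ ?_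
      | refine Dfn.isEmpty ?_ | refine Dfn.isTrans ?_ | refine Dfn.isOrd ?_ | refine Dfn.isNat ?_
      | refine Dfn.and ?_ ?_ | refine Dfn.or ?_ ?_ | refine Dfn.iff ?_ ?_ | refine Dfn.not ?_
      | refine Dfn.imp ?_ ?_ | refine Dfn.all ?_ | refine Dfn.ex ?_ | exact Dfn.false'
      | refine Dfn.ballZ ?_ ?_ | refine Dfn.bexZ ?_ ?_)) ?_ ?_
  · rintro i _ w w' ⟨h1, x, h2⟩ ⟨h3, x', h4⟩
    obtain ⟨ξ, _, h5⟩ := key _ h1
    obtain ⟨ξ', _, h6⟩ := key _ h3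
    have h7 := h2.symm.trans h5
    have h8 := h4.symm.trans h6
    rw [ZFSet.pair_inj] at h7 h8
    apply Subtype.ext
    rw [h5, h6, ← h7.1, ← h8.1]
  · intro w hw
    obtain ⟨ξ, hξ, h5⟩ := key _ hw
    have hwW := hW.mem_of_mem hp hw
    have hξη : ξ.toZFSet ∈ η.toZFSet := Ordinal.toZFSet_mem_toZFSet_iff.2 hξ
    have h6 : y ∩ ap g ξ.toZFSet ∈ W := by
      have h7 := hwW
      rw [h5] at h7
      exact (hW.of_pair_mem h7).2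
    exact ⟨⟨_, hW.mem_of_mem hηW hξη⟩, ⟨w, hwW⟩, hξη, rfl, hw, ⟨_, h6⟩, h5⟩

end Pool.Agent.H95.KT
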