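import Pool.Agent.H95.KT.A6c

/-!
# An uncountable chain gives an uncountable antichain of nodes (job KT-07)

`D ⊆ Nd` is an uncountable chain. Notation: `a_ξ = ap g ξ`. Facts: for `(ξ, x) ∈ Nd`, `x ⊆ a_ξ` (`Ap.sub`); for `ξ < η`: `a_ξ ⊆ a_η`
(`Sp`). In `D` there is at most one node of each level, and for `(ξ, x), (η, y) ∈ D`, `ξ < η`: `x = y ∩ a_ξ`. For `(ξ, x) ∈ D` there is
`(η, y) ∈ D` with `ξ < η`: otherwise `D` minus `(ξ, x)` is a set of predecessors of `(ξ, x)`, countable by `rl_ctb`.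
Say `η` is the next level of `ξ` if `ξ < η`, both are levels of `D` and there is no level of `D` strictly between.
`D' = {(η, y) ∈ Nd : (η, y) ∉ D` and there is `(ξ, x) ∈ D` with next level `η` and `y ∩ a_ξ = x}`, in `W` by separation.
* Antichain: suppose `(η, y), (η', y') ∈ D'`, `η < η'`, `y' ∩ a_η = y`, witnesses `(ξ, x), (ξ', x')`. Then `ξ < ξ'` and `η ≤ ξ'`
  (no level of `D` strictly between `ξ` and `η`; if `ξ' ≤ ξ` then `η' ≤ ξ < η` or `η' = η`). Let `(η, z) ∈ D`. Then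
  `y' ∩ a_η = (y' ∩ a_{ξ'}) ∩ a_η = x' ∩ a_η = z` (as `(η, z), (ξ', x') ∈ D`; if `η = ξ'` then `z = x'`). So `y = z` and
  `(η, y) ∈ D`: contradiction.
* Uncountable: for every `(ξ, x) ∈ D` with next level `η` (the least level of `D` above `ξ`), `x` has two extensions in level `a_η`
  (`Chn.sp`), at most one of them is in `D`, so there is `(η, y) ∈ D'` with witness `(ξ, x)`. The witness is determined by
  `η` (the previous level). So `D` is the image of `D'` under a definable function: `Ctb.image`.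
-/

set_option autoImplicit false
set_option linter.unusedVariables false
set_option linter.unusedSectionVars false
set_option linter.unusedSimpArgs false
set_option linter.unusedTactic false
set_option linter.unreachableTactic false

namespace Pool.Agent.H95.KT

open Pool.Agent.H17.Omega Pool.Agent.H17.Omega.CTM Pool.Agent.H52.GX Pool.Agent.H52.GC Pool.Agent.H7.IG

variable {W : Set ZFSet.{0}} {C T : ZFSet.{0}} {δ : Ordinal.{0}} {g Nd Rl : ZFSet.{0}}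

/-- `w` is a node on the level of the next level of `u` in `D`, above `u`. -/
def A7F {W : Set ZFSet.{0}} (D Rl w u : W) : Prop :=
  u.1 ∈ D.1 ∧ ∃ u' : W, u'.1 ∈ D.1 ∧
    (∃ e y z : W, w.1 = ZFSet.pair e.1 y.1 ∧ u'.1 = ZFSet.pair e.1 z.1) ∧
    ZFSet.pair u.1 w.1 ∈ Rl.1 ∧ ZFSet.pair u.1 u'.1 ∈ Rl.1 ∧
    ∀ d : W, d.1 ∈ D.1 → ZFSet.pair u.1 d.1 ∈ Rl.1 → ¬ ZFSet.pair d.1 u'.1 ∈ Rl.1

theorem a7F_dfn (hW : CTM W) (D Rl : W) : hW.Dfn (fun v : Fin 2 → W => A7F D Rl (v 0) (v 1)) := by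
  show hW.Dfn (fun v : Fin 2 → W => (v 1).1 ∈ D.1 ∧ ∃ u' : W, u'.1 ∈ D.1 ∧
    (∃ e y z : W, (v 0).1 = ZFSet.pair e.1 y.1 ∧ u'.1 = ZFSet.pair e.1 z.1) ∧
    ZFSet.pair (v 1).1 (v 0).1 ∈ Rl.1 ∧ ZFSet.pair (v 1).1 u'.1 ∈ Rl.1 ∧
    ∀ d : W, d.1 ∈ D.1 → ZFSet.pair (v 1).1 d.1 ∈ Rl.1 → ¬ ZFSet.pair d.1 u'.1 ∈ Rl.1)
  (repeat' first
      | exact DT.var _ | exact DT.last | exact DT.const _ | assumption
      | refine Dfn.pairMem ?_ ?_ ?_ | refine Dfn.isPair ?_ ?_ ?_ | refine Dfn.mem ?_ ?_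
      | refine Dfn.eqv ?_ ?_ | refine Dfn.eq ?_ ?_ | refine Dfn.subset ?_ ?_
      | refine Dfn.isEmpty ?_ | refine Dfn.isTrans ?_ | refine Dfn.isOrd ?_ | refine Dfn.isNat ?_
      | refine Dfn.isUpair ?_ ?_ ?_ | refine Dfn.isInsert ?_ ?_ ?_
      | refine Dfn.and ?_ ?_ | refine Dfn.or ?_ ?_ | refine Dfn.iff ?_ ?_ | refine Dfn.not ?_
      | refine Dfn.imp ?_ ?_ | refine Dfn.all ?_ | refine Dfn.ex ?_ | exact Dfn.false'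
      | refine Dfn.ballZ ?_ ?_ | refine Dfn.bexZ ?_ ?_ | exact Dfn.const _)

theorem a7_inter {a b y : ZFSet.{0}} (h : a ⊆ b) : (y ∩ b) ∩ a = y ∩ a := by
  ext z
  rw [ZFSet.mem_inter, ZFSet.mem_inter, ZFSet.mem_inter]
  exact ⟨fun h1 => ⟨h1.1.1, h1.2⟩, fun h1 => ⟨⟨h1.1, h h1.2⟩, h1.2⟩⟩

theorem chain_anti (hW : CTM W) (hδ : IsOm1 W δ) (hC : C ∈ W) (hT : T ∈ W) (hAp : Ap C T) (hg : g ∈ W)
    (hch : Chn C T δ g) (hNd : Nd ∈ W) (hnd : IsNd T δ g Nd) (hRl : Rl ∈ W) (hrl : IsRl g Nd Rl)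
    {D : ZFSet.{0}} (hD : D ∈ W) (hDs : D ⊆ Nd)
    (hDc : ∀ x ∈ D, ∀ y ∈ D, x = y ∨ ZFSet.pair x y ∈ Rl ∨ ZFSet.pair y x ∈ Rl) (hDu : ¬ Ctb W D) :
    ∃ D' ∈ W, D' ⊆ Nd ∧ (∀ x ∈ D', ∀ y ∈ D', ZFSet.pair x y ∉ Rl) ∧ ¬ Ctb W D' := by
  classical
  have hR : ∀ (ξ η : Ordinal.{0}) (x y : ZFSet.{0}),
      ZFSet.pair (ZFSet.pair ξ.toZFSet x) (ZFSet.pair η.toZFSet y) ∈ Rl ↔
      ξ < η ∧ ZFSet.pair ξ.toZFSet x ∈ Nd ∧ ZFSet.pair η.toZFSet y ∈ Nd ∧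
        y ∩ ap g ξ.toZFSet = x := by
    intro ξ η x y
    rw [hrl]
    constructor
    · rintro ⟨ξ', η', x', y', h1, h2, h3, h4, h5⟩
      rw [ZFSet.pair_inj, ZFSet.pair_inj, ZFSet.pair_inj, toZFSet_inj, toZFSet_inj] at h5
      obtain ⟨⟨rfl, rfl⟩, rfl, rfl⟩ := h5
      exact ⟨h1, h2, h3, h4⟩
    · rintro ⟨h1, h2, h3, h4⟩
      exact ⟨ξ, η, x, y, h1, h2, h3, h4, rfl⟩
  have hN2 : ∀ (ξ : Ordinal.{0}) (x : ZFSet.{0}), ZFSet.pair ξ.toZFSet x ∈ Nd ↔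
      ξ < δ ∧ ZFSet.pair (ap g ξ.toZFSet) x ∈ T := by
    intro ξ x
    rw [hnd]
    constructor
    · rintro ⟨ξ', h1, x', h2, h3⟩
      rw [ZFSet.pair_inj, toZFSet_inj] at h3
      obtain ⟨rfl, rfl⟩ := h3
      exact ⟨h1, h2⟩
    · rintro ⟨h1, h2⟩
      exact ⟨ξ, h1, x, h2, rfl⟩
  have hDp : ∀ d ∈ D, ∃ (ξ : Ordinal.{0}) (x : ZFSet.{0}), d = ZFSet.pair ξ.toZFSet x ∧ ξ < δ := by
    intro d hd
    obtain ⟨ξ, h1, x, h2, h3⟩ := (hnd d).1 (hDs hd)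
    exact ⟨ξ, x, h3, h1⟩
  have hLv : ∀ (ξ : Ordinal.{0}) (x x' : ZFSet.{0}), ZFSet.pair ξ.toZFSet x ∈ D →
      ZFSet.pair ξ.toZFSet x' ∈ D → x = x' := by
    intro ξ x x' h h'
    rcases hDc _ h _ h' with h1 | h1 | h1
    · exact (ZFSet.pair_inj.1 h1).2
    · exact absurd ((hR _ _ _ _).1 h1).1 (lt_irrefl _)
    · exact absurd ((hR _ _ _ _).1 h1).1 (lt_irrefl _)
  have hPr : ∀ (ξ η : Ordinal.{0}) (x y : ZFSet.{0}), ZFSet.pair ξ.toZFSet x ∈ D →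
      ZFSet.pair η.toZFSet y ∈ D → ξ < η → y ∩ ap g ξ.toZFSet = x := by
    intro ξ η x y h h' hlt
    rcases hDc _ h _ h' with h1 | h1 | h1
    · exact absurd (toZFSet_inj.1 (ZFSet.pair_inj.1 h1).1) hlt.ne
    · exact ((hR _ _ _ _).1 h1).2.2.2
    · exact absurd ((hR _ _ _ _).1 h1).1 (not_lt.2 hlt.le)
  have hU : ∀ (ξ : Ordinal.{0}) (x : ZFSet.{0}), ZFSet.pair ξ.toZFSet x ∈ D →
      ∃ (η : Ordinal.{0}) (y : ZFSet.{0}), ξ < η ∧ ZFSet.pair η.toZFSet y ∈ D := by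
    intro ξ x hx
    by_contra hcon
    push Not at hcon
    obtain ⟨hξδ, hxT⟩ := (hN2 ξ x).1 (hDs hx)
    have hlt : ξ < ξ + 1 := lt_add_one ξ
    have hs := hδ.succ_lt hW hξδ
    obtain ⟨x₁, x₂, _, h1, _, h2, _⟩ := (hch.sp ξ (ξ + 1) hlt hs).2 x hxT
    have hw : ZFSet.pair (ξ + 1).toZFSet x₁ ∈ Nd := (hN2 _ _).2 ⟨hs, h1⟩
    refine hDu (rl_ctb hW hδ hg hch hNd hnd hRl hrl hw hD fun d hd => ?_)
    obtain ⟨ζ, z, rfl, hζ⟩ := hDp d hd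
    rcases lt_trichotomy ζ ξ with h3 | h3 | h3
    · refine (hR _ _ _ _).2 ⟨h3.trans hlt, hDs hd, hw, ?_⟩
      rw [← a7_inter (hch.sp ζ ξ h3 hξδ).1, h2]
      exact hPr _ _ _ _ hd hx h3
    · subst h3
      refine (hR _ _ _ _).2 ⟨hlt, hDs hd, hw, ?_⟩
      rw [h2]
      exact hLv _ _ _ hx hd
    · exact absurd hd (hcon ζ z h3)
  have hNx : ∀ (ξ : Ordinal.{0}) (x : ZFSet.{0}), ZFSet.pair ξ.toZFSet x ∈ D →
      ∃ (η : Ordinal.{0}) (z : ZFSet.{0}), ξ < η ∧ ZFSet.pair η.toZFSet z ∈ D ∧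
        ∀ (ζ : Ordinal.{0}) (t : ZFSet.{0}), ZFSet.pair ζ.toZFSet t ∈ D → ξ < ζ → ¬ ζ < η := by
    intro ξ x hx
    have hne : ({η : Ordinal.{0} | ξ < η ∧ ∃ y, ZFSet.pair η.toZFSet y ∈ D}).Nonempty := by
      obtain ⟨η, y, h1, h2⟩ := hU ξ x hx
      exact ⟨η, h1, y, h2⟩
    obtain ⟨h1, z, h2⟩ := csInf_mem hne
    refine ⟨_, z, h1, h2, fun ζ t ht h3 h4 => ?_⟩
    exact notMem_of_lt_csInf' h4 ⟨h3, t, ht⟩
  have hF1 : ∀ w u : W, A7F ⟨D, hD⟩ ⟨Rl, hRl⟩ w u → ∃ (ξ η : Ordinal.{0}) (x y z : ZFSet.{0}),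
      u.1 = ZFSet.pair ξ.toZFSet x ∧ w.1 = ZFSet.pair η.toZFSet y ∧ ZFSet.pair ξ.toZFSet x ∈ D ∧
      ZFSet.pair η.toZFSet z ∈ D ∧ ξ < η ∧ ZFSet.pair η.toZFSet y ∈ Nd ∧
      y ∩ ap g ξ.toZFSet = x ∧
      ∀ (ζ : Ordinal.{0}) (t : ZFSet.{0}), ZFSet.pair ζ.toZFSet t ∈ D → ξ < ζ → ¬ ζ < η := by
    rintro w u ⟨hu, u', hu', ⟨e, y, z, hw, hu'e⟩, h1, h2, h3⟩
    obtain ⟨ξ, η, x, y0, h4, h5, h6, h7, h8⟩ := (hrl _).1 h1
    rw [ZFSet.pair_inj] at h8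
    have he : e.1 = η.toZFSet := (ZFSet.pair_inj.1 (hw.symm.trans h8.2)).1
    have huD : ZFSet.pair ξ.toZFSet x ∈ D := by
      rw [← h8.1]; exact hu
    have hu'D : ZFSet.pair η.toZFSet z.1 ∈ D := by
      rw [← he, ← hu'e]; exact hu'
    refine ⟨ξ, η, x, y0, z.1, h8.1, h8.2, huD, hu'D, h4, h6, h7, fun ζ t ht h9 h10 => ?_⟩
    refine h3 ⟨_, hW.mem_of_mem hD ht⟩ ht ?_ ?_
    · show ZFSet.pair u.1 (ZFSet.pair ζ.toZFSet t) ∈ Rl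
      rw [h8.1]
      exact (hR _ _ _ _).2 ⟨h9, hDs huD, hDs ht, hPr _ _ _ _ huD ht h9⟩
    · show ZFSet.pair (ZFSet.pair ζ.toZFSet t) u'.1 ∈ Rl
      rw [hu'e, he]
      exact (hR _ _ _ _).2 ⟨h10, hDs ht, hDs hu'D, hPr _ _ _ _ ht hu'D h10⟩
  have hF2 : ∀ (w u : W) (ξ η : Ordinal.{0}) (x y z : ZFSet.{0}),
      u.1 = ZFSet.pair ξ.toZFSet x → w.1 = ZFSet.pair η.toZFSet y → ZFSet.pair ξ.toZFSet x ∈ D →
      ZFSet.pair η.toZFSet z ∈ D → ξ < η → ZFSet.pair η.toZFSet y ∈ Nd →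
      y ∩ ap g ξ.toZFSet = x →
      (∀ (ζ : Ordinal.{0}) (t : ZFSet.{0}), ZFSet.pair ζ.toZFSet t ∈ D → ξ < ζ → ¬ ζ < η) →
      A7F ⟨D, hD⟩ ⟨Rl, hRl⟩ w u := by
    intro w u ξ η x y z hu hw huD hzD hlt hyN hyx hadj
    have hzW := hW.mem_of_mem hD hzD
    have hyW := hW.of_pair_mem (hW.mem_of_mem hNd hyN)
    refine ⟨by rw [hu]; exact huD, ⟨_, hzW⟩, hzD, ⟨⟨_, hyW.1⟩, ⟨_, hyW.2⟩,
      ⟨_, (hW.of_pair_mem hzW).2⟩, hw, rfl⟩, ?_, ?_, ?_⟩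
    · rw [hu, hw]
      exact (hR _ _ _ _).2 ⟨hlt, hDs huD, hyN, hyx⟩
    · rw [hu]
      exact (hR _ _ _ _).2 ⟨hlt, hDs huD, hDs hzD, hPr _ _ _ _ huD hzD hlt⟩
    · intro d hd h1 h2
      obtain ⟨ζ, t, hdt, hζ⟩ := hDp d.1 hd
      rw [hu, hdt] at h1
      rw [hdt] at h2
      rw [hdt] at hd
      exact hadj ζ t hd ((hR _ _ _ _).1 h1).1 ((hR _ _ _ _).1 h2).1
  have hFd := a7F_dfn hW ⟨D, hD⟩ ⟨Rl, hRl⟩
  obtain ⟨D', hD'W, hD'⟩ := hW.exists_sep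
    (P := fun w => ¬ w.1 ∈ (⟨D, hD⟩ : W).1 ∧ ∃ u : W, A7F ⟨D, hD⟩ ⟨Rl, hRl⟩ w u) (by
      refine Dfn.and (Dfn.not (Dfn.mem (DT.var _) (DT.const _))) (Dfn.ex ?_)
      exact Dfn.subst2 hFd (DT.var _) (DT.var _)) hNd
  refine ⟨D', hD'W, fun w hw => ((hD' w).1 hw).1, ?_, fun hcD' => hDu ?_⟩
  · -- antichain
    intro w hw w' hw' hww
    obtain ⟨hwN, hwW, hwD, u, hu⟩ := (hD' w).1 hw
    obtain ⟨hwN', hwW', hwD', u', hu'⟩ := (hD' w').1 hw'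
    obtain ⟨ξ, η, x, y, z, h1, h2, h3, h4, h5, h6, h7, h8⟩ := hF1 _ _ hu
    obtain ⟨ξ', η', x', y', z', h1', h2', h3', h4', h5', h6', h7', h8'⟩ := hF1 _ _ hu'
    have h2 : w = ZFSet.pair η.toZFSet y := h2
    have h2' : w' = ZFSet.pair η'.toZFSet y' := h2'
    subst h2
    subst h2'
    obtain ⟨hlt, _, _, hyy⟩ := (hR _ _ _ _).1 hww
    have hle : η ≤ ξ' := by
      by_contra hcon
      push Not at hcon
      exact h8' η z h4 hcon hlt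
    have hyz : y = z := by
      rcases hle.lt_or_eq with h9 | h9
      · have hξδ' : ξ' < δ := ((hN2 _ _).1 (hDs h3')).1
        rw [← hyy, ← a7_inter (hch.sp η ξ' h9 hξδ').1, h7']
        exact hPr _ _ _ _ h4 h3' h9
      · subst h9
        rw [← hyy, h7']
        exact hLv _ _ _ h3' h4
    have hyD : ZFSet.pair η.toZFSet y ∈ D := by rw [hyz]; exact h4
    exact hwD hyD
  · -- uncountable
    refine Ctb.image hW hcD' hD'W (F := fun w u => A7F ⟨D, hD⟩ ⟨Rl, hRl⟩ w u) hFd ?_ ?_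
    · intro w hw u u' hu hu'
      obtain ⟨ξ, η, x, y, z, h1, h2, h3, h4, h5, h6, h7, h8⟩ := hF1 _ _ hu
      obtain ⟨ξ', η', x', y', z', h1', h2', h3', h4', h5', h6', h7', h8'⟩ := hF1 _ _ hu'
      have h9 := h2.symm.trans h2'
      rw [ZFSet.pair_inj, toZFSet_inj] at h9
      obtain ⟨rfl, rfl⟩ := h9
      have hξ : ξ = ξ' := by
        rcases lt_trichotomy ξ ξ' with h10 | h10 | h10
        · exact (h8 _ _ h3' h10 h5').elim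
        · exact h10
        · exact (h8' _ _ h3 h10 h5).elim
      subst hξ
      apply Subtype.ext
      rw [h1, h1', ← h7, ← h7']
    · intro u hu
      obtain ⟨ξ, x, rfl, hξ⟩ := hDp u hu
      obtain ⟨η, z, h1, h2, h3⟩ := hNx ξ x hu
      have hηδ : η < δ := ((hN2 _ _).1 (hDs h2)).1
      obtain ⟨x₁, x₂, hne, h4, h5, h6, h7⟩ := (hch.sp ξ η h1 hηδ).2 x ((hN2 _ _).1 (hDs hu)).2
      obtain ⟨y, hyT, hyx, hyD⟩ : ∃ y, ZFSet.pair (ap g η.toZFSet) y ∈ T ∧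
          y ∩ ap g ξ.toZFSet = x ∧ ZFSet.pair η.toZFSet y ∉ D := by
        by_cases h8 : ZFSet.pair η.toZFSet x₁ ∈ D
        · refine ⟨x₂, h5, h7, fun h9 => hne (hLv _ _ _ h8 h9)⟩
        · exact ⟨x₁, h4, h6, h8⟩
      have hyN : ZFSet.pair η.toZFSet y ∈ Nd := (hN2 _ _).2 ⟨hηδ, hyT⟩
      have hyW := hW.mem_of_mem hNd hyN
      have huW := hW.mem_of_mem hD hu
      have hF := hF2 ⟨_, hyW⟩ ⟨_, huW⟩ ξ η x y z rfl rfl hu h2 h1 hyN hyx h3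
      exact ⟨⟨_, hyW⟩, ⟨_, huW⟩, (hD' _).2 ⟨hyN, hyW, hyD, _, hF⟩, rfl, hF⟩

end Pool.Agent.H95.KT
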