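import Pool.Agent.H95.KT.A6

/-!
# From an antichain of nodes to an `Inc` set (job KT-08)

`E = {(g ξ, x) : (ξ, x) ∈ D}` (separation from `T`).
`Inc E`: let `(a, x) = (g ξ, x)`, `(a', x') = (g η, x')`, `(ξ, x), (η, x') ∈ D`, `(a, x) ≠ (a', x')`; if `ξ = η` then `a = a'`, `x ∩ a = x`,
`x' ∩ a = x'` (`x ⊆ a` by `Ap.sub`) are different. If `ξ < η`: `x ∩ g η = x` (`g ξ ⊆ g η`) and `x' ∩ g ξ = x` would be
`(ξ, x) < (η, x')`. Symmetric for `η < ξ`. Uncountable: `(g ξ, x) ↦ (ξ, x)` is a function on `E` (if `g ξ = g η`, `ξ < η`, then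
`x ∩ g ξ = x`, so `(ξ, x) < (η, x)`: impossible in `D`), so `Ctb.image`.
-/

set_option autoImplicit false
set_option linter.unusedVariables false
set_option linter.unusedSectionVars false
set_option linter.unusedSimpArgs false
set_option linter.unusedTactic false
set_option linter.unreachableTactic false

namespace Pool.Agent.H95.KT

open Pool.Agent.H17.Omega Pool.Agent.H17.Omega.CTM Pool.Agent.H52.GX Pool.Agent.H52.GC Pool.Agent.H7.IG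

variable {W : Set ZFSet.{0}} {X C T : ZFSet.{0}} {δ : Ordinal.{0}}

theorem anti_E (hW : CTM W) (hδ : IsOm1 W δ) (hC : C ∈ W) (hT : T ∈ W) (hAp : Ap C T) {g Nd Rl : ZFSet.{0}}
    (hg : g ∈ W) (hch : Chn C T δ g) (hNd : Nd ∈ W) (hnd : IsNd T δ g Nd) (hrl : IsRl g Nd Rl)
    {D : ZFSet.{0}} (hD : D ∈ W) (hDs : D ⊆ Nd) (hDa : ∀ x ∈ D, ∀ y ∈ D, ZFSet.pair x y ∉ Rl)
    (hDu : ¬ Ctb W D) : ∃ E ∈ W, E ⊆ T ∧ Inc E ∧ ¬ Ctb W E := by
  obtain ⟨gN, hgN⟩ : ∃ z : W, z.1 = g := ⟨⟨_, hg⟩, rfl⟩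
  obtain ⟨DN, hDN⟩ : ∃ z : W, z.1 = D := ⟨⟨_, hD⟩, rfl⟩
  obtain ⟨E, hE, hiff⟩ := hW.exists_sep (P := fun z => ∃ a b x p : W, z.1 = ZFSet.pair a.1 x.1 ∧
    ZFSet.pair b.1 a.1 ∈ gN.1 ∧ p.1 = ZFSet.pair b.1 x.1 ∧ p.1 ∈ DN.1) (by
    show hW.Dfn (fun v : Fin 1 → W => ∃ a b x p : W, (v 0).1 = ZFSet.pair a.1 x.1 ∧
      ZFSet.pair b.1 a.1 ∈ gN.1 ∧ p.1 = ZFSet.pair b.1 x.1 ∧ p.1 ∈ DN.1)
    (repeat' first
      | exact DT.var _ | exact DT.last | exact DT.const _ | assumption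
      | refine Dfn.pairMem ?_ ?_ ?_ | refine Dfn.isPair ?_ ?_ ?_ | refine Dfn.mem ?_ ?_
      | refine Dfn.eqv ?_ ?_ | refine Dfn.eq ?_ ?_ | refine Dfn.subset ?_ ?_
      | refine Dfn.isEmpty ?_ | refine Dfn.isTrans ?_ | refine Dfn.isOrd ?_ | refine Dfn.isNat ?_
      | refine Dfn.isUpair ?_ ?_ ?_ | refine Dfn.isInsert ?_ ?_ ?_
      | refine Dfn.and ?_ ?_ | refine Dfn.or ?_ ?_ | refine Dfn.iff ?_ ?_ | refine Dfn.not ?_
      | refine Dfn.imp ?_ ?_ | refine Dfn.all ?_ | refine Dfn.ex ?_ | exact Dfn.false'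
      | refine Dfn.ballZ ?_ ?_ | refine Dfn.bexZ ?_ ?_ | exact Dfn.const _)
    ) hT
  -- description of the members of `E`
  have hord : ∀ {b a : ZFSet.{0}}, ZFSet.pair b a ∈ g → ∃ ξ : Ordinal.{0}, ξ < δ ∧ ξ.toZFSet = b ∧
      ap g ξ.toZFSet = a := by
    intro b a h
    obtain ⟨b', hb', a', _, h4⟩ := hch.fn.sub _ h
    rw [ZFSet.pair_inj] at h4
    rw [← h4.1] at hb'
    obtain ⟨ξ, hξ, hξb⟩ := Ordinal.mem_toZFSet_iff.1 hb'
    refine ⟨ξ, hξ, hξb, ?_⟩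
    rw [hξb]
    exact hch.fn.ap_eq h
  have hmem : ∀ {a x : ZFSet.{0}}, ZFSet.pair a x ∈ E → ∃ ξ : Ordinal.{0}, ξ < δ ∧ ap g ξ.toZFSet = a ∧
      ZFSet.pair ξ.toZFSet x ∈ D := by
    intro a x h
    obtain ⟨h0, _, a', b, x', p, h1, h2, h3, h4⟩ := (hiff _).1 h
    rw [ZFSet.pair_inj] at h1
    rw [hgN] at h2
    rw [hDN] at h4
    obtain ⟨ξ, hξ, e1, e2⟩ := hord h2
    refine ⟨ξ, hξ, e2.trans h1.1.symm, ?_⟩
    rw [e1, h1.2, ← h3]
    exact h4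
  have hsub : ∀ {a x : ZFSet.{0}}, ZFSet.pair a x ∈ T → x ⊆ a := by
    intro a x h
    obtain ⟨a', _, x', _, h1, h2⟩ := hAp.sub _ h
    rw [ZFSet.pair_inj] at h2
    rw [h2.1, h2.2]
    exact h1
  have hT' : ∀ {ξ : Ordinal.{0}} {x : ZFSet.{0}}, ZFSet.pair ξ.toZFSet x ∈ D →
      ZFSet.pair (ap g ξ.toZFSet) x ∈ T := by
    intro ξ x h
    obtain ⟨ξ', _, x', h1, h2⟩ := (hnd _).1 (hDs h)
    rw [ZFSet.pair_inj] at h2
    rw [h2.1, h2.2]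
    exact h1
  have hint : ∀ {x a : ZFSet.{0}}, x ⊆ a → x ∩ a = x := by
    intro x a h
    ext t
    rw [ZFSet.mem_inter]
    exact ⟨fun h1 => h1.1, fun h1 => ⟨h1, h h1⟩⟩
  -- related nodes
  have hno : ∀ {ξ η : Ordinal.{0}} {x y : ZFSet.{0}}, ZFSet.pair ξ.toZFSet x ∈ D →
      ZFSet.pair η.toZFSet y ∈ D → ξ < η → y ∩ ap g ξ.toZFSet ≠ x := by
    intro ξ η x y h1 h2 h3 h4
    exact hDa _ h1 _ h2 ((hrl _).2 ⟨ξ, η, x, y, h3, hDs h1, hDs h2, h4, rfl⟩)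
  refine ⟨E, hE, fun z hz => ((hiff z).1 hz).1, ?_, ?_⟩
  · intro a x a' x' h1 h2 hne heq
    obtain ⟨ξ, hξ, e1, d1⟩ := hmem h1
    obtain ⟨η, hη, e2, d2⟩ := hmem h2
    have hxa : x ⊆ a := hsub (((hiff _).1 h1).1)
    have hxa' : x' ⊆ a' := hsub (((hiff _).1 h2).1)
    rcases lt_trichotomy ξ η with h | h | h
    · have h3 : a ⊆ a' := by
        rw [← e1, ← e2]
        exact (hch.sp ξ η h hη).1
      have h4 : x ⊆ a' := fun t ht => h3 (hxa ht)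
      rw [hint h4] at heq
      apply hno d1 d2 h
      rw [e1]
      exact heq.symm
    · have h3 : a = a' := by rw [← e1, ← e2, h]
      rw [← h3] at heq hxa' hne
      rw [hint hxa, hint hxa'] at heq
      rcases hne with hne | hne
      · exact hne rfl
      · exact hne heq
    · have h3 : a' ⊆ a := by
        rw [← e1, ← e2]
        exact (hch.sp η ξ h hξ).1
      have h4 : x' ⊆ a := fun t ht => h3 (hxa' ht)
      rw [hint h4] at heq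
      apply hno d2 d1 h
      rw [e2]
      exact heq
  · intro hc
    apply hDu
    refine Ctb.image hW hc hE (F := fun z p => ∃ a b x : W, z.1 = ZFSet.pair a.1 x.1 ∧
      ZFSet.pair b.1 a.1 ∈ gN.1 ∧ p.1 = ZFSet.pair b.1 x.1 ∧ p.1 ∈ DN.1) ?_ ?_ ?_
    · show hW.Dfn (fun v : Fin 2 → W => ∃ a b x : W, (v 0).1 = ZFSet.pair a.1 x.1 ∧
        ZFSet.pair b.1 a.1 ∈ gN.1 ∧ (v 1).1 = ZFSet.pair b.1 x.1 ∧ (v 1).1 ∈ DN.1)
      (repeat' first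
      | exact DT.var _ | exact DT.last | exact DT.const _ | assumption
      | refine Dfn.pairMem ?_ ?_ ?_ | refine Dfn.isPair ?_ ?_ ?_ | refine Dfn.mem ?_ ?_
      | refine Dfn.eqv ?_ ?_ | refine Dfn.eq ?_ ?_ | refine Dfn.subset ?_ ?_
      | refine Dfn.isEmpty ?_ | refine Dfn.isTrans ?_ | refine Dfn.isOrd ?_ | refine Dfn.isNat ?_
      | refine Dfn.isUpair ?_ ?_ ?_ | refine Dfn.isInsert ?_ ?_ ?_
      | refine Dfn.and ?_ ?_ | refine Dfn.or ?_ ?_ | refine Dfn.iff ?_ ?_ | refine Dfn.not ?_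
      | refine Dfn.imp ?_ ?_ | refine Dfn.all ?_ | refine Dfn.ex ?_ | exact Dfn.false'
      | refine Dfn.ballZ ?_ ?_ | refine Dfn.bexZ ?_ ?_ | exact Dfn.const _)
    · rintro z _ p p' ⟨a, b, x, h1, h2, h3, h4⟩ ⟨a', b', x', h1', h2', h3', h4'⟩
      rw [hgN] at h2 h2'
      rw [hDN, h3] at h4
      rw [hDN, h3'] at h4'
      rw [h1, ZFSet.pair_inj] at h1'
      obtain ⟨ξ, hξ, e1, e2⟩ := hord h2
      obtain ⟨η, hη, e1', e2'⟩ := hord h2'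
      rw [← e1] at h4
      rw [← e1', ← h1'.2] at h4'
      rw [← h1'.1] at e2'
      have hxa : x.1 ⊆ a.1 := by
        rw [← e2]
        exact hsub (hT' h4)
      have heq : ξ = η := by
        rcases lt_trichotomy ξ η with h | h | h
        · exfalso
          apply hno h4 h4' h
          rw [e2]
          exact hint hxa
        · exact h
        · exfalso
          apply hno h4' h4 h
          rw [e2']
          exact hint hxa
      apply Subtype.ext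
      rw [h3, h3', ← e1, ← e1', heq, h1'.2]
    · intro p hp
      obtain ⟨ξ, hξ, x, h1, h2⟩ := (hnd _).1 (hDs hp)
      have hξm : ξ.toZFSet ∈ δ.toZFSet := Ordinal.toZFSet_mem_toZFSet_iff.2 hξ
      have hξW : ξ.toZFSet ∈ W := hW.mem_of_mem hδ.mem hξm
      have hpW := hW.mem_of_mem hD hp
      have hzW := hW.mem_of_mem hT h1
      have h5 := hW.of_pair_mem hzW
      have h6 := (hch.fn.ap_mem hξm).2
      refine ⟨⟨_, hzW⟩, ⟨p, hpW⟩, ?_, rfl, ⟨_, h5.1⟩, ⟨_, hξW⟩, ⟨x, h5.2⟩, rfl, ?_, h2, ?_⟩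
      · refine (hiff _).2 ⟨h1, hzW, ⟨_, h5.1⟩, ⟨_, hξW⟩, ⟨x, h5.2⟩, ⟨p, hpW⟩, rfl, ?_, h2, ?_⟩
        · rw [hgN]; exact h6
        · rw [hDN]; exact hp
      · rw [hgN]; exact h6
      · rw [hDN]; exact hp

end Pool.Agent.H95.KT
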