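import Pool.Agent.H95.KT.Defs

/-!
# Forcing the properties of `T'` and of the name `β` (job KT-10)

`PrT.forced`: `Frc.truth` for the uniformly definable predicate `Ψ N v := PrT (v 0).1 (v 1).1 (v 2).1` (arguments `Ar.g C`,
`Ar.n τ`, `Ar.n ε`). `ud_PrT`: unfold the structures (`Ap`, `PrT`) into conjunctions; write `(a', x ∩ a') ∈ T` as
`∀ y, (∀ z, z ∈ y ↔ z ∈ x ∧ z ∈ a') → (a', y) ∈ T` (over ctms `x ∩ a'` is in the model), `∃ n : ℕ, (.. natZ n ..)` as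
`∃ n, IsNatZ n ∧ ..` (`isNatZ_iff`), `ZFSet.pair (ZFSet.pair a n) x ∈ E` as `∃ p, p = pair a n ∧ pair p x ∈ E`.
All quantifiers over `ZFSet` may be restricted to the model because `T`, `E`, `C` are elements of the (transitive) model.
`Nb X C P b` is the statement on `b`: `b ⊆ X`, `b ∉ P`, all `b ∩ a`, `a ∈ C`, are in `C`.
-/

set_option autoImplicit false
set_option linter.unusedVariables false
set_option linter.unusedSectionVars false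
set_option linter.unusedSimpArgs false
set_option linter.unusedTactic false
set_option linter.unreachableTactic false

namespace Pool.Agent.H95.KT

open Pool.Agent.H17.Omega Pool.Agent.H17.Omega.CTM Pool.Agent.H52.GX Pool.Agent.H52.GC Pool.Agent.H7.IG

variable {W : Set ZFSet.{0}} {S G : ZFSet.{0}}

/-- The property of the new set. -/
structure Nb (X C P b : ZFSet.{0}) : Prop where
  sub : b ⊆ X
  nmem : b ∉ P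
  cap : ∀ a ∈ C, b ∩ a ∈ C

/-- `PrT` with quantifiers over a transitive structure. -/
def f2PrT (N : Set ZFSet.{0}) (C T E : ZFSet.{0}) : Prop :=
  (∀ z ∈ T, ∃ a ∈ C, ∃ x ∈ C, x ⊆ a ∧ z = ZFSet.pair a x) ∧
  (∀ a x : N, ZFSet.pair a.1 x.1 ∈ T → ∀ a' ∈ C, a' ⊆ a.1 → ∃ y : N, ZFSet.pair a' y.1 ∈ T ∧
    (∀ z ∈ y.1, z ∈ x.1 ∧ z ∈ a') ∧ (∀ z ∈ x.1, z ∈ a' → z ∈ y.1)) ∧
  (∀ a ∈ C, ∃ x : N, ZFSet.pair a x.1 ∈ T) ∧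
  (∀ a x : N, ZFSet.pair a.1 x.1 ∈ T → ∃ n : N, IsNatZ n.1 ∧ ∃ p : N, p.1 = ZFSet.pair a.1 n.1 ∧
    ZFSet.pair p.1 x.1 ∈ E) ∧
  (∀ p x x' : N, ZFSet.pair p.1 x.1 ∈ E → ZFSet.pair p.1 x'.1 ∈ E → x.1 = x'.1)

theorem f2_ud : UD CtmC (fun N (v : Fin 3 → N) => f2PrT N (v 0).1 (v 1).1 (v 2).1) := by
  unfold f2PrT
  (repeat' first
      | exact UT.var _ | exact UT.last | assumption
      | refine UD.pairMem ?_ ?_ ?_ | refine UD.isPair ?_ ?_ ?_ | refine UD.mem ?_ ?_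
      | refine UD.eqv ?_ ?_ | refine UD.eq ?_ ?_ | refine UD.subset ?_ ?_
      | refine UD.isEmpty ?_ | refine UD.isTrans ?_ | refine UD.isOrd ?_ | refine UD.isNat ?_
      | refine UD.isUpair ?_ ?_ ?_ | refine UD.isInsert ?_ ?_ ?_ | refine UD.isUnion ?_ ?_ ?_
      | refine UD.and ?_ ?_ | refine UD.or ?_ ?_ | refine UD.iff ?_ ?_ | refine UD.not ?_
      | refine UD.imp ?_ ?_ | refine UD.all ?_ | refine UD.ex ?_ | exact UD.false' | exact UD.true'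
      | refine UD.ball ?_ ?_ | refine UD.bex ?_ ?_)

theorem f2_pair_mem {N : Set ZFSet.{0}} (hN : Tra N) {T a x : ZFSet.{0}} (hT : T ∈ N)
    (h : ZFSet.pair a x ∈ T) : a ∈ N ∧ x ∈ N := by
  have h1 := hN _ hT _ h
  have h2 : ({a, x} : ZFSet.{0}) ∈ N := by
    refine hN _ h1 _ ?_
    rw [ZFSet.pair]
    simp
  exact ⟨hN _ h2 _ (by simp), hN _ h2 _ (by simp)⟩

theorem f2_iff {N : Set ZFSet.{0}} (hN : Tra N) {C T E : ZFSet.{0}} (hC : C ∈ N) (hT : T ∈ N) (hE : E ∈ N) :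
    f2PrT N C T E ↔ PrT C T E := by
  constructor
  · rintro ⟨h1, h2, h3, h4, h5⟩
    refine ⟨⟨h1, ?_, ?_⟩, ?_, ?_⟩
    · intro a x hax a' ha' hs
      obtain ⟨ha, hx⟩ := f2_pair_mem hN hT hax
      obtain ⟨y, hy, hy1, hy2⟩ := h2 ⟨a, ha⟩ ⟨x, hx⟩ hax a' ha' hs
      have : y.1 = x ∩ a' := by
        ext z
        rw [ZFSet.mem_inter]
        exact ⟨hy1 z, fun h => hy2 z h.1 h.2⟩
      rw [← this]
      exact hy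
    · intro a ha
      obtain ⟨x, hx⟩ := h3 a ha
      exact ⟨x.1, hx⟩
    · intro a x hax
      obtain ⟨ha, hx⟩ := f2_pair_mem hN hT hax
      obtain ⟨n, hn, p, hp, hpx⟩ := h4 ⟨a, ha⟩ ⟨x, hx⟩ hax
      obtain ⟨m, hm⟩ := isNatZ_iff.1 hn
      refine ⟨m, ?_⟩
      rw [← hm, ← hp]
      exact hpx
    · intro p x x' h h'
      obtain ⟨hp, hx⟩ := f2_pair_mem hN hE h
      obtain ⟨_, hx'⟩ := f2_pair_mem hN hE h'
      exact h5 ⟨p, hp⟩ ⟨x, hx⟩ ⟨x', hx'⟩ h h'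
  · rintro ⟨⟨h1, h2, h3⟩, h4, h5⟩
    refine ⟨h1, ?_, ?_, ?_, ?_⟩
    · intro a x hax a' ha' hs
      have h6 := h2 a.1 x.1 hax a' ha' hs
      refine ⟨⟨x.1 ∩ a', (f2_pair_mem hN hT h6).2⟩, h6, fun z hz => ?_, fun z hz hz' => ?_⟩
      · exact ZFSet.mem_inter.1 hz
      · exact ZFSet.mem_inter.2 ⟨hz, hz'⟩
    · intro a ha
      obtain ⟨x, hx⟩ := h3 a ha
      exact ⟨⟨x, (f2_pair_mem hN hT hx).2⟩, hx⟩
    · intro a x hax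
      obtain ⟨n, hn⟩ := h4 a.1 x.1 hax
      obtain ⟨hp, _⟩ := f2_pair_mem hN hE hn
      have h7 := hN _ hp {a.1, natZ n} (by rw [ZFSet.pair]; simp)
      have h8 := hN _ h7 (natZ n) (by simp)
      exact ⟨⟨natZ n, h8⟩, isNatZ_iff.2 ⟨n, rfl⟩, ⟨_, hp⟩, rfl, hn⟩
    · intro p x x' h h'
      exact h5 _ _ _ h h'

theorem ud_PrT : UD CtmC (fun N (v : Fin 3 → N) => PrT (v 0).1 (v 1).1 (v 2).1) :=
  f2_ud.congr fun N hN v => f2_iff (ctmC_sub hN) (v 0).2 (v 1).2 (v 2).2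

theorem f2_nb {X C P b : ZFSet.{0}} : (b ⊆ X ∧ ¬ b ∈ P ∧ ∀ a ∈ C, ∃ y ∈ C, (∀ z ∈ y, z ∈ b ∧ z ∈ a) ∧
    (∀ z ∈ b, z ∈ a → z ∈ y)) ↔ Nb X C P b := by
  constructor
  · rintro ⟨h1, h2, h3⟩
    refine ⟨h1, h2, fun a ha => ?_⟩
    obtain ⟨y, hy, hy1, hy2⟩ := h3 a ha
    have : y = b ∩ a := by
      ext z
      rw [ZFSet.mem_inter]
      exact ⟨hy1 z, fun h => hy2 z h.1 h.2⟩
    rw [← this]
    exact hy
  · rintro ⟨h1, h2, h3⟩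
    refine ⟨h1, h2, fun a ha => ⟨_, h3 a ha, fun z hz => ZFSet.mem_inter.1 hz,
      fun z hz hz' => ZFSet.mem_inter.2 ⟨hz, hz'⟩⟩⟩

theorem ud_Nb : UD CtmC (fun N (v : Fin 4 → N) => Nb (v 0).1 (v 1).1 (v 2).1 (v 3).1) := by
  refine UD.congr (P := fun N (v : Fin 4 → N) => ((v 3).1 ⊆ (v 0).1 ∧ ¬ (v 3).1 ∈ (v 2).1 ∧
    ∀ a ∈ (v 1).1, ∃ y ∈ (v 1).1, (∀ z ∈ y, z ∈ (v 3).1 ∧ z ∈ a) ∧ (∀ z ∈ (v 3).1, z ∈ a → z ∈ y))) ?_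
    fun N hN v => f2_nb
  (repeat' first
      | exact UT.var _ | exact UT.last | assumption
      | refine UD.pairMem ?_ ?_ ?_ | refine UD.isPair ?_ ?_ ?_ | refine UD.mem ?_ ?_
      | refine UD.eqv ?_ ?_ | refine UD.eq ?_ ?_ | refine UD.subset ?_ ?_
      | refine UD.isEmpty ?_ | refine UD.isTrans ?_ | refine UD.isOrd ?_ | refine UD.isNat ?_
      | refine UD.isUpair ?_ ?_ ?_ | refine UD.isInsert ?_ ?_ ?_ | refine UD.isUnion ?_ ?_ ?_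
      | refine UD.and ?_ ?_ | refine UD.or ?_ ?_ | refine UD.iff ?_ ?_ | refine UD.not ?_
      | refine UD.imp ?_ ?_ | refine UD.all ?_ | refine UD.ex ?_ | exact UD.false' | exact UD.true'
      | refine UD.ball ?_ ?_ | refine UD.bex ?_ ?_)

theorem PrT.forced (hW : CTM W) (hS : S ∈ W) (hG : Gen W S G) {C τ ε : ZFSet.{0}} (hC : C ∈ W) (hτ : τ ∈ W)
    (hε : ε ∈ W) (h : PrT C (vl G τ) (vl G ε)) :
    ∃ p ∈ G, ∀ G', Gen W S G' → p ∈ G' → PrT C (vl G' τ) (vl G' ε) := by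
  have h1 := (Frc.truth ud_PrT hW hS hG ![Ar.g ⟨C, hC⟩, Ar.n ⟨τ, hτ⟩, Ar.n ⟨ε, hε⟩]
    ![⟨C, hG.sub_xt hW hS hC⟩, ⟨vl G τ, ⟨τ, hτ, rfl⟩⟩, ⟨vl G ε, ⟨ε, hε, rfl⟩⟩]
    (by intro i; fin_cases i <;> rfl)).1 h
  obtain ⟨p, hp, h2⟩ := h1
  refine ⟨p, hp, fun G' hG' hp' => ?_⟩
  exact h2 G' hG' hp' ![⟨C, hG'.sub_xt hW hS hC⟩, ⟨vl G' τ, ⟨τ, hτ, rfl⟩⟩, ⟨vl G' ε, ⟨ε, hε, rfl⟩⟩]
    (by intro i; fin_cases i <;> rfl)

theorem Nb.forced (hW : CTM W) (hS : S ∈ W) (hG : Gen W S G) {X C P β : ZFSet.{0}} (hX : X ∈ W) (hC : C ∈ W)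
    (hP : P ∈ W) (hβ : β ∈ W) (h : Nb X C P (vl G β)) :
    ∃ p ∈ G, ∀ G', Gen W S G' → p ∈ G' → Nb X C P (vl G' β) := by
  have h1 := (Frc.truth ud_Nb hW hS hG ![Ar.g ⟨X, hX⟩, Ar.g ⟨C, hC⟩, Ar.g ⟨P, hP⟩, Ar.n ⟨β, hβ⟩]
    ![⟨X, hG.sub_xt hW hS hX⟩, ⟨C, hG.sub_xt hW hS hC⟩, ⟨P, hG.sub_xt hW hS hP⟩, ⟨vl G β, ⟨β, hβ, rfl⟩⟩]
    (by intro i; fin_cases i <;> rfl)).1 h
  obtain ⟨p, hp, h2⟩ := h1
  refine ⟨p, hp, fun G' hG' hp' => ?_⟩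
  exact h2 G' hG' hp' ![⟨X, hG'.sub_xt hW hS hX⟩, ⟨C, hG'.sub_xt hW hS hC⟩, ⟨P, hG'.sub_xt hW hS hP⟩,
    ⟨vl G' β, ⟨β, hβ, rfl⟩⟩] (by intro i; fin_cases i <;> rfl)

end Pool.Agent.H95.KT
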