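import Pool.Agent.H95.KT.F1
import Pool.Agent.H95.KT.F2

/-!
# The tree of possible restrictions: definitions

`V` is a ctm, `R ∈ V` is ccc in `V`, `β ∈ V` an `R`-name, `k₀` forces `Nb X C P β`; `X, C, P ∈ W ⊆ V`.
`T' = {(a, x) : a, x ∈ C, x ⊆ a`, some `k ∈ R`, `k₀ ⊆ k`, forces `β ∩ a = x}`.
-/

set_option autoImplicit false
set_option linter.unusedVariables false
set_option linter.unusedSectionVars false
set_option linter.unusedSimpArgs false
set_option linter.unusedTactic false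
set_option linter.unreachableTactic false

namespace Pool.Agent.H95.KT

open Pool.Agent.H17.Omega Pool.Agent.H17.Omega.CTM Pool.Agent.H52.GX Pool.Agent.H52.GC Pool.Agent.H7.IG

/-- The context: `k₀` forces that `β` is a new subset of `X` all of whose restrictions to members of `C` are old. -/
structure KC (W V : Set ZFSet.{0}) (X C P R β k₀ : ZFSet.{0}) : Prop where
  hW : CTM W
  hV : CTM V
  sub : W ⊆ V
  hX : X ∈ W
  hC : C ∈ W
  hP : P ∈ W
  cs : IsCs W X C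
  pow : ∀ z, z ∈ P ↔ z ∈ W ∧ z ⊆ X
  hR : R ∈ V
  hβ : β ∈ V
  hk : k₀ ∈ R
  frc : ∀ K, Gen V R K → k₀ ∈ K → Nb X C P (vl K β)
  ccc : Ccc V R

/-- The set `T'`. -/
def IsT (V : Set ZFSet.{0}) (C R β k₀ T : ZFSet.{0}) : Prop :=
  ∀ z, z ∈ T ↔ ∃ a ∈ C, ∃ x ∈ C, x ⊆ a ∧ z = ZFSet.pair a x ∧ ∃ k ∈ R, k₀ ⊆ k ∧ Fi V R k β a x

end Pool.Agent.H95.KT
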