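import Pool.Agent.H7.IG.KeyD

/-!
# Key theorem of project IG (MP_109426_lc): definitions

`C` is the set of the `W`-countable subsets of `X` (`IsCs W X C`), `T` a set of pairs `(a, x)`, `a ∈ C`, `x ⊆ a`
(`Ap C T`: closed under restriction, nonempty levels).  The level of `a` is `{x : (a, x) ∈ T}`.
-/

set_option autoImplicit false
set_option linter.unusedVariables false
set_option linter.unusedSectionVars false
set_option linter.unusedSimpArgs false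
set_option linter.unusedTactic false
set_option linter.unreachableTactic false

namespace Pool.Agent.H95.KT

open Pool.Agent.H17.Omega Pool.Agent.H17.Omega.CTM Pool.Agent.H52.GX Pool.Agent.H52.GC Pool.Agent.H7.IG

/-- `C` is the set of the countable subsets of `X` in `W`. -/
def IsCs (W : Set ZFSet.{0}) (X C : ZFSet.{0}) : Prop := ∀ a, a ∈ C ↔ a ∈ W ∧ a ⊆ X ∧ Ctb W a

/-- `T` is a set of pairs `(a, x)`, `a ∈ C`, `x ⊆ a`, closed under restriction, with nonempty levels. -/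
structure Ap (C T : ZFSet.{0}) : Prop where
  sub : ∀ z ∈ T, ∃ a ∈ C, ∃ x ∈ C, x ⊆ a ∧ z = ZFSet.pair a x
  res : ∀ a x, ZFSet.pair a x ∈ T → ∀ a' ∈ C, a' ⊆ a → ZFSet.pair a' (x ∩ a') ∈ T
  ne : ∀ a ∈ C, ∃ x, ZFSet.pair a x ∈ T

/-- The levels of `T` are countable in `W`. -/
def LC (W : Set ZFSet.{0}) (C T : ZFSet.{0}) : Prop :=
  ∀ a ∈ C, ∃ L ∈ W, Ctb W L ∧ ∀ x, x ∈ L ↔ ZFSet.pair a x ∈ T

/-- Every node of `T` has extensions in all higher levels. -/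
def ExtP (C T : ZFSet.{0}) : Prop :=
  ∀ a x, ZFSet.pair a x ∈ T → ∀ a' ∈ C, a ⊆ a' → ∃ x', ZFSet.pair a' x' ∈ T ∧ x' ∩ a = x

/-- Every node of level `a` has two extensions in level `a'`. -/
def Sp (T a a' : ZFSet.{0}) : Prop :=
  a ⊆ a' ∧ ∀ x, ZFSet.pair a x ∈ T → ∃ x₁ x₂, x₁ ≠ x₂ ∧ ZFSet.pair a' x₁ ∈ T ∧ ZFSet.pair a' x₂ ∈ T ∧
    x₁ ∩ a = x ∧ x₂ ∩ a = x

/-- A set of pairwise incompatible pairs. -/
def Inc (E : ZFSet.{0}) : Prop :=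
  ∀ a x a' x', ZFSet.pair a x ∈ E → ZFSet.pair a' x' ∈ E → (a ≠ a' ∨ x ≠ x') → x ∩ a' ≠ x' ∩ a

/-- `B ⊆ X` is a branch of `T`. -/
def Br (X C T B : ZFSet.{0}) : Prop := B ⊆ X ∧ ∀ a ∈ C, ZFSet.pair a (B ∩ a) ∈ T

/-- `g` is a chain of length `δ` with splitting between any two members. -/
structure Chn (C T : ZFSet.{0}) (δ : Ordinal.{0}) (g : ZFSet.{0}) : Prop where
  fn : Fn g δ.toZFSet C
  sp : ∀ ξ η : Ordinal.{0}, ξ < η → η < δ → Sp T (ap g ξ.toZFSet) (ap g η.toZFSet)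

/-- The nodes of `T` over the chain `g`: pairs `(ξ, x)` with `(g ξ, x) ∈ T`. -/
def IsNd (T : ZFSet.{0}) (δ : Ordinal.{0}) (g Nd : ZFSet.{0}) : Prop :=
  ∀ z, z ∈ Nd ↔ ∃ ξ : Ordinal.{0}, ξ < δ ∧ ∃ x, ZFSet.pair (ap g ξ.toZFSet) x ∈ T ∧
    z = ZFSet.pair ξ.toZFSet x

/-- The tree order on the nodes: `(ξ, x) < (η, y)` iff `ξ < η` and `y ∩ g ξ = x`. -/
def IsRl (g Nd Rl : ZFSet.{0}) : Prop :=
  ∀ z, z ∈ Rl ↔ ∃ (ξ η : Ordinal.{0}) (x y : ZFSet.{0}), ξ < η ∧ ZFSet.pair ξ.toZFSet x ∈ Nd ∧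
    ZFSet.pair η.toZFSet y ∈ Nd ∧ y ∩ ap g ξ.toZFSet = x ∧
    z = ZFSet.pair (ZFSet.pair ξ.toZFSet x) (ZFSet.pair η.toZFSet y)

/-- The set `T'` with the enumeration `E` of its levels. -/
structure PrT (C T E : ZFSet.{0}) : Prop where
  ap : Ap C T
  enum : ∀ a x, ZFSet.pair a x ∈ T → ∃ n : ℕ, ZFSet.pair (ZFSet.pair a (natZ n)) x ∈ E
  uni : ∀ p x x', ZFSet.pair p x ∈ E → ZFSet.pair p x' ∈ E → x = x'

/-- `p` forces `z ∈ τ` (`z` a ground model element). -/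
def Fm (W : Set ZFSet.{0}) (S p τ z : ZFSet.{0}) : Prop := ∀ G, Gen W S G → p ∈ G → z ∈ vl G τ

/-- `p` forces `z ∉ τ`. -/
def Nm (W : Set ZFSet.{0}) (S p τ z : ZFSet.{0}) : Prop := ∀ G, Gen W S G → p ∈ G → z ∉ vl G τ

/-- `k` forces `β ∩ a = x`. -/
def Fi (V : Set ZFSet.{0}) (R k β a x : ZFSet.{0}) : Prop := ∀ K, Gen V R K → k ∈ K → vl K β ∩ a = x

/-- `k` forces `x ∈ β Δ B`. -/
def Fd (V : Set ZFSet.{0}) (R k β B x : ZFSet.{0}) : Prop :=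
  ∀ K, Gen V R K → k ∈ K → ¬ (x ∈ vl K β ↔ x ∈ B)

end Pool.Agent.H95.KT
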