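import Pool.Agent.H95.KT.Defs

/-!
# Forcing `z ∈ τ`, `z ∉ τ`, `β ∩ a = x`, `x ∈ β Δ B` (job KT-09)

All are instances of `Frc` (Gx3): e.g. `Fm W S p τ z ↔ Frc W S (fun N v => (v 0).1 ∈ (v 1).1) p ![Ar.g z, Ar.n τ]` (the values
`v i` of the arguments are determined: `z ∈ Xt W G` by `Gen.sub_xt`, `vl G τ ∈ Xt W G` by definition).
Truth: `Frc.truth`. Definability: `Frc.dfn2`, `Frc.dfn3`, with `AT.g`, `AT.n`; for `Fi` use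
`Ψ N v := ∀ y ∈ (v 0).1, (y ∈ (v 1).1 ↔ y ∈ (v 2).1)` plus `x ⊆ a`, `x ⊆ β` (arguments `a`, `β`, `x`), e.g.
`(∀ y ∈ x, y ∈ β ∧ y ∈ a) ∧ ∀ y ∈ a, y ∈ β → y ∈ x`.
`fm_nm`, `fi_inc`: take a generic filter containing `u` (`exists_gen`); it contains `p`, `q` (`Gen.up`).
-/

set_option autoImplicit false
set_option linter.unusedVariables false
set_option linter.unusedSectionVars false
set_option linter.unusedSimpArgs false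
set_option linter.unusedTactic false
set_option linter.unreachableTactic false

namespace Pool.Agent.H95.KT

open Pool.Agent.H17.Omega Pool.Agent.H17.Omega.CTM Pool.Agent.H52.GX Pool.Agent.H52.GC Pool.Agent.H7.IG

variable {W : Set ZFSet.{0}} {S G : ZFSet.{0}}

/-! ## Auxiliary lemmas -/

/-- `z ∈ τ`. -/
def PsM (N : Set ZFSet.{0}) (v : Fin 2 → N) : Prop := (v 0).1 ∈ (v 1).1

/-- `z ∉ τ`. -/
def PsN (N : Set ZFSet.{0}) (v : Fin 2 → N) : Prop := ¬ (v 0).1 ∈ (v 1).1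

/-- `β ∩ a = x` for `β, a, x`. -/
def PsI (N : Set ZFSet.{0}) (v : Fin 3 → N) : Prop :=
  (∀ y ∈ (v 2).1, y ∈ (v 0).1 ∧ y ∈ (v 1).1) ∧ ∀ y ∈ (v 1).1, y ∈ (v 0).1 → y ∈ (v 2).1

/-- `x ∈ β Δ B` for `β, B, x`. -/
def PsD (N : Set ZFSet.{0}) (v : Fin 3 → N) : Prop := ¬ ((v 2).1 ∈ (v 0).1 ↔ (v 2).1 ∈ (v 1).1)

theorem ud_PsM : UD CtmC PsM := UD.mem (UT.var _) (UT.var _)

theorem ud_PsN : UD CtmC PsN := UD.not (UD.mem (UT.var _) (UT.var _))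

theorem ud_PsI : UD CtmC PsI := by
  refine UD.and (UD.ball (UT.var _) (UD.and (UD.mem ?_ ?_) (UD.mem ?_ ?_)))
    (UD.ball (UT.var _) (UD.imp (UD.mem ?_ ?_) (UD.mem ?_ ?_))) <;>
  first | exact UT.last | exact UT.var _

theorem ud_PsD : UD CtmC PsD :=
  UD.not (UD.iff (UD.mem (UT.var _) (UT.var _)) (UD.mem (UT.var _) (UT.var _)))

theorem psI_iff {β a x : ZFSet.{0}} :
    ((∀ y ∈ x, y ∈ β ∧ y ∈ a) ∧ ∀ y ∈ a, y ∈ β → y ∈ x) ↔ β ∩ a = x := by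
  constructor
  · rintro ⟨h1, h2⟩
    ext y
    rw [ZFSet.mem_inter]
    exact ⟨fun h => h2 y h.2 h.1, fun h => h1 y h⟩
  · rintro rfl
    exact ⟨fun y hy => ZFSet.mem_inter.1 hy, fun y h1 h2 => ZFSet.mem_inter.2 ⟨h2, h1⟩⟩

theorem fm_frc (hW : CTM W) (hS : S ∈ W) {p : ZFSet.{0}} (τ z : W) :
    Fm W S p τ.1 z.1 ↔ Frc W S PsM p ![Ar.g z, Ar.n τ] := by
  constructor
  · intro h G hG hp v hv
    show (v 0).1 ∈ (v 1).1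
    rw [hv 0, hv 1]
    exact h G hG hp
  · intro h G hG hp
    exact h G hG hp ![⟨z.1, hG.sub_xt hW hS z.2⟩, ⟨vl G τ.1, τ.1, τ.2, rfl⟩]
      (by intro i; fin_cases i <;> rfl)

theorem nm_frc (hW : CTM W) (hS : S ∈ W) {p : ZFSet.{0}} (τ z : W) :
    Nm W S p τ.1 z.1 ↔ Frc W S PsN p ![Ar.g z, Ar.n τ] := by
  constructor
  · intro h G hG hp v hv
    show ¬ (v 0).1 ∈ (v 1).1
    rw [hv 0, hv 1]
    exact h G hG hp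
  · intro h G hG hp
    exact h G hG hp ![⟨z.1, hG.sub_xt hW hS z.2⟩, ⟨vl G τ.1, τ.1, τ.2, rfl⟩]
      (by intro i; fin_cases i <;> rfl)

theorem fi_frc (hW : CTM W) (hS : S ∈ W) {p : ZFSet.{0}} (β a x : W) :
    Fi W S p β.1 a.1 x.1 ↔ Frc W S PsI p ![Ar.n β, Ar.g a, Ar.g x] := by
  constructor
  · intro h G hG hp v hv
    refine psI_iff.2 ?_
    rw [hv 0, hv 1, hv 2]
    exact h G hG hp
  · intro h G hG hp
    exact psI_iff.1 (h G hG hp ![⟨vl G β.1, β.1, β.2, rfl⟩, ⟨a.1, hG.sub_xt hW hS a.2⟩,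
      ⟨x.1, hG.sub_xt hW hS x.2⟩] (by intro i; fin_cases i <;> rfl))

theorem fd_frc (hW : CTM W) (hS : S ∈ W) {p : ZFSet.{0}} (β B x : W) :
    Fd W S p β.1 B.1 x.1 ↔ Frc W S PsD p ![Ar.n β, Ar.g B, Ar.g x] := by
  constructor
  · intro h G hG hp v hv
    show ¬ ((v 2).1 ∈ (v 0).1 ↔ (v 2).1 ∈ (v 1).1)
    rw [hv 0, hv 1, hv 2]
    exact h G hG hp
  · intro h G hG hp
    exact h G hG hp ![⟨vl G β.1, β.1, β.2, rfl⟩, ⟨B.1, hG.sub_xt hW hS B.2⟩,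
      ⟨x.1, hG.sub_xt hW hS x.2⟩] (by intro i; fin_cases i <;> rfl)

/-! ## The results -/

theorem Fm.mono {p q τ z : ZFSet.{0}} (h : Fm W S p τ z) (hp : p ∈ S) (hpq : p ⊆ q) : Fm W S q τ z :=
  fun G hG hq => h G hG (hG.up q hq p hp hpq)

theorem Nm.mono {p q τ z : ZFSet.{0}} (h : Nm W S p τ z) (hp : p ∈ S) (hpq : p ⊆ q) : Nm W S q τ z :=
  fun G hG hq => h G hG (hG.up q hq p hp hpq)

theorem Fi.mono {p q β a x : ZFSet.{0}} (h : Fi W S p β a x) (hp : p ∈ S) (hpq : p ⊆ q) : Fi W S q β a x :=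
  fun G hG hq => h G hG (hG.up q hq p hp hpq)

theorem Fd.mono {p q β B x : ZFSet.{0}} (h : Fd W S p β B x) (hp : p ∈ S) (hpq : p ⊆ q) : Fd W S q β B x :=
  fun G hG hq => h G hG (hG.up q hq p hp hpq)

theorem fm_nm (hW : CTM W) (hS : S ∈ W) {p q u τ z : ZFSet.{0}} (h : Fm W S p τ z) (h' : Nm W S q τ z)
    (hp : p ∈ S) (hq : q ∈ S) (hu : u ∈ S) (hpu : p ⊆ u) (hqu : q ⊆ u) : False := by
  obtain ⟨G, hG, h1⟩ := exists_gen hW hS hu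
  exact h' G hG (hG.up u h1 q hq hqu) (h G hG (hG.up u h1 p hp hpu))

theorem fi_inc (hW : CTM W) (hS : S ∈ W) {p q u β a a' x x' : ZFSet.{0}} (h : Fi W S p β a x)
    (h' : Fi W S q β a' x') (hp : p ∈ S) (hq : q ∈ S) (hu : u ∈ S) (hpu : p ⊆ u) (hqu : q ⊆ u) :
    x ∩ a' = x' ∩ a := by
  obtain ⟨G, hG, h1⟩ := exists_gen hW hS hu
  have h2 := h G hG (hG.up u h1 p hp hpu)
  have h3 := h' G hG (hG.up u h1 q hq hqu)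
  rw [← h2, ← h3]
  ext y
  simp only [ZFSet.mem_inter]
  tauto

theorem Fm.truth (hW : CTM W) (hS : S ∈ W) (hG : Gen W S G) {τ z : ZFSet.{0}} (hτ : τ ∈ W) (hz : z ∈ W) :
    z ∈ vl G τ ↔ ∃ p ∈ G, Fm W S p τ z := by
  have h1 := Frc.truth ud_PsM hW hS hG ![Ar.g ⟨z, hz⟩, Ar.n ⟨τ, hτ⟩]
    ![⟨z, hG.sub_xt hW hS hz⟩, ⟨vl G τ, τ, hτ, rfl⟩] (by intro i; fin_cases i <;> rfl)
  refine Iff.trans h1 (exists_congr fun p => and_congr_right fun _ => ?_)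
  exact (fm_frc hW hS ⟨τ, hτ⟩ ⟨z, hz⟩).symm

theorem Nm.truth (hW : CTM W) (hS : S ∈ W) (hG : Gen W S G) {τ z : ZFSet.{0}} (hτ : τ ∈ W) (hz : z ∈ W) :
    z ∉ vl G τ ↔ ∃ p ∈ G, Nm W S p τ z := by
  have h1 := Frc.truth ud_PsN hW hS hG ![Ar.g ⟨z, hz⟩, Ar.n ⟨τ, hτ⟩]
    ![⟨z, hG.sub_xt hW hS hz⟩, ⟨vl G τ, τ, hτ, rfl⟩] (by intro i; fin_cases i <;> rfl)
  refine Iff.trans h1 (exists_congr fun p => and_congr_right fun _ => ?_)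
  exact (nm_frc hW hS ⟨τ, hτ⟩ ⟨z, hz⟩).symm

theorem Fi.truth (hW : CTM W) (hS : S ∈ W) (hG : Gen W S G) {β a x : ZFSet.{0}} (hβ : β ∈ W) (ha : a ∈ W)
    (hx : x ∈ W) : vl G β ∩ a = x ↔ ∃ p ∈ G, Fi W S p β a x := by
  have h1 := Frc.truth ud_PsI hW hS hG ![Ar.n ⟨β, hβ⟩, Ar.g ⟨a, ha⟩, Ar.g ⟨x, hx⟩]
    ![⟨vl G β, β, hβ, rfl⟩, ⟨a, hG.sub_xt hW hS ha⟩, ⟨x, hG.sub_xt hW hS hx⟩]
    (by intro i; fin_cases i <;> rfl)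
  refine psI_iff.symm.trans (Iff.trans h1 (exists_congr fun p => and_congr_right fun _ => ?_))
  exact (fi_frc hW hS ⟨β, hβ⟩ ⟨a, ha⟩ ⟨x, hx⟩).symm

theorem Fd.truth (hW : CTM W) (hS : S ∈ W) (hG : Gen W S G) {β B x : ZFSet.{0}} (hβ : β ∈ W) (hB : B ∈ W)
    (hx : x ∈ W) : ¬ (x ∈ vl G β ↔ x ∈ B) ↔ ∃ p ∈ G, Fd W S p β B x := by
  have h1 := Frc.truth ud_PsD hW hS hG ![Ar.n ⟨β, hβ⟩, Ar.g ⟨B, hB⟩, Ar.g ⟨x, hx⟩]
    ![⟨vl G β, β, hβ, rfl⟩, ⟨B, hG.sub_xt hW hS hB⟩, ⟨x, hG.sub_xt hW hS hx⟩]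
    (by intro i; fin_cases i <;> rfl)
  refine Iff.trans h1 (exists_congr fun p => and_congr_right fun _ => ?_)
  exact (fd_frc hW hS ⟨β, hβ⟩ ⟨B, hB⟩ ⟨x, hx⟩).symm

theorem Fm.dfn {hW : CTM W} (hS : S ∈ W) (τ : W) {k : ℕ} {s t : (Fin k → W) → W} (hs : hW.DT s)
    (ht : hW.DT t) : hW.Dfn (fun v => Fm W S (s v).1 τ.1 (t v).1) := by
  refine Dfn.congr (fun v => (fm_frc hW hS τ (t v)).symm) ?_
  exact Frc.dfn2 ud_PsM hS hs (AT.g ht) (AT.n (DT.const τ))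

theorem Nm.dfn {hW : CTM W} (hS : S ∈ W) (τ : W) {k : ℕ} {s t : (Fin k → W) → W} (hs : hW.DT s)
    (ht : hW.DT t) : hW.Dfn (fun v => Nm W S (s v).1 τ.1 (t v).1) := by
  refine Dfn.congr (fun v => (nm_frc hW hS τ (t v)).symm) ?_
  exact Frc.dfn2 ud_PsN hS hs (AT.g ht) (AT.n (DT.const τ))

theorem Fi.dfn {hW : CTM W} (hS : S ∈ W) (β : W) {k : ℕ} {s t r : (Fin k → W) → W} (hs : hW.DT s)
    (ht : hW.DT t) (hr : hW.DT r) : hW.Dfn (fun v => Fi W S (s v).1 β.1 (t v).1 (r v).1) := by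
  refine Dfn.congr (fun v => (fi_frc hW hS β (t v) (r v)).symm) ?_
  exact Frc.dfn3 ud_PsI hS hs (AT.n (DT.const β)) (AT.g ht) (AT.g hr)

theorem Fd.dfn {hW : CTM W} (hS : S ∈ W) (β B : W) {k : ℕ} {s t : (Fin k → W) → W} (hs : hW.DT s)
    (ht : hW.DT t) : hW.Dfn (fun v => Fd W S (s v).1 β.1 B.1 (t v).1) := by
  refine Dfn.congr (fun v => (fd_frc hW hS β B (t v)).symm) ?_
  exact Frc.dfn3 ud_PsD hS hs (AT.n (DT.const β)) (AT.g (DT.const B)) (AT.g ht)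

end Pool.Agent.H95.KT
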