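import Pool.Agent.H95.KT.Defs
import Pool.Agent.H7.IG.Tk1

/-!
# Codes for the members of `C` (job KT-12)

`exists_cod`: `c`: `exists_enum` for `C` (an ordinal `l` and a map of `l` onto `C`).  `h`: `exists_choice` with `A = C`,
`B =` the power set (in `W`) of `ω × X`, and `F a q :=` (`q` is single valued and every `x ∈ a` has some `n` with `(n, x) ∈ q`); for
`a ∈ C` take `q = {(n, x) : x = f n, x ∈ a}` where `seqZ f ∈ W` enumerates `a` (`Ctb`; `mem_seqZ`, `pair_mem_seqZ`), in `W` by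
separation (`CTM.sep_mem` or `exists_sep`).
-/

set_option autoImplicit false
set_option linter.unusedVariables false
set_option linter.unusedSectionVars false
set_option linter.unusedSimpArgs false
set_option linter.unusedTactic false
set_option linter.unreachableTactic false

namespace Pool.Agent.H95.KT

open Pool.Agent.H17.Omega Pool.Agent.H17.Omega.CTM Pool.Agent.H52.GX Pool.Agent.H52.GC Pool.Agent.H7.IG

/-- `c` maps the ordinal `l` onto `C`, `h` is a function that gives enumerations of the members of `C`. -/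
structure Cod (W : Set ZFSet.{0}) (C : ZFSet.{0}) (l : Ordinal.{0}) (c h : ZFSet.{0}) : Prop where
  lmem : l.toZFSet ∈ W
  cmem : c ∈ W
  hmem : h ∈ W
  onto : Onto c l.toZFSet C
  enum : ∀ a ∈ C, ∃ q, ZFSet.pair a q ∈ h ∧ ∀ x ∈ a, ∃ n : ℕ, ZFSet.pair (natZ n) x ∈ q
  uni1 : ∀ a q q', ZFSet.pair a q ∈ h → ZFSet.pair a q' ∈ h → q = q'
  uni2 : ∀ a q, ZFSet.pair a q ∈ h → ∀ n x x', ZFSet.pair n x ∈ q → ZFSet.pair n x' ∈ q → x = x'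

variable {W : Set ZFSet.{0}} {X C : ZFSet.{0}}

theorem exists_cod (hW : CTM W) (hX : X ∈ W) (hC : C ∈ W) (hCs : IsCs W X C) :
    ∃ (l : Ordinal.{0}) (c h : ZFSet.{0}), Cod W C l c h := by
  obtain ⟨l, hl, c, hc, hcO, _⟩ := exists_enum hW hC
  have hpr := hW.prod_mem hW.omZ_mem hX
  obtain ⟨pw, hpw, hpw'⟩ := hW.exists_pow hpr
  obtain ⟨oN, hoN⟩ : ∃ z : W, z.1 = omZ := ⟨⟨_, hW.omZ_mem⟩, rfl⟩
  obtain ⟨h, hh, hhF, hhE⟩ := exists_choice hW (F := fun a q =>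
    (∀ n x x' : W, ZFSet.pair n.1 x.1 ∈ q.1 → ZFSet.pair n.1 x'.1 ∈ q.1 → x = x') ∧
    ∀ x : W, x.1 ∈ a.1 → ∃ n : W, n.1 ∈ oN.1 ∧ ZFSet.pair n.1 x.1 ∈ q.1) (by
    show hW.Dfn (fun v : Fin 2 → W =>
      (∀ n x x' : W, ZFSet.pair n.1 x.1 ∈ (v 1).1 → ZFSet.pair n.1 x'.1 ∈ (v 1).1 → x = x') ∧
      ∀ x : W, x.1 ∈ (v 0).1 → ∃ n : W, n.1 ∈ oN.1 ∧ ZFSet.pair n.1 x.1 ∈ (v 1).1)
    (repeat' first
      | exact DT.var _ | exact DT.last | exact DT.const _ | assumption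
      | refine Dfn.pairMem ?_ ?_ ?_ | refine Dfn.isPair ?_ ?_ ?_ | refine Dfn.mem ?_ ?_
      | refine Dfn.eqv ?_ ?_ | refine Dfn.eq ?_ ?_ | refine Dfn.subset ?_ ?_
      | refine Dfn.isEmpty ?_ | refine Dfn.isTrans ?_ | refine Dfn.isOrd ?_ | refine Dfn.isNat ?_
      | refine Dfn.isUpair ?_ ?_ ?_ | refine Dfn.isInsert ?_ ?_ ?_
      | refine Dfn.and ?_ ?_ | refine Dfn.or ?_ ?_ | refine Dfn.iff ?_ ?_ | refine Dfn.not ?_
      | refine Dfn.imp ?_ ?_ | refine Dfn.all ?_ | refine Dfn.ex ?_ | exact Dfn.false'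
      | refine Dfn.ballZ ?_ ?_ | refine Dfn.bexZ ?_ ?_ | exact Dfn.const _)
    ) hC hpw (by
    intro a ha
    obtain ⟨haW, haX, f, hf, hf'⟩ := (hCs a.1).1 ha
    obtain ⟨q, hq, hqiff⟩ := hW.exists_sep (P := fun z => z.1 ∈ (⟨_, hf⟩ : W).1) (by
      show hW.Dfn (fun v : Fin 1 → W => (v 0).1 ∈ (⟨_, hf⟩ : W).1)
      exact Dfn.mem (DT.var _) (DT.const _)) hpr
    have hqm : ∀ z, z ∈ q ↔ z ∈ ZFSet.prod omZ X ∧ z ∈ seqZ f := by
      intro z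
      rw [hqiff]
      constructor
      · rintro ⟨h1, _, h2⟩
        exact ⟨h1, h2⟩
      · rintro ⟨h1, h2⟩
        exact ⟨h1, hW.mem_of_mem hf h2, h2⟩
    refine ⟨⟨q, hq⟩, (hpw' q).2 ⟨hq, fun z hz => ((hqm z).1 hz).1⟩, ?_, ?_⟩
    · intro n x x' h1 h2
      obtain ⟨k, hk⟩ := mem_seqZ.1 ((hqm _).1 h1).2
      obtain ⟨k', hk'⟩ := mem_seqZ.1 ((hqm _).1 h2).2
      rw [ZFSet.pair_inj] at hk hk'
      have e : k = k' := natZ_inj.1 (hk.1.symm.trans hk'.1)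
      apply Subtype.ext
      rw [hk.2, hk'.2, e]
    · intro x hx
      obtain ⟨n, hn⟩ := hf' x.1 hx
      refine ⟨⟨natZ n, hW.natZ_mem_N n⟩, ?_, ?_⟩
      · rw [hoN]; exact natZ_mem_omZ n
      · refine (hqm _).2 ⟨ZFSet.pair_mem_prod.2 ⟨natZ_mem_omZ n, haX hx⟩, ?_⟩
        exact pair_mem_seqZ.2 hn.symm)
  refine ⟨l, c, h, ⟨hl, hc, hh, hcO, ?_, ?_, ?_⟩⟩
  · intro a ha
    obtain ⟨q, hq, haq⟩ := hhF.tot a ha
    have haW := hW.mem_of_mem hC ha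
    have hqW := hW.mem_of_mem hpw hq
    refine ⟨q, haq, fun x hx => ?_⟩
    obtain ⟨n, hn, hnx⟩ := (hhE ⟨a, haW⟩ ⟨q, hqW⟩ haq).2 ⟨x, hW.mem_of_mem haW hx⟩ hx
    rw [hoN] at hn
    obtain ⟨k, hk⟩ := mem_omZ.1 hn
    rw [hk] at hnx
    exact ⟨k, hnx⟩
  · intro a q q' h1 h2
    exact (hhF.ap_eq h1).symm.trans (hhF.ap_eq h2)
  · intro a q haq n x x' h1 h2
    have h3 := hW.of_pair_mem (hW.mem_of_mem hh haq)
    have h4 := hW.of_pair_mem (hW.mem_of_mem h3.2 h1)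
    have h5 := hW.of_pair_mem (hW.mem_of_mem h3.2 h2)
    exact congrArg Subtype.val ((hhE ⟨a, h3.1⟩ ⟨q, h3.2⟩ haq).1 ⟨n, h4.1⟩ ⟨x, h4.2⟩ ⟨x', h5.2⟩ h1 h2)

end Pool.Agent.H95.KT
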