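import Pool.Agent.H95.KT.R1
import Pool.Agent.H95.KT.F1
import Pool.Agent.H95.KT.H1

/-!
# The hull used in the residue argument (job KT-13)

`hullR`: let `S ⊆ K₁ ∈ M`; `l`, `μ` are in `M` by `hord`; `exists_Y` for `K₁ ∪ l ∪ μ` gives `Y`. Apply `hull` with
* `Φ₀ y z := ∃ ξ n a q, y = (ξ, n) ∧ (ξ, a) ∈ c ∧ (a, q) ∈ h ∧ (n, z) ∈ q`;
* `Φ₁ y z := ∃ r ξ n a ζ x, y = (r, (ξ, n)) ∧ (ξ, a) ∈ c ∧ z ∈ S ∧ r ⊆ z ∧ (ζ, x) ∈ c ∧ z` forces `((a, n), x) ∈ ε` (`Fm.dfn` with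
  `∃ w, w = ((a, n), x) ∧ Fm ..`);
* `Φ₂ y z := ∃ t ξ n a x, y = (t, (ξ, n)) ∧ (ξ, a) ∈ c ∧ (z, x) ∈ c ∧ t` forces `((a, n), x) ∈ ε`;
* `Φ₃ y z := ∃ r ξ ζ a x, y = (r, (ξ, ζ)) ∧ (ξ, a) ∈ c ∧ (ζ, x) ∈ c ∧ z ∈ S ∧ r ⊆ z ∧ z` forces `(a, x) ∉ τ` (`Nm.dfn`);
* `Φ₄ y z := ∃ a, (z, a) ∈ c ∧ ∀ x ∈ C, y` does not force `(a, x) ∈ τ`.
`natZ n ∈ Z` (induction: `natZ n` is a finite subset of `Z`) and pairs of elements of `Z` are in `Z` (`pair x y = {{x}, {x, y}}`).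
`c0`: `Φ₀` for `y = (ξ, n)`, `z = x ∈ a`, `(n, x) ∈ q` (`Cod.enum`; `x ∈ a ⊆ μ ⊆ Y`): the `z' ∈ Z` is `x` (single valued: `Fn.uni`,
`Cod.uni1`, `Cod.uni2`). `c1`: `Φ₁` gives `t' ∈ Z` (`t ∈ S ⊆ Y`; `x = c ζ` for some `ζ < l`, `Onto`), then `Φ₂` for `(t', (ξ, n))` gives
`ζ' ∈ Z` (`ζ ∈ l ⊆ Y`). `c3`: `Φ₃`. `c4`: `Φ₄` (`z ∈ l ⊆ Y`).
-/

set_option autoImplicit false
set_option linter.unusedVariables false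
set_option linter.unusedSectionVars false
set_option linter.unusedSimpArgs false
set_option linter.unusedTactic false
set_option linter.unreachableTactic false

namespace Pool.Agent.H95.KT

open Pool.Agent.H17.Omega Pool.Agent.H17.Omega.CTM Pool.Agent.H52.GX Pool.Agent.H52.GC Pool.Agent.H7.IG

/-- The properties of the hull `Z` and the strongly generic condition `s`. -/
structure HR (W : Set ZFSet.{0}) (S C τ ε : ZFSet.{0}) (c s₀ s Z : ZFSet.{0}) : Prop where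
  mem : Z ∈ W
  ctb : Ctb W Z
  sg : SG Z S s₀ s
  c0 : ∀ ξ ∈ Z, ∀ a, ZFSet.pair ξ a ∈ c → a ⊆ Z
  c1 : ∀ r ∈ Z, ∀ ξ ∈ Z, ∀ (n : ℕ) (a : ZFSet.{0}), ZFSet.pair ξ a ∈ c → ∀ t ∈ S, r ⊆ t → ∀ x ∈ C,
    Fm W S t ε (ZFSet.pair (ZFSet.pair a (natZ n)) x) → ∃ t' ∈ Z, t' ∈ S ∧ r ⊆ t' ∧ ∃ ζ ∈ Z, ∃ x',
      ZFSet.pair ζ x' ∈ c ∧ Fm W S t' ε (ZFSet.pair (ZFSet.pair a (natZ n)) x')
  c3 : ∀ r ∈ Z, ∀ ξ ∈ Z, ∀ ζ ∈ Z, ∀ a x, ZFSet.pair ξ a ∈ c → ZFSet.pair ζ x ∈ c → ∀ t ∈ S, r ⊆ t →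
    Nm W S t τ (ZFSet.pair a x) → ∃ t' ∈ Z, t' ∈ S ∧ r ⊆ t' ∧ Nm W S t' τ (ZFSet.pair a x)
  c4 : ∀ r ∈ Z, (∃ a ∈ C, ∀ x ∈ C, ¬ Fm W S r τ (ZFSet.pair a x)) →
    ∃ ξ ∈ Z, ∃ a, ZFSet.pair ξ a ∈ c ∧ ∀ x ∈ C, ¬ Fm W S r τ (ZFSet.pair a x)

variable {M W : Set ZFSet.{0}} {S G : ZFSet.{0}}

theorem r2_pair {Z : ZFSet.{0}} (hZ : ∀ a, FinZ a → a ⊆ Z → a ∈ Z) {x y : ZFSet.{0}} (hx : x ∈ Z)
    (hy : y ∈ Z) : ZFSet.pair x y ∈ Z := by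
  classical
  have h1 : ({x} : ZFSet.{0}) ∈ Z := hZ _ ⟨{x}, fun z => by simp⟩ fun z hz => by
    rw [ZFSet.mem_singleton] at hz; rw [hz]; exact hx
  have h2 : ({x, y} : ZFSet.{0}) ∈ Z := hZ _ ⟨{x, y}, fun z => by simp⟩ fun z hz => by
    rw [ZFSet.mem_pair] at hz
    rcases hz with rfl | rfl <;> assumption
  refine hZ _ ⟨{{x}, {x, y}}, fun z => by simp [ZFSet.pair]⟩ fun z hz => ?_
  rw [ZFSet.pair, ZFSet.mem_pair] at hz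
  rcases hz with rfl | rfl <;> assumption

theorem r2_nat {Z : ZFSet.{0}} (hZ : ∀ a, FinZ a → a ⊆ Z → a ∈ Z) (n : ℕ) : natZ n ∈ Z := by
  classical
  induction n using Nat.strong_induction_on with
  | _ n ih =>
    refine hZ _ ⟨(Finset.range n).image natZ, fun z => ?_⟩ fun z hz => ?_
    · rw [mem_natZ, Finset.mem_image]
      constructor
      · rintro ⟨m, hm, rfl⟩; exact ⟨m, Finset.mem_range.2 hm, rfl⟩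
      · rintro ⟨m, hm, rfl⟩; exact ⟨m, Finset.mem_range.1 hm, rfl⟩
    · obtain ⟨m, hm, rfl⟩ := mem_natZ.1 hz
      exact ih m hm

theorem hullR (hM : CTM M) (hW : CTM W) (hMW : M ⊆ W) (hord : ∀ o : Ordinal.{0}, o.toZFSet ∈ W → o.toZFSet ∈ M)
    (hS : S ∈ W) (hSM : ∃ K ∈ M, S ⊆ K) (hSPR : SPR M W S) (hG : Gen W S G) {μ : Ordinal.{0}}
    (hμ : μ.toZFSet ∈ W) {C : ZFSet.{0}} (hC : C ∈ W) (hCs : IsCs W μ.toZFSet C) {l : Ordinal.{0}}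
    {c h : ZFSet.{0}} (hcod : Cod W C l c h) {τ ε s₀ : ZFSet.{0}} (hτ : τ ∈ W) (hε : ε ∈ W) (hs₀ : s₀ ∈ G) :
    ∃ s ∈ G, s₀ ⊆ s ∧ ∃ Z, HR W S C τ ε c s₀ s Z := by
  obtain ⟨K₁, hK₁, hSK⟩ := hSM
  have hlM := hord l hcod.lmem
  have hμM := hord μ hμ
  obtain ⟨Y, hY, hAY, hYf⟩ := exists_Y hM (hM.union_mem hK₁ (hM.union_mem hlM hμM))
  have hSY : S ⊆ Y := fun x hx => hAY (ZFSet.mem_union.2 (Or.inl (hSK hx)))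
  have hlY : ∀ x ∈ l.toZFSet, x ∈ Y := fun x hx =>
    hAY (ZFSet.mem_union.2 (Or.inr (ZFSet.mem_union.2 (Or.inl hx))))
  have hμY : ∀ x ∈ μ.toZFSet, x ∈ Y := fun x hx =>
    hAY (ZFSet.mem_union.2 (Or.inr (ZFSet.mem_union.2 (Or.inr hx))))
  have hcW := hcod.cmem
  have hhW := hcod.hmem
  have hcf : Fn c l.toZFSet C := hcod.onto.1
  have hcl : ∀ ξ a, ZFSet.pair ξ a ∈ c → ξ ∈ l.toZFSet ∧ a ∈ C := by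
    intro ξ a h1
    obtain ⟨ξ', h2, a', h3, h4⟩ := hcf.sub _ h1
    rw [ZFSet.pair_inj] at h4
    exact ⟨h4.1 ▸ h2, h4.2 ▸ h3⟩
  have hcu : ∀ ξ a a', ZFSet.pair ξ a ∈ c → ZFSet.pair ξ a' ∈ c → a = a' := fun ξ a a' h1 h2 =>
    (hcf.ap_eq h1).symm.trans (hcf.ap_eq h2)
  have hlW : ∀ ξ ∈ l.toZFSet, ξ ∈ W := fun ξ h1 => hW.mem_of_mem hcod.lmem h1
  have hCW : ∀ a ∈ C, a ∈ W := fun a h1 => hW.mem_of_mem hC h1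
  have hSW : ∀ a ∈ S, a ∈ W := fun a h1 => hW.mem_of_mem hS h1
  let cW : W := ⟨c, hcW⟩
  let hhZ : W := ⟨h, hhW⟩
  let SW : W := ⟨S, hS⟩
  let CW : W := ⟨C, hC⟩
  let εW : W := ⟨ε, hε⟩
  let τW : W := ⟨τ, hτ⟩
  let Φ₀ : W → W → Prop := fun y z => ∃ ξ n a q : W, y.1 = ZFSet.pair ξ.1 n.1 ∧
    ZFSet.pair ξ.1 a.1 ∈ cW.1 ∧ ZFSet.pair a.1 q.1 ∈ hhZ.1 ∧ ZFSet.pair n.1 z.1 ∈ q.1
  let Φ₁ : W → W → Prop := fun y z => ∃ r u ξ n a ζ x b w : W, y.1 = ZFSet.pair r.1 u.1 ∧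
    u.1 = ZFSet.pair ξ.1 n.1 ∧ ZFSet.pair ξ.1 a.1 ∈ cW.1 ∧ z.1 ∈ SW.1 ∧ r.1 ⊆ z.1 ∧
    ZFSet.pair ζ.1 x.1 ∈ cW.1 ∧ b.1 = ZFSet.pair a.1 n.1 ∧ w.1 = ZFSet.pair b.1 x.1 ∧
    Fm W S z.1 εW.1 w.1
  let Φ₂ : W → W → Prop := fun y z => ∃ t u ξ n a x b w : W, y.1 = ZFSet.pair t.1 u.1 ∧
    u.1 = ZFSet.pair ξ.1 n.1 ∧ ZFSet.pair ξ.1 a.1 ∈ cW.1 ∧
    ZFSet.pair z.1 x.1 ∈ cW.1 ∧ b.1 = ZFSet.pair a.1 n.1 ∧ w.1 = ZFSet.pair b.1 x.1 ∧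
    Fm W S t.1 εW.1 w.1
  let Φ₃ : W → W → Prop := fun y z => ∃ r u ξ ζ a x w : W, y.1 = ZFSet.pair r.1 u.1 ∧
    u.1 = ZFSet.pair ξ.1 ζ.1 ∧ ZFSet.pair ξ.1 a.1 ∈ cW.1 ∧ ZFSet.pair ζ.1 x.1 ∈ cW.1 ∧
    z.1 ∈ SW.1 ∧ r.1 ⊆ z.1 ∧ w.1 = ZFSet.pair a.1 x.1 ∧ Nm W S z.1 τW.1 w.1
  let Φ₄ : W → W → Prop := fun y z => ∃ a : W, ZFSet.pair z.1 a.1 ∈ cW.1 ∧
    ∀ x : W, x.1 ∈ CW.1 → ∀ w : W, w.1 = ZFSet.pair a.1 x.1 → ¬ Fm W S y.1 τW.1 w.1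
  have h0 : hW.Dfn (fun v : Fin 2 → W => Φ₀ (v 0) (v 1)) := by
    (repeat' first
        | exact DT.var _ | exact DT.last | exact DT.const _ | assumption
        | refine Dfn.pairMem ?_ ?_ ?_ | refine Dfn.isPair ?_ ?_ ?_ | refine Dfn.mem ?_ ?_
        | refine Dfn.eqv ?_ ?_ | refine Dfn.eq ?_ ?_ | refine Dfn.subset ?_ ?_
        | refine Dfn.isEmpty ?_ | refine Dfn.isTrans ?_ | refine Dfn.isOrd ?_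
        | refine Dfn.isNat ?_ | refine Dfn.and ?_ ?_ | refine Dfn.or ?_ ?_ | refine Dfn.iff ?_ ?_
        | refine Dfn.not ?_ | refine Dfn.imp ?_ ?_ | refine Dfn.all ?_ | refine Dfn.ex ?_
        | exact Dfn.false')
  have h1 : hW.Dfn (fun v : Fin 2 → W => Φ₁ (v 0) (v 1)) := by
    (repeat' first
        | exact DT.var _ | exact DT.last | exact DT.const _ | assumption
        | refine Dfn.pairMem ?_ ?_ ?_ | refine Dfn.isPair ?_ ?_ ?_ | refine Dfn.mem ?_ ?_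
        | refine Dfn.eqv ?_ ?_ | refine Dfn.eq ?_ ?_ | refine Dfn.subset ?_ ?_
        | refine Dfn.isEmpty ?_ | refine Dfn.isTrans ?_ | refine Dfn.isOrd ?_
        | refine Dfn.isNat ?_ | refine Dfn.and ?_ ?_ | refine Dfn.or ?_ ?_ | refine Dfn.iff ?_ ?_
        | refine Dfn.not ?_ | refine Dfn.imp ?_ ?_ | refine Dfn.all ?_ | refine Dfn.ex ?_
        | exact Dfn.false')
    all_goals exact Fm.dfn hS εW (DT.var _) (DT.var _)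
  have h2 : hW.Dfn (fun v : Fin 2 → W => Φ₂ (v 0) (v 1)) := by
    (repeat' first
        | exact DT.var _ | exact DT.last | exact DT.const _ | assumption
        | refine Dfn.pairMem ?_ ?_ ?_ | refine Dfn.isPair ?_ ?_ ?_ | refine Dfn.mem ?_ ?_
        | refine Dfn.eqv ?_ ?_ | refine Dfn.eq ?_ ?_ | refine Dfn.subset ?_ ?_
        | refine Dfn.isEmpty ?_ | refine Dfn.isTrans ?_ | refine Dfn.isOrd ?_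
        | refine Dfn.isNat ?_ | refine Dfn.and ?_ ?_ | refine Dfn.or ?_ ?_ | refine Dfn.iff ?_ ?_
        | refine Dfn.not ?_ | refine Dfn.imp ?_ ?_ | refine Dfn.all ?_ | refine Dfn.ex ?_
        | exact Dfn.false')
    all_goals exact Fm.dfn hS εW (DT.var _) (DT.var _)
  have h3 : hW.Dfn (fun v : Fin 2 → W => Φ₃ (v 0) (v 1)) := by
    (repeat' first
        | exact DT.var _ | exact DT.last | exact DT.const _ | assumption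
        | refine Dfn.pairMem ?_ ?_ ?_ | refine Dfn.isPair ?_ ?_ ?_ | refine Dfn.mem ?_ ?_
        | refine Dfn.eqv ?_ ?_ | refine Dfn.eq ?_ ?_ | refine Dfn.subset ?_ ?_
        | refine Dfn.isEmpty ?_ | refine Dfn.isTrans ?_ | refine Dfn.isOrd ?_
        | refine Dfn.isNat ?_ | refine Dfn.and ?_ ?_ | refine Dfn.or ?_ ?_ | refine Dfn.iff ?_ ?_
        | refine Dfn.not ?_ | refine Dfn.imp ?_ ?_ | refine Dfn.all ?_ | refine Dfn.ex ?_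
        | exact Dfn.false')
    all_goals exact Nm.dfn hS τW (DT.var _) (DT.var _)
  have h4 : hW.Dfn (fun v : Fin 2 → W => Φ₄ (v 0) (v 1)) := by
    (repeat' first
        | exact DT.var _ | exact DT.last | exact DT.const _ | assumption
        | refine Dfn.pairMem ?_ ?_ ?_ | refine Dfn.isPair ?_ ?_ ?_ | refine Dfn.mem ?_ ?_
        | refine Dfn.eqv ?_ ?_ | refine Dfn.eq ?_ ?_ | refine Dfn.subset ?_ ?_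
        | refine Dfn.isEmpty ?_ | refine Dfn.isTrans ?_ | refine Dfn.isOrd ?_
        | refine Dfn.isNat ?_ | refine Dfn.and ?_ ?_ | refine Dfn.or ?_ ?_ | refine Dfn.iff ?_ ?_
        | refine Dfn.not ?_ | refine Dfn.imp ?_ ?_ | refine Dfn.all ?_ | refine Dfn.ex ?_
        | exact Dfn.false')
    all_goals exact Fm.dfn hS τW (DT.var _) (DT.var _)
  obtain ⟨Z, hZ, hZY, hZc, hZf, k0, k1, k2, k3, k4, s, hs, hs0, hsg⟩ :=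
    hull hM hW hMW hS hSPR hG hY hSY hYf hs₀ Φ₀ Φ₁ Φ₂ Φ₃ Φ₄ h0 h1 h2 h3 h4
  have hZW : ∀ z ∈ Z, z ∈ W := fun z hz => hW.mem_of_mem hZ hz
  have hpr : ∀ {x y}, x ∈ Z → y ∈ Z → ZFSet.pair x y ∈ Z := fun hx hy => r2_pair hZf hx hy
  have hnt : ∀ n, natZ n ∈ Z := r2_nat hZf
  refine ⟨s, hs, hs0, Z, hZ, hZc, hsg, ?_, ?_, ?_, ?_⟩
  · -- c0
    intro ξ hξ a hξa x hx
    obtain ⟨hξl, haC⟩ := hcl ξ a hξa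
    obtain ⟨q, haq, hq⟩ := hcod.enum a haC
    obtain ⟨n, hn⟩ := hq x hx
    have hqW := (hW.of_pair_mem (hW.mem_of_mem hhW haq)).2
    have hxW := hW.mem_of_mem (hCW a haC) hx
    have hxY : x ∈ Y := hμY x (((hCs a).1 haC).2.1 hx)
    obtain ⟨z', hz', ξ', n', a', q', e1, e2, e3, e4⟩ := k0 ⟨ZFSet.pair ξ (natZ n),
      hW.pair_mem (hZW ξ hξ) (hW.natZ_mem_N n)⟩ ⟨x, hxW⟩ (hpr hξ (hnt n)) hxY
      ⟨⟨ξ, hZW ξ hξ⟩, ⟨natZ n, hW.natZ_mem_N n⟩, ⟨a, hCW a haC⟩, ⟨q, hqW⟩, rfl, hξa, haq, hn⟩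
    have e1 : ZFSet.pair ξ (natZ n) = ZFSet.pair ξ'.1 n'.1 := e1
    rw [ZFSet.pair_inj] at e1
    rw [← e1.1] at e2
    have e5 : a'.1 = a := hcu _ _ _ e2 hξa
    rw [e5] at e3
    have e6 : q'.1 = q := hcod.uni1 _ _ _ e3 haq
    rw [e6, ← e1.2] at e4
    have e7 : z'.1 = x := hcod.uni2 _ _ haq _ _ _ e4 hn
    rw [← e7]
    exact hz'
  · -- c1
    intro r hr ξ hξ n a hξa t ht hrt x hx hF
    obtain ⟨hξl, haC⟩ := hcl ξ a hξa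
    obtain ⟨ζ, hζ, hζx⟩ := hcod.onto.2 x hx
    have hnW := hW.natZ_mem_N n
    obtain ⟨t', ht', r', u', ξ', n', a', ζ', x', b', w', e1, e2, e3, e4, e5, e6, e7, e8, e9⟩ :=
      k1 ⟨ZFSet.pair r (ZFSet.pair ξ (natZ n)), hW.pair_mem (hZW r hr) (hW.pair_mem (hZW ξ hξ) hnW)⟩
      ⟨t, hSW t ht⟩ (hpr hr (hpr hξ (hnt n))) (hSY ht)
      ⟨⟨r, hZW r hr⟩, ⟨ZFSet.pair ξ (natZ n), hW.pair_mem (hZW ξ hξ) hnW⟩, ⟨ξ, hZW ξ hξ⟩,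
        ⟨natZ n, hnW⟩, ⟨a, hCW a haC⟩, ⟨ζ, hlW ζ hζ⟩, ⟨x, hCW x hx⟩,
        ⟨ZFSet.pair a (natZ n), hW.pair_mem (hCW a haC) hnW⟩,
        ⟨ZFSet.pair (ZFSet.pair a (natZ n)) x, hW.pair_mem (hW.pair_mem (hCW a haC) hnW) (hCW x hx)⟩,
        rfl, rfl, hξa, ht, hrt, hζx, rfl, rfl, hF⟩
    have e1 : ZFSet.pair r (ZFSet.pair ξ (natZ n)) = ZFSet.pair r'.1 u'.1 := e1
    rw [ZFSet.pair_inj] at e1
    have e2 : ZFSet.pair ξ (natZ n) = ZFSet.pair ξ'.1 n'.1 := e1.2.trans e2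
    rw [ZFSet.pair_inj] at e2
    rw [← e2.1] at e3
    have e10 : a'.1 = a := hcu _ _ _ e3 hξa
    rw [e10, ← e2.2] at e7
    rw [← e1.1] at e5
    have e8 : w'.1 = ZFSet.pair (ZFSet.pair a (natZ n)) x'.1 := by rw [e8, e7]
    rw [e8] at e9
    -- second step
    obtain ⟨hζl, hxC⟩ := hcl _ _ e6
    obtain ⟨ζ₂, hζ₂, t₂, u₂, ξ₂, n₂, a₂, x₂, b₂, w₂, f1, f2, f3, f4, f5, f6, f7⟩ :=
      k2 ⟨ZFSet.pair t'.1 (ZFSet.pair ξ (natZ n)),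
        hW.pair_mem t'.2 (hW.pair_mem (hZW ξ hξ) hnW)⟩ ζ' (hpr ht' (hpr hξ (hnt n))) (hlY _ hζl)
      ⟨t', ⟨ZFSet.pair ξ (natZ n), hW.pair_mem (hZW ξ hξ) hnW⟩, ⟨ξ, hZW ξ hξ⟩,
        ⟨natZ n, hnW⟩, ⟨a, hCW a haC⟩, x',
        ⟨ZFSet.pair a (natZ n), hW.pair_mem (hCW a haC) hnW⟩,
        ⟨ZFSet.pair (ZFSet.pair a (natZ n)) x'.1, hW.pair_mem (hW.pair_mem (hCW a haC) hnW) x'.2⟩,
        rfl, rfl, hξa, e6, rfl, rfl, e9⟩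
    have f1 : ZFSet.pair t'.1 (ZFSet.pair ξ (natZ n)) = ZFSet.pair t₂.1 u₂.1 := f1
    rw [ZFSet.pair_inj] at f1
    have f2 : ZFSet.pair ξ (natZ n) = ZFSet.pair ξ₂.1 n₂.1 := f1.2.trans f2
    rw [ZFSet.pair_inj] at f2
    rw [← f2.1] at f3
    have f10 : a₂.1 = a := hcu _ _ _ f3 hξa
    rw [f10, ← f2.2] at f5
    have f6 : w₂.1 = ZFSet.pair (ZFSet.pair a (natZ n)) x₂.1 := by rw [f6, f5]
    rw [f6, ← f1.1] at f7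
    exact ⟨t'.1, ht', e4, e5, ζ₂.1, hζ₂, x₂.1, f4, f7⟩
  · -- c3
    intro r hr ξ hξ ζ hζ a x hξa hζx t ht hrt hN
    obtain ⟨hξl, haC⟩ := hcl ξ a hξa
    obtain ⟨hζl, hxC⟩ := hcl ζ x hζx
    obtain ⟨t', ht', r', u', ξ', ζ', a', x', w', e1, e2, e3, e4, e5, e6, e7, e8⟩ :=
      k3 ⟨ZFSet.pair r (ZFSet.pair ξ ζ), hW.pair_mem (hZW r hr) (hW.pair_mem (hZW ξ hξ) (hZW ζ hζ))⟩
      ⟨t, hSW t ht⟩ (hpr hr (hpr hξ hζ)) (hSY ht)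
      ⟨⟨r, hZW r hr⟩, ⟨ZFSet.pair ξ ζ, hW.pair_mem (hZW ξ hξ) (hZW ζ hζ)⟩, ⟨ξ, hZW ξ hξ⟩,
        ⟨ζ, hZW ζ hζ⟩, ⟨a, hCW a haC⟩, ⟨x, hCW x hxC⟩,
        ⟨ZFSet.pair a x, hW.pair_mem (hCW a haC) (hCW x hxC)⟩,
        rfl, rfl, hξa, hζx, ht, hrt, rfl, hN⟩
    have e1 : ZFSet.pair r (ZFSet.pair ξ ζ) = ZFSet.pair r'.1 u'.1 := e1
    rw [ZFSet.pair_inj] at e1
    have e2 : ZFSet.pair ξ ζ = ZFSet.pair ξ'.1 ζ'.1 := e1.2.trans e2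
    rw [ZFSet.pair_inj] at e2
    rw [← e2.1] at e3
    rw [← e2.2] at e4
    have e10 : a'.1 = a := hcu _ _ _ e3 hξa
    have e11 : x'.1 = x := hcu _ _ _ e4 hζx
    rw [← e1.1] at e6
    rw [e10, e11] at e7
    rw [e7] at e8
    exact ⟨t'.1, ht', e5, e6, e8⟩
  · -- c4
    rintro r hr ⟨a, haC, ha⟩
    obtain ⟨ξ, hξ, hξa⟩ := hcod.onto.2 a haC
    obtain ⟨ξ', hξ', a', e1, e2⟩ := k4 ⟨r, hZW r hr⟩ ⟨ξ, hlW ξ hξ⟩ hr (hlY ξ hξ)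
      ⟨⟨a, hCW a haC⟩, hξa, fun x hx w hw => by rw [hw]; exact ha x.1 hx⟩
    refine ⟨ξ'.1, hξ', a'.1, e1, fun x hx => ?_⟩
    exact e2 ⟨x, hCW x hx⟩ hx ⟨ZFSet.pair a'.1 x, hW.pair_mem a'.2 (hCW x hx)⟩ rfl

end Pool.Agent.H95.KT
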