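import Pool.Agent.H95.KT.R2
import Pool.Agent.H95.KT.F2

/-!
# The residue argument (job KT-14)

`res_code`. Let `G'` be generic with `s' ∈ G'` (`exists_gen`). `(a, x) ∈ vl G' τ`, and by `PrT` (`s₀ ∈ G'`) `(a', x ∩ a') ∈ vl G' τ`
(`Ap.res`, `a' ∈ C` by `Onto`/`Fn`) and `((a', n), x ∩ a') ∈ vl G' ε` for some `n`. By `Fm.truth` and directedness there is
`s'' ∈ G'`, `s' ⊆ s''` forcing this (`Fm.mono`). Let `r ∈ Z` be the residue of `s''` (`HR.sg`). `HR.c1` for `r`, `ξ`, `n`, `t = s''`,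
`x ∩ a' ∈ C` gives `t' ∈ Z ∩ S`, `r ⊆ t'`, and `ζ ∈ Z`, `x'` with `(ζ, x') ∈ c`, `t'` forces `((a', n), x') ∈ ε`. There is `u ∈ S`
with `s'' ⊆ u`, `t' ⊆ u`; a generic filter containing `u` contains `s₀`, so `x' = x ∩ a'` by `PrT.uni`.

`res_force`. Otherwise there is a generic `G' ∋ r` with `(a', x ∩ a') ∉ vl G' τ`; by `Nm.truth` and directedness some `t ∈ G'`,
`r ⊆ t`, forces this. By `res_code` there is `ζ ∈ Z` with `(ζ, x ∩ a') ∈ c`, and `HR.c3` gives `t' ∈ Z ∩ S`, `r ⊆ t'`, forcing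
`(a', x ∩ a') ∉ τ`. By `hres` there is `u ∈ S`, `s' ⊆ u`, `t' ⊆ u`. In a generic filter containing `u`:
`(a, x) ∈ vl τ`, so `(a', x ∩ a') ∈ vl τ` (`Ap.res`), contradiction.
-/

set_option autoImplicit false
set_option linter.unusedVariables false
set_option linter.unusedSectionVars false
set_option linter.unusedSimpArgs false
set_option linter.unusedTactic false
set_option linter.unreachableTactic false

namespace Pool.Agent.H95.KT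

open Pool.Agent.H17.Omega Pool.Agent.H17.Omega.CTM Pool.Agent.H52.GX Pool.Agent.H52.GC Pool.Agent.H7.IG

variable {W : Set ZFSet.{0}} {S : ZFSet.{0}} {X C : ZFSet.{0}} {l : Ordinal.{0}} {c h τ ε s₀ s Z : ZFSet.{0}}

theorem res_code (hW : CTM W) (hS : S ∈ W) (hC : C ∈ W) (hCs : IsCs W X C) (hcod : Cod W C l c h)
    (hτ : τ ∈ W) (hε : ε ∈ W) (hHR : HR W S C τ ε c s₀ s Z) (hs₀ : s₀ ∈ S) (hs : s ∈ S) (hss : s₀ ⊆ s)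
    (hPr : ∀ G, Gen W S G → s₀ ∈ G → PrT C (vl G τ) (vl G ε)) {s' a x : ZFSet.{0}} (hs' : s' ∈ S)
    (h1 : s ⊆ s') (hF : Fm W S s' τ (ZFSet.pair a x)) {ξ a' : ZFSet.{0}} (hξ : ξ ∈ Z)
    (hξa : ZFSet.pair ξ a' ∈ c) (ha' : a' ⊆ a) : ∃ ζ ∈ Z, ZFSet.pair ζ (x ∩ a') ∈ c := by
  have ha'C : a' ∈ C := by
    obtain ⟨_, _, y, hy, h2⟩ := hcod.onto.1.sub _ hξa
    rw [ZFSet.pair_inj] at h2
    exact h2.2 ▸ hy
  obtain ⟨G', hG', hs'G⟩ := exists_gen hW hS hs'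
  have hs₀s' : s₀ ⊆ s' := fun z hz => h1 (hss hz)
  have hPr' := hPr G' hG' (hG'.up s' hs'G s₀ hs₀ hs₀s')
  have h2 := hPr'.ap.res a x (hF G' hG' hs'G) a' ha'C ha'
  obtain ⟨n, hn⟩ := hPr'.enum _ _ h2
  have hxC : x ∩ a' ∈ C := by
    obtain ⟨_, _, y, hy, _, h3⟩ := hPr'.ap.sub _ h2
    rw [ZFSet.pair_inj] at h3
    exact h3.2 ▸ hy
  have hw : ZFSet.pair (ZFSet.pair a' (natZ n)) (x ∩ a') ∈ W :=
    hW.pair_mem (hW.pair_mem (hW.mem_of_mem hC ha'C) (hW.natZ_mem_N n)) (hW.mem_of_mem hC hxC)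
  obtain ⟨p, hp, hFp⟩ := (Fm.truth hW hS hG' hε hw).1 hn
  obtain ⟨s'', hs''G, hs's'', hps''⟩ := hG'.dir s' hs'G p hp
  have hs''S := hG'.sub _ hs''G
  have hF'' := hFp.mono (hG'.sub _ hp) hps''
  obtain ⟨r, hrZ, hrS, hs₀r, hrs'', hrc⟩ := hHR.sg s'' hs''S fun z hz => hs's'' (h1 hz)
  obtain ⟨t', ht'Z, ht'S, hrt', ζ, hζ, x', hζx', hFt'⟩ :=
    hHR.c1 r hrZ ξ hξ n a' hξa s'' hs''S hrs'' (x ∩ a') hxC hF''
  obtain ⟨u, huS, hs''u, ht'u⟩ := hrc t' ht'Z ht'S hrt'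
  obtain ⟨K, hK, huK⟩ := exists_gen hW hS huS
  have e1 := hF'' K hK (hK.up u huK s'' hs''S hs''u)
  have e2 := hFt' K hK (hK.up u huK t' ht'S ht'u)
  have hs₀K := hK.up u huK s₀ hs₀ fun z hz => hs''u (hs's'' (hs₀s' hz))
  have e3 := (hPr K hK hs₀K).uni _ _ _ e1 e2
  exact ⟨ζ, hζ, e3 ▸ hζx'⟩

theorem res_force (hW : CTM W) (hS : S ∈ W) (hC : C ∈ W) (hCs : IsCs W X C) (hcod : Cod W C l c h)
    (hτ : τ ∈ W) (hε : ε ∈ W) (hHR : HR W S C τ ε c s₀ s Z) (hs₀ : s₀ ∈ S) (hs : s ∈ S) (hss : s₀ ⊆ s)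
    (hPr : ∀ G, Gen W S G → s₀ ∈ G → PrT C (vl G τ) (vl G ε)) {s' a x : ZFSet.{0}} (hs' : s' ∈ S)
    (h1 : s ⊆ s') (hF : Fm W S s' τ (ZFSet.pair a x)) {ξ a' : ZFSet.{0}} (hξ : ξ ∈ Z)
    (hξa : ZFSet.pair ξ a' ∈ c) (ha' : a' ⊆ a) {r : ZFSet.{0}} (hr : r ∈ Z) (hrS : r ∈ S) (hsr : s₀ ⊆ r)
    (hres : ∀ t ∈ Z, t ∈ S → r ⊆ t → ∃ u ∈ S, s' ⊆ u ∧ t ⊆ u) : Fm W S r τ (ZFSet.pair a' (x ∩ a')) := by
  obtain ⟨ζ, hζ, hζx⟩ := res_code hW hS hC hCs hcod hτ hε hHR hs₀ hs hss hPr hs' h1 hF hξ hξa ha'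
  have hmem : ∀ {ξ a : ZFSet.{0}}, ZFSet.pair ξ a ∈ c → a ∈ C := by
    intro ξ a h
    obtain ⟨_, _, y, hy, h2⟩ := hcod.onto.1.sub _ h
    rw [ZFSet.pair_inj] at h2
    exact h2.2 ▸ hy
  have hs₀s' : s₀ ⊆ s' := fun z hz => h1 (hss hz)
  have hw : ZFSet.pair a' (x ∩ a') ∈ W :=
    hW.pair_mem (hW.mem_of_mem hC (hmem hξa)) (hW.mem_of_mem hC (hmem hζx))
  intro G' hG' hrG'
  by_contra hcon
  obtain ⟨p, hp, hNp⟩ := (Nm.truth hW hS hG' hτ hw).1 hcon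
  obtain ⟨t, htG, hrt, hpt⟩ := hG'.dir r hrG' p hp
  have hNt := hNp.mono (hG'.sub _ hp) hpt
  obtain ⟨t', ht'Z, ht'S, hrt', hNt'⟩ := hHR.c3 r hr ξ hξ ζ hζ a' (x ∩ a') hξa hζx t (hG'.sub _ htG) hrt hNt
  obtain ⟨u, huS, hs'u, ht'u⟩ := hres t' ht'Z ht'S hrt'
  obtain ⟨K, hK, huK⟩ := exists_gen hW hS huS
  have hs₀K := hK.up u huK s₀ hs₀ fun z hz => hs'u (hs₀s' hz)
  have e1 := hF K hK (hK.up u huK s' hs' hs'u)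
  exact hNt' K hK (hK.up u huK t' ht'S ht'u) ((hPr K hK hs₀K).ap.res a x e1 a' (hmem hξa) ha')

end Pool.Agent.H95.KT
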