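import Pool.Agent.H95.KT.A2
import Pool.Agent.H95.KT.A4
import Pool.Agent.H95.KT.A5
import Pool.Agent.H95.KT.A7
import Pool.Agent.H95.KT.A8

/-!
# The tree lemma

`prune`; if there is no branch for `T₁` then `split`, `exists_chain`, `nd_mem`, `rl_mem`, `SP.set` (the hypotheses
`hirr`, `htr`, `htree` follow from `IsRl` and `a_ξ ⊆ a_η` for `ξ < η`). In the first case `chain_anti` and `anti_E`, in the second
`ctb_fibre` (`nd_unc`) gives `n` with an uncountable fibre, an antichain, and `anti_E`.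
-/

set_option autoImplicit false
set_option linter.unusedVariables false
set_option linter.unusedSectionVars false
set_option linter.unusedSimpArgs false
set_option linter.unusedTactic false
set_option linter.unreachableTactic false

namespace Pool.Agent.H95.KT

open Pool.Agent.H17.Omega Pool.Agent.H17.Omega.CTM Pool.Agent.H52.GX Pool.Agent.H52.GC Pool.Agent.H7.IG

variable {W : Set ZFSet.{0}} {X C T : ZFSet.{0}} {δ : Ordinal.{0}}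

/-- The tree lemma. -/
theorem tree (hW : CTM W) (hδ : IsOm1 W δ) (hSP : SP W δ) (hX : X ∈ W) (hC : C ∈ W) (hCs : IsCs W X C)
    (hT : T ∈ W) (hAp : Ap C T) (hLC : LC W C T) :
    (∃ B ∈ W, Br X C T B) ∨ ∃ E ∈ W, E ⊆ T ∧ Inc E ∧ ¬ Ctb W E := by
  obtain ⟨T₁, hT₁, hTT, hAp₁, hLC₁, hE₁⟩ := prune hW hX hC hCs hT hAp hLC
  by_cases hbr : ∃ B ∈ W, Br X C T₁ B
  · left
    obtain ⟨B, hB, hBr⟩ := hbr
    exact ⟨B, hB, hBr.1, fun a ha => hTT (hBr.2 a ha)⟩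
  right
  suffices h : ∃ E ∈ W, E ⊆ T₁ ∧ Inc E ∧ ¬ Ctb W E by
    obtain ⟨E, hE, hET, hi, hu⟩ := h
    exact ⟨E, hE, fun z hz => hTT (hET hz), hi, hu⟩
  obtain ⟨g, hg, hch⟩ := exists_chain hW hδ hX hC hCs hT₁ hAp₁ hE₁
    (fun a ha => split hW hX hC hCs hT₁ hAp₁ hLC₁ hE₁ hbr ha)
  obtain ⟨Nd, hNd, hnd⟩ := nd_mem hW hδ hC hT₁ hg hch
  obtain ⟨Rl, hRl, hrl⟩ := rl_mem hW hδ hC hg hch hNd hnd
  have hndx : ∀ (ξ : Ordinal.{0}) (x : ZFSet.{0}), ZFSet.pair ξ.toZFSet x ∈ Nd → ξ < δ := by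
    intro ξ x h
    obtain ⟨ξ', h1, x', h2, h3⟩ := (hnd _).1 h
    rw [ZFSet.pair_inj] at h3
    rw [Ordinal.toZFSet_injective h3.1]
    exact h1
  have hmk : ∀ (ξ η : Ordinal.{0}) (x y : ZFSet.{0}), ξ < η → ZFSet.pair ξ.toZFSet x ∈ Nd →
      ZFSet.pair η.toZFSet y ∈ Nd → y ∩ ap g ξ.toZFSet = x →
      ZFSet.pair (ZFSet.pair ξ.toZFSet x) (ZFSet.pair η.toZFSet y) ∈ Rl :=
    fun ξ η x y h1 h2 h3 h4 => (hrl _).2 ⟨ξ, η, x, y, h1, h2, h3, h4, rfl⟩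
  have hcap : ∀ (ξ η : Ordinal.{0}) (w : ZFSet.{0}), ξ < η → η < δ →
      (w ∩ ap g η.toZFSet) ∩ ap g ξ.toZFSet = w ∩ ap g ξ.toZFSet := by
    intro ξ η w h1 h2
    have h3 := (hch.sp ξ η h1 h2).1
    ext z
    simp only [ZFSet.mem_inter]
    exact ⟨fun h => ⟨h.1.1, h.2⟩, fun h => ⟨⟨h.1, h3 h.2⟩, h.2⟩⟩
  have hanti : (∃ D ∈ W, D ⊆ Nd ∧ (∀ x ∈ D, ∀ y ∈ D, ZFSet.pair x y ∉ Rl) ∧ ¬ Ctb W D) →
      ∃ E ∈ W, E ⊆ T₁ ∧ Inc E ∧ ¬ Ctb W E := by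
    rintro ⟨D, hD, hDs, hDa, hDu⟩
    exact anti_E hW hδ hC hT₁ hAp₁ hg hch hNd hnd hrl hD hDs hDa hDu
  apply hanti
  have hsub : ∀ z ∈ Rl, ∃ x ∈ Nd, ∃ y ∈ Nd, z = ZFSet.pair x y := by
    intro z hz
    obtain ⟨ξ, η, x, y, h1, h2, h3, h4, h5⟩ := (hrl z).1 hz
    exact ⟨_, h2, _, h3, h5⟩
  have hirr : ∀ x, ZFSet.pair x x ∉ Rl := by
    intro x hx
    obtain ⟨ξ, η, x', y', h1, h2, h3, h4, h5⟩ := (hrl _).1 hx
    rw [ZFSet.pair_inj] at h5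
    have h6 := h5.1.symm.trans h5.2
    rw [ZFSet.pair_inj] at h6
    exact absurd (Ordinal.toZFSet_injective h6.1) h1.ne
  have htr : ∀ x y z, ZFSet.pair x y ∈ Rl → ZFSet.pair y z ∈ Rl → ZFSet.pair x z ∈ Rl := by
    intro x y z hxy hyz
    obtain ⟨ξ, η, x', y', h1, h2, h3, h4, h5⟩ := (hrl _).1 hxy
    obtain ⟨η', ζ, y'', z', k1, k2, k3, k4, k5⟩ := (hrl _).1 hyz
    rw [ZFSet.pair_inj] at h5 k5
    have h6 := h5.2.symm.trans k5.1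
    rw [ZFSet.pair_inj] at h6
    obtain ⟨h6, h7⟩ := h6
    have h6 := Ordinal.toZFSet_injective h6
    subst h6
    subst h7
    rw [h5.1, k5.2]
    refine hmk ξ ζ x' z' (h1.trans k1) h2 k3 ?_
    rw [← h4, ← k4]
    exact (hcap ξ η z' h1 (hndx _ _ h3)).symm
  have htree : ∀ x y z, ZFSet.pair x z ∈ Rl → ZFSet.pair y z ∈ Rl →
      x = y ∨ ZFSet.pair x y ∈ Rl ∨ ZFSet.pair y x ∈ Rl := by
    intro x y z hxz hyz
    obtain ⟨ξ, ζ, x', z', h1, h2, h3, h4, h5⟩ := (hrl _).1 hxz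
    obtain ⟨η, ζ', y', z'', k1, k2, k3, k4, k5⟩ := (hrl _).1 hyz
    rw [ZFSet.pair_inj] at h5 k5
    have h6 := h5.2.symm.trans k5.2
    rw [ZFSet.pair_inj] at h6
    obtain ⟨h6, h7⟩ := h6
    have h6 := Ordinal.toZFSet_injective h6
    subst h6
    subst h7
    rw [h5.1, k5.1]
    rcases lt_trichotomy ξ η with hlt | heq | hgt
    · right; left
      refine hmk ξ η x' y' hlt h2 k2 ?_
      rw [← k4, ← h4]
      exact hcap ξ η z' hlt (hndx _ _ k2)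
    · left
      subst heq
      rw [← h4, ← k4]
    · right; right
      refine hmk η ξ y' x' hgt k2 h2 ?_
      rw [← k4, ← h4]
      exact hcap η ξ z' hgt (hndx _ _ h2)
  rcases SP.set hW hδ hSP hNd hRl (nd_cvr hW hδ hT₁ hLC₁ hg hch hNd hnd) hsub hirr htr htree
    (fun z hz p hp h => rl_ctb hW hδ hg hch hNd hnd hRl hrl hz hp h) with
    ⟨D, hD, hDs, hDc, hDu⟩ | ⟨f, hf, hfn, hsp⟩
  · exact chain_anti hW hδ hC hT₁ hAp₁ hg hch hNd hnd hRl hrl hD hDs hDc hDu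
  · obtain ⟨n, hn, hun⟩ := ctb_fibre hW hNd hW.omZ_mem hf hfn (ctb_om hW)
      (nd_unc hW hδ hAp₁ hg hch hNd hnd)
    have hn' : n ∈ W := hW.mem_of_mem hW.omZ_mem hn
    obtain ⟨D, hD, hD'⟩ := hW.exists_sep (P := fun x => ZFSet.pair x.1 (⟨n, hn'⟩ : W).1 ∈ (⟨f, hf⟩ : W).1)
      (Dfn.pairMem (DT.var _) (DT.const _) (DT.const _)) hNd
    refine ⟨D, hD, fun z hz => ((hD' z).1 hz).1, fun x hx y hy h => ?_, ?_⟩
    · obtain ⟨_, _, h1⟩ := (hD' x).1 hx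
      obtain ⟨_, _, h2⟩ := (hD' y).1 hy
      exact hsp x y n h h1 h2
    · intro hc
      refine hun (hc.mono fun z hz => ?_)
      rw [ZFSet.mem_sep] at hz
      exact (hD' z).2 ⟨hz.1, hW.mem_of_mem hNd hz.1, hz.2⟩

end Pool.Agent.H95.KT
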